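import Pool.Agent.Lib.MP_2231f7_an.Weak

set_option autoImplicit false

/-! Comparison of minimizers of the `p`-energy with power barriers. -/

namespace Pool.Agent.Lib.MP_2231f7_an

open MeasureTheory Filter Set Metric Topology
open scoped ContDiff RealInnerProductSpace

lemma hasFDerivAt_norm_sub_rpow (x₀ : Pl) (γ : ℝ) {x : Pl} (hx : x ≠ x₀) :
    HasFDerivAt (fun y : Pl => ‖y - x₀‖ ^ γ)
      ((γ * ‖x - x₀‖ ^ (γ - 2)) • innerSL ℝ (x - x₀)) x := by
  have hpos : 0 < ‖x - x₀‖ := norm_pos_iff.2 (sub_ne_zero.2 hx)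
  have h1 : HasFDerivAt (fun y : Pl => y - x₀) (ContinuousLinearMap.id ℝ Pl) x :=
    (hasFDerivAt_id x).sub_const x₀
  have h2 := (h1.norm_sq).rpow_const (p := γ / 2) (Or.inl (by positivity))
  have e1 : (fun y : Pl => (‖y - x₀‖ ^ 2) ^ (γ / 2)) = fun y : Pl => ‖y - x₀‖ ^ γ := by
    funext y
    rw [← Real.rpow_natCast, ← Real.rpow_mul (norm_nonneg _)]
    congr 1
    push_cast
    ring
  rw [e1] at h2
  refine h2.congr_fderiv ?_
  ext v
  have e2 : (‖x - x₀‖ ^ 2) ^ (γ / 2 - 1) = ‖x - x₀‖ ^ (γ - 2) := by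
    rw [← Real.rpow_natCast, ← Real.rpow_mul (norm_nonneg _)]
    congr 1
    push_cast
    ring
  simp only [e2, ContinuousLinearMap.comp_id, smul_apply, smul_eq_mul, nsmul_eq_mul]
  push_cast
  ring

lemma inner_single_one (v : Pl) (i : Fin 2) : ⟪v, EuclideanSpace.single i (1 : ℝ)⟫ = v i := by
  simp [EuclideanSpace.inner_single_right]

lemma norm_rpow_convexity (g w : Pl) {p : ℝ} (hp : 1 ≤ p) (hw : w ≠ 0) :
    ‖w‖ ^ p + p * ⟪‖w‖ ^ (p - 2) • w, g - w⟫ ≤ ‖g‖ ^ p := by
  have hpos : 0 < ‖w‖ := norm_pos_iff.2 hw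
  have h1 : ⟪w, g⟫ ≤ ‖w‖ * ‖g‖ := real_inner_le_norm w g
  have hb := one_add_mul_self_le_rpow_one_add (s := ‖g‖ / ‖w‖ - 1)
    (by have : 0 ≤ ‖g‖ / ‖w‖ := by positivity
        linarith) hp
  rw [add_sub_cancel, Real.div_rpow (norm_nonneg _) hpos.le,
    le_div_iff₀ (Real.rpow_pos_of_pos hpos p)] at hb
  have e1 : ‖w‖ ^ p = ‖w‖ ^ (p - 2) * ‖w‖ ^ 2 := by
    rw [← Real.rpow_natCast, ← Real.rpow_add hpos]; congr 1; push_cast; ring
  have hq : 0 < ‖w‖ ^ (p - 2) := Real.rpow_pos_of_pos hpos _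
  rw [inner_smul_left, inner_sub_right, real_inner_self_eq_norm_sq]
  refine le_trans ?_ hb
  simp only [conj_trivial]
  have e2 : (1 + p * (‖g‖ / ‖w‖ - 1)) * ‖w‖ ^ p
      = ‖w‖ ^ p + p * (‖w‖ ^ (p - 2) * (‖w‖ * ‖g‖ - ‖w‖ ^ 2)) := by
    rw [e1]; field_simp
  rw [e2]
  gcongr

lemma energy_pointwise (g w : Pl) {p θ : ℝ} (hp : 1 ≤ p) (hw : w ≠ 0) (h0 : 0 ≤ θ) (h1 : θ ≤ 1) :
    ‖g + -(θ • (g - w))‖ ^ p ≤ ‖g‖ ^ p - p * ⟪‖w‖ ^ (p - 2) • w, θ • (g - w)⟫ := by
  have e1 : g + -(θ • (g - w)) = (1 - θ) • g + θ • w := by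
    rw [smul_sub, sub_smul, one_smul]; abel
  have h2 : ‖g + -(θ • (g - w))‖ ≤ (1 - θ) * ‖g‖ + θ * ‖w‖ := by
    rw [e1]
    refine (norm_add_le _ _).trans ?_
    rw [norm_smul, norm_smul, Real.norm_of_nonneg (by linarith), Real.norm_of_nonneg h0]
  have h3 := (convexOn_rpow hp).2 (mem_Ici.2 (norm_nonneg g)) (mem_Ici.2 (norm_nonneg w))
    (show 0 ≤ 1 - θ by linarith) h0 (by ring)
  simp only [smul_eq_mul] at h3
  have h4 := Real.rpow_le_rpow (norm_nonneg _) h2 (by linarith : 0 ≤ p)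
  have h5 := norm_rpow_convexity g w hp hw
  rw [inner_smul_right]
  nlinarith [mul_le_mul_of_nonneg_left h5 h0]

lemma exists_truncation (η : ℝ) : ∃ G θ : ℝ → ℝ, (∀ t, HasDerivAt G (θ t) t) ∧ Continuous θ ∧
    (∀ t, 0 ≤ θ t) ∧ (∀ t, θ t ≤ 1) ∧ (∀ t ≤ η, θ t = 0) ∧ (∀ t ≤ η, G t = 0) ∧
    (∀ t, η < t → 0 < G t) := by
  have hθ : Continuous fun s : ℝ => min (max (s - η) 0) 1 := by fun_prop
  have hθ0 : ∀ t ≤ η, min (max (t - η) 0) 1 = 0 := fun t ht => by
    rw [max_eq_right (by linarith), min_eq_left zero_le_one]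
  refine ⟨fun t => ∫ s in η..t, min (max (s - η) 0) 1, fun s => min (max (s - η) 0) 1,
    fun t => ?_, hθ, fun t => le_min (le_max_right _ _) zero_le_one, fun t => min_le_right _ _,
    hθ0, fun t ht => ?_, fun t ht => ?_⟩
  · exact intervalIntegral.integral_hasDerivAt_right (hθ.intervalIntegrable _ _)
      (hθ.stronglyMeasurableAtFilter _ _) hθ.continuousAt
  · have : ∀ s ∈ uIcc η t, min (max (s - η) 0) 1 = (0 : ℝ) := fun s hs => by
      rw [uIcc_of_ge ht] at hs
      exact hθ0 s hs.2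
    simp only
    rw [intervalIntegral.integral_congr (g := fun _ => (0 : ℝ)) this]
    simp
  · refine intervalIntegral.intervalIntegral_pos_of_pos_on (hθ.intervalIntegrable _ _)
      (fun s hs => ?_) ht
    exact lt_min (lt_max_of_lt_left (by linarith [hs.1])) zero_lt_one

lemma continuous_of_vanish {F : Type*} [NormedAddCommGroup F] {H : Pl → F} {W K : Set Pl}
    (h : ContinuousOn H W) (hW : IsOpen W) (hK : IsClosed K) (hKW : K ⊆ W)
    (hH : ∀ x ∉ K, H x = 0) : Continuous H := by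
  rw [continuous_iff_continuousAt]
  intro x
  by_cases hx : x ∈ K
  · exact h.continuousAt (hW.mem_nhds (hKW hx))
  · refine (continuousAt_const (y := (0 : F))).congr ?_
    filter_upwards [hK.isOpen_compl.mem_nhds hx] with y hy using (hH y hy).symm

lemma integrable_of_vanish' {F : Type*} [NormedAddCommGroup F] {H : Pl → F} {W K : Set Pl}
    (h : LocallyIntegrableOn H W) (hK : IsCompact K) (hKW : K ⊆ W) (hH : ∀ x ∉ K, H x = 0) :
    Integrable H := by
  refine (integrableOn_iff_integrable_of_support_subset ?_).1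
    (h.integrableOn_compact_subset hKW hK)
  intro x hx
  by_contra hxK
  exact hx (hH x hxK)

/-- The map `u + H` for a real function `H`. -/
noncomputable def shiftMap {Ω : Set Pl} (u : C(closure Ω, AddCircle (1 : ℝ))) (H : Pl → ℝ)
    (hH : ContinuousOn H (closure Ω)) : C(closure Ω, AddCircle (1 : ℝ)) where
  toFun x := u x + ((H x.1 : ℝ) : AddCircle (1 : ℝ))
  continuous_toFun := u.continuous.add
    ((AddCircle.continuous_mk' 1).comp (continuousOn_iff_continuous_domRestrict.1 hH))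

lemma shiftMap_homotopicRel {Ω : Set Pl} (u : C(closure Ω, AddCircle (1 : ℝ))) {H : Pl → ℝ}
    (hH : ContinuousOn H (closure Ω)) (H0 : ∀ x ∈ frontier Ω, H x = 0) :
    u.HomotopicRel (shiftMap u H hH) {x : closure Ω | x.1 ∈ frontier Ω} := by
  have hc : Continuous fun x : closure Ω => H x.1 := continuousOn_iff_continuous_domRestrict.1 hH
  refine ⟨⟨⟨⟨fun q => u q.2 + (((q.1 : ℝ) * H q.2.1 : ℝ) : AddCircle (1 : ℝ)), ?_⟩, ?_, ?_⟩, ?_⟩⟩
  · exact (u.continuous.comp continuous_snd).add ((AddCircle.continuous_mk' 1).comp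
      ((continuous_subtype_val.comp continuous_fst).mul (hc.comp continuous_snd)))
  · intro x; simp
  · intro x; simp [shiftMap]
  · intro t x hx
    simp [H0 x.1 hx]

lemma IsWeakDifferential.shift {Ω : Set Pl} {u : C(closure Ω, AddCircle (1 : ℝ))} {g : Pl → Pl}
    (hu : IsWeakDifferential Ω u g) {H : Pl → ℝ} (hH : ContinuousOn H (closure Ω)) {Γ : Pl → Pl}
    (hΓ : HasWeakGradientOn H Γ Ω) :
    IsWeakDifferential Ω (shiftMap u H hH) (fun x => g x + Γ x) := by
  intro U hU hUΩ f hf hlift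
  have h1 := hu U hU hUΩ (fun x => f x - H x) (hf.sub (hH.mono (hUΩ.trans subset_closure)))
    (fun x hx => by
      rw [AddCircle.coe_sub, hlift x hx]
      simp [shiftMap])
  refine HasWeakGradientOn.of_wd (h1.2.1.add (hΓ.2.1.mono_set hUΩ)) fun i => ?_
  have h2 := (h1.wd i).add ((hΓ.wd i).mono hUΩ)
  simpa using h2

lemma IsCompetitor.shift {Ω : Set Pl} {p : ℝ} {u₀ u : C(closure Ω, AddCircle (1 : ℝ))}
    {g : Pl → Pl} (hu : IsCompetitor Ω p u₀ u g) {H : Pl → ℝ} (hH : ContinuousOn H (closure Ω))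
    (H0 : ∀ x ∈ frontier Ω, H x = 0) {Γ : Pl → Pl} (hΓ : HasWeakGradientOn H Γ Ω)
    (hΓp : MemLp Γ (ENNReal.ofReal p) (volume.restrict Ω)) :
    IsCompetitor Ω p u₀ (shiftMap u H hH) (fun x => g x + Γ x) :=
  ⟨hu.1.shift hH hΓ, hu.2.1.add hΓp, (shiftMap_homotopicRel u hH H0).symm.trans hu.2.2⟩

lemma integrableOn_norm_rpow {Ω : Set Pl} {p : ℝ} (hp : 0 < p) {g : Pl → Pl}
    (hg : MemLp g (ENNReal.ofReal p) (volume.restrict Ω)) :
    IntegrableOn (fun x => ‖g x‖ ^ p) Ω := by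
  have := hg.integrable_norm_rpow (by simpa using hp) ENNReal.ofReal_ne_top
  rwa [ENNReal.toReal_ofReal hp.le] at this

lemma barrier_field {x₀ y : Pl} (hy : y ≠ x₀) {κ β p : ℝ} (hκ : 0 < κ) :
    ‖(κ * ‖y - x₀‖ ^ (β - 2)) • (y - x₀)‖ ^ (p - 2) • ((κ * ‖y - x₀‖ ^ (β - 2)) • (y - x₀))
      = (κ ^ (p - 1) * ‖y - x₀‖ ^ ((β - 1) * (p - 1) - 1)) • (y - x₀) := by
  have hpos : 0 < ‖y - x₀‖ := norm_pos_iff.2 (sub_ne_zero.2 hy)
  rw [smul_smul, norm_smul, Real.norm_of_nonneg (by positivity)]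
  congr 1
  have e1 : κ * ‖y - x₀‖ ^ (β - 2) * ‖y - x₀‖ = κ * ‖y - x₀‖ ^ (β - 1) := by
    rw [mul_assoc, ← Real.rpow_add_one hpos.ne']; congr 2; ring
  rw [e1, Real.mul_rpow hκ.le (by positivity), ← Real.rpow_mul hpos.le]
  have e2 : κ ^ (p - 1) = κ ^ (p - 2) * κ := by
    rw [← Real.rpow_add_one hκ.ne']; congr 1; ring
  have e3 : ‖y - x₀‖ ^ ((β - 1) * (p - 1) - 1)
      = ‖y - x₀‖ ^ ((β - 1) * (p - 2)) * ‖y - x₀‖ ^ (β - 2) := by
    rw [← Real.rpow_add hpos]; congr 1; ring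
  rw [e2, e3]; ring

lemma barrier_div {x₀ y : Pl} (hy : y ≠ x₀) (γ : ℝ) :
    ∑ i : Fin 2, fderiv ℝ (fun z : Pl => ‖z - x₀‖ ^ γ * (z - x₀) i) y
      (EuclideanSpace.single i 1) = (γ + 2) * ‖y - x₀‖ ^ γ := by
  have hpos : 0 < ‖y - x₀‖ := norm_pos_iff.2 (sub_ne_zero.2 hy)
  have h1 : ∀ i : Fin 2, fderiv ℝ (fun z : Pl => ‖z - x₀‖ ^ γ * (z - x₀) i) y
      (EuclideanSpace.single i 1)
      = ‖y - x₀‖ ^ γ + γ * ‖y - x₀‖ ^ (γ - 2) * ((y - x₀) i) ^ 2 := by
    intro i
    have h2 : HasFDerivAt (fun z : Pl => (z - x₀) i) (EuclideanSpace.proj (𝕜 := ℝ) i) y := by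
      have := (EuclideanSpace.proj (𝕜 := ℝ) i).hasFDerivAt.comp y
        ((hasFDerivAt_id y).sub_const x₀)
      rw [ContinuousLinearMap.comp_id] at this
      exact this
    have h3 := ((hasFDerivAt_norm_sub_rpow x₀ γ hy).mul h2).fderiv
    have h4 : (fun z : Pl => ‖z - x₀‖ ^ γ * (z - x₀) i)
        = (fun z : Pl => ‖z - x₀‖ ^ γ) * fun z : Pl => (z - x₀) i := rfl
    rw [h4, h3]
    simp only [add_apply, smul_apply, smul_eq_mul, innerSL_apply_apply, inner_single_one]
    simp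
    ring
  simp only [h1, Finset.sum_add_distrib, ← Finset.mul_sum]
  rw [← EuclideanSpace.real_norm_sq_eq]
  have e1 : ‖y - x₀‖ ^ γ = ‖y - x₀‖ ^ (γ - 2) * ‖y - x₀‖ ^ 2 := by
    rw [← Real.rpow_natCast, ← Real.rpow_add hpos]; congr 1; push_cast; ring
  simp only [Finset.sum_const, Finset.card_univ, Fintype.card_fin, nsmul_eq_mul]
  rw [mul_assoc, ← e1]
  push_cast
  ring

/-- Comparison of a local lift of a `p`-energy minimizer with a power barrier from above. -/
theorem IsMinimizer.le_barrier {Ω : Set Pl} (hΩ : IsOpen Ω) (hbd : Bornology.IsBounded Ω)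
    {p : ℝ} (hp : 2 < p) {u₀ u : C(closure Ω, AddCircle (1 : ℝ))} (hu : IsMinimizer Ω p u₀ u)
    {x₀ : Pl} {R : ℝ} (hball : closedBall x₀ R ⊆ Ω) {f : Pl → ℝ}
    (hf : ContinuousOn f (closedBall x₀ R))
    (hlift : ∀ x : closure Ω, x.1 ∈ closedBall x₀ R → ((f x.1 : ℝ) : AddCircle (1 : ℝ)) = u x)
    {a b β : ℝ} (hb : 0 < b) (hβ0 : 0 < β) (hβ : 1 < (1 - β) * (p - 1)) (h0 : f x₀ ≤ a)
    (hsph : ∀ y ∈ sphere x₀ R, f y ≤ a + b * R ^ β) :
    ∀ y ∈ closedBall x₀ R, f y ≤ a + b * ‖y - x₀‖ ^ β := by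
  intro y₀ hy₀
  by_contra hcon
  rw [not_le] at hcon
  obtain ⟨g, hg, hmin⟩ := hu
  have : IsFiniteMeasure (volume.restrict Ω) :=
    ⟨by rw [Measure.restrict_apply_univ]; exact hbd.measure_lt_top⟩
  set c : Pl → ℝ := fun y => a + b * ‖y - x₀‖ ^ β with hc
  have hcc : Continuous c := continuous_const.add (continuous_const.mul
    ((continuous_id.sub continuous_const).norm.rpow_const fun _ => Or.inr hβ0.le))
  obtain ⟨η, hη⟩ : ∃ η, η = (f y₀ - c y₀) / 2 := ⟨_, rfl⟩
  have hη0 : 0 < η := by rw [hη]; simp only [hc]; linarith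
  obtain ⟨G, θ, hG, hθ, hθ0, hθ1, hθη, hGη, hGpos⟩ := exists_truncation η
  have hGc : Continuous G := continuous_iff_continuousAt.2 fun t => (hG t).continuousAt
  have hG0 : ∀ t, 0 ≤ G t := fun t => by
    rcases le_or_gt t η with h | h
    · exact (hGη t h).ge
    · exact (hGpos t h).le
  set W : Set Pl := ball x₀ R \ {x₀} with hWdef
  have hW : IsOpen W := isOpen_ball.sdiff isClosed_singleton
  have hWb : W ⊆ closedBall x₀ R := sdiff_subset.trans ball_subset_closedBall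
  have hWne : ∀ y ∈ W, y ≠ x₀ := fun y hy => hy.2
  have hh : ContinuousOn (fun y => f y - c y) (closedBall x₀ R) := hf.sub hcc.continuousOn
  set K : Set Pl := closedBall x₀ R ∩ (fun y => f y - c y) ⁻¹' Ici η with hKdef
  have hKcl : IsClosed K := hh.preimage_isClosed_of_isClosed isClosed_closedBall isClosed_Ici
  have hK : IsCompact K := (isCompact_closedBall x₀ R).of_isClosed_subset hKcl inter_subset_left
  have hKW : K ⊆ W := by
    rintro y ⟨hy1, hy2⟩
    have hy2' : η ≤ f y - c y := hy2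
    refine ⟨?_, ?_⟩
    · by_contra hlt
      have hs : y ∈ sphere x₀ R := le_antisymm hy1 (not_lt.1 hlt)
      have h1 := hsph y hs
      have h2 : ‖y - x₀‖ = R := by rw [← dist_eq_norm]; exact hs
      simp only [hc, h2] at hy2'
      linarith
    · rintro rfl
      simp only [hc, sub_self, norm_zero, Real.zero_rpow hβ0.ne'] at hy2'
      linarith
  have hKΩ : K ⊆ Ω := inter_subset_left.trans hball
  have hoff : ∀ y ∉ K, y ∈ closedBall x₀ R → f y - c y ≤ η := fun y hy hyb => by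
    by_contra h
    exact hy ⟨hyb, (not_le.1 h).le⟩
  set T : Pl → ℝ := (closedBall x₀ R).indicator fun y => θ (f y - c y) with hT
  set H : Pl → ℝ := (closedBall x₀ R).indicator fun y => G (f y - c y) with hH
  have hTK : ∀ y ∉ K, T y = 0 := fun y hy => by
    by_cases hyb : y ∈ closedBall x₀ R
    · rw [hT, indicator_of_mem hyb, hθη _ (hoff y hy hyb)]
    · rw [hT, indicator_of_notMem hyb]
  have hHK : ∀ y ∉ K, H y = 0 := fun y hy => by
    by_cases hyb : y ∈ closedBall x₀ R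
    · rw [hH, indicator_of_mem hyb, hGη _ (hoff y hy hyb)]
    · rw [hH, indicator_of_notMem hyb]
  have hTW : ∀ y ∈ W, T y = θ (f y - c y) := fun y hy => indicator_of_mem (hWb hy) _
  have hHW : ∀ y ∈ W, H y = G (f y - c y) := fun y hy => indicator_of_mem (hWb hy) _
  have hTc : Continuous T := continuous_of_vanish
    ((hθ.comp_continuousOn (hh.mono hWb)).congr hTW) hW hKcl hKW hTK
  have hHc : Continuous H := continuous_of_vanish
    ((hGc.comp_continuousOn (hh.mono hWb)).congr hHW) hW hKcl hKW hHK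
  have hT0 : ∀ y, 0 ≤ T y := fun y => indicator_nonneg (fun y _ => hθ0 _) y
  have hT1 : ∀ y, T y ≤ 1 := fun y => by
    by_cases hyb : y ∈ closedBall x₀ R
    · rw [hT, indicator_of_mem hyb]; exact hθ1 _
    · rw [hT, indicator_of_notMem hyb]; exact zero_le_one
  have hH0 : ∀ y, 0 ≤ H y := fun y => indicator_nonneg (fun y _ => hG0 _) y
  -- the gradient of the barrier
  set w : Pl → Pl := fun y => (b * β * ‖y - x₀‖ ^ (β - 2)) • (y - x₀) with hw
  have hpow : ∀ γ : ℝ, ContDiffOn ℝ ∞ (fun y : Pl => ‖y - x₀‖ ^ γ) W := fun γ y hy =>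
    (((contDiffAt_id.sub contDiffAt_const).norm ℝ (sub_ne_zero.2 (hWne y hy))).rpow_const_of_ne
      (norm_ne_zero_iff.2 (sub_ne_zero.2 (hWne y hy)))).contDiffWithinAt
  have hwc : ContinuousOn w W :=
    (continuousOn_const.mul (hpow _).continuousOn).smul (by fun_prop)
  have hcder : ∀ y ∈ W, HasFDerivAt c (innerSL ℝ (w y)) y := fun y hy => by
    have := ((hasFDerivAt_norm_sub_rpow x₀ β (hWne y hy)).const_mul b).const_add a
    refine this.congr_fderiv ?_
    simp only [hw, map_smul, smul_smul, mul_assoc]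
  have hfw : HasWeakGradientOn f g (ball x₀ R) := hg.1 _ isOpen_ball
    (ball_subset_closedBall.trans hball) f (hf.mono ball_subset_closedBall)
    fun x hx => hlift x (ball_subset_closedBall hx)
  set Γ : Pl → Pl := fun y => T y • (g y - w y) with hΓ
  have hΓK : ∀ y ∉ K, Γ y = 0 := fun y hy => by simp [hΓ, hTK y hy]
  have hWD : ∀ i : Fin 2, WD H (fun y => Γ y i) (EuclideanSpace.single i 1) W := by
    intro i
    have h1 : WD c (fun y => w y i) (EuclideanSpace.single i 1) W := by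
      have := WD.of_hasFDerivAt hW (EuclideanSpace.single i 1) hcder (by
        simp only [innerSL_apply_apply, inner_single_one]
        exact (EuclideanSpace.proj (𝕜 := ℝ) i).continuous.comp_continuousOn hwc)
      simpa only [innerSL_apply_apply, inner_single_one] using this
    have h2 := (((hfw.wd i).mono sdiff_subset).sub h1).comp hW (hh.mono hWb) hG hθ
    refine h2.congr hW.measurableSet hHW fun y hy => ?_
    simp [hΓ, hTW y hy]
  have hΓint : Integrable Γ := integrable_of_vanish' (W := W)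
    (((hfw.2.1.mono_set sdiff_subset).sub (hwc.locallyIntegrableOn hW.measurableSet)).continuousOn_smul
      hW.isLocallyClosed hTc.continuousOn) hK hKW hΓK
  have hΓK' : ∀ i : Fin 2, ∀ y ∉ K, Γ y i = 0 := fun i y hy => by simp [hΓK y hy]
  have hneg : HasWeakGradientOn (fun y => -H y) (fun y => -Γ y) Ω :=
    HasWeakGradientOn.of_wd (hΓint.neg.locallyIntegrable.locallyIntegrableOn _) fun i => by
      have := (((hWD i).globalize hW hK hKW hHK (hΓK' i)).mono (subset_univ Ω)).neg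
      simpa using this
  have hTw : Continuous fun y => T y • w y := continuous_of_vanish
    (hTc.continuousOn.smul hwc) hW hKcl hKW fun y hy => by simp [hTK y hy]
  have hΓp : MemLp (fun y => -Γ y) (ENNReal.ofReal p) (volume.restrict Ω) := by
    obtain ⟨C, hC⟩ := hTw.bounded_above_of_compact_support
      (HasCompactSupport.intro hK fun y hy => by simp [hTK y hy])
    have h1 : MemLp (fun y => T y • w y) (ENNReal.ofReal p) (volume.restrict Ω) :=
      MemLp.of_bound hTw.aestronglyMeasurable C (Eventually.of_forall hC)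
    have h2 : MemLp (fun y => T y • g y) (ENNReal.ofReal p) (volume.restrict Ω) :=
      hg.2.1.of_le (hTc.aestronglyMeasurable.smul hg.2.1.1) (Eventually.of_forall fun y => by
        rw [norm_smul, Real.norm_of_nonneg (hT0 y)]
        exact mul_le_of_le_one_left (norm_nonneg _) (hT1 y))
    have h3 : (fun y => -Γ y) = fun y => T y • w y - T y • g y := by
      funext y; simp [hΓ, smul_sub]
    rw [h3]
    exact h1.sub h2
  have hcomp := hg.shift (H := fun y => -H y) hHc.neg.continuousOn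
    (fun y hy => by
      have : y ∉ K := fun h => by
        rw [hΩ.frontier_eq] at hy
        exact hy.2 (hKΩ h)
      simp [hHK y this]) hneg hΓp
  have hE := hmin _ _ hcomp
  -- the flux of the barrier
  obtain ⟨γ, hγ⟩ : ∃ γ, γ = (β - 1) * (p - 1) - 1 := ⟨_, rfl⟩
  have hγ2 : γ + 2 < 0 := by rw [hγ]; linarith
  obtain ⟨κ, hκ⟩ : ∃ κ, κ = (b * β) ^ (p - 1) := ⟨_, rfl⟩
  have hκ0 : 0 < κ := by rw [hκ]; positivity
  set V : Fin 2 → Pl → ℝ := fun i z => ‖z - x₀‖ ^ γ * (z - x₀) i with hV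
  have hVs : ∀ i, ContDiffOn ℝ ∞ (V i) W := fun i =>
    (hpow γ).mul ((EuclideanSpace.proj (𝕜 := ℝ) i).contDiff.comp
      (contDiff_id.sub contDiff_const)).contDiffOn
  have hloc : ∀ i, ∫ x, H x * fderiv ℝ (V i) x (EuclideanSpace.single i 1)
      = -∫ x, Γ x i * V i x := fun i => (hWD i).localize hW hK hKW hHK (hΓK' i) (hVs i)
  have hint1 : ∀ i, Integrable fun x => Γ x i * V i x := fun i =>
    integrable_of_vanish (W := W) ((hWD i).2.1.mul_continuousOn (hVs i).continuousOn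
      hW.isLocallyClosed) hK hKW fun y hy => by simp [hΓK y hy]
  have hint2 : ∀ i, Integrable fun x => H x * fderiv ℝ (V i) x (EuclideanSpace.single i 1) :=
    fun i => integrable_of_vanish (W := W) ((hWD i).1.mul_continuousOn
      (((hVs i).continuousOn_fderiv_of_isOpen hW (by simp)).clm_apply continuousOn_const)
      hW.isLocallyClosed) hK hKW fun y hy => by simp [hHK y hy]
  have hy₀K : y₀ ∈ K := ⟨hy₀, by
    have : η ≤ f y₀ - c y₀ := by linarith
    exact this⟩
  have hposN : 0 < ∫ y, H y * (-(γ + 2) * ‖y - x₀‖ ^ γ) := by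
    refine Continuous.integral_pos_of_hasCompactSupport_nonneg_nonzero (x := y₀)
      (continuous_of_vanish (hHc.continuousOn.mul (continuousOn_const.mul (hpow γ).continuousOn))
        hW hKcl hKW fun y hy => by simp [hHK y hy])
      (HasCompactSupport.intro hK fun y hy => by simp [hHK y hy])
      (fun y => mul_nonneg (hH0 y) (mul_nonneg (by linarith) (by positivity))) ?_
    have h1 : 0 < H y₀ := by
      rw [hHW y₀ (hKW hy₀K)]
      exact hGpos _ (by linarith)
    have h2 : 0 < ‖y₀ - x₀‖ := norm_pos_iff.2 (sub_ne_zero.2 (hWne _ (hKW hy₀K)))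
    exact (mul_pos h1 (mul_pos (by linarith) (Real.rpow_pos_of_pos h2 _))).ne'
  have hflux : ∫ y, ∑ i, Γ y i * V i y = ∫ y, H y * (-(γ + 2) * ‖y - x₀‖ ^ γ) := by
    rw [integral_finsetSum _ fun i _ => hint1 i]
    have h1 : ∀ i, ∫ x, Γ x i * V i x
        = ∫ x, -(H x * fderiv ℝ (V i) x (EuclideanSpace.single i 1)) := fun i => by
      rw [integral_neg, hloc i, neg_neg]
    simp only [h1]
    rw [← integral_finsetSum
      (f := fun i x => -(H x * fderiv ℝ (V i) x (EuclideanSpace.single i 1))) _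
      fun i _ => (hint2 i).neg]
    congr 1
    funext y
    by_cases hy : y ∈ K
    · have := barrier_div (hWne y (hKW hy)) γ
      rw [Finset.sum_neg_distrib, ← Finset.mul_sum, this]
      ring
    · simp [hHK y hy]
  have hS : Integrable fun y => ∑ i, Γ y i * V i y := integrable_finsetSum _ fun i _ => hint1 i
  have hpt : ∀ y, ‖g y + -Γ y‖ ^ p ≤ ‖g y‖ ^ p - p * κ * ∑ i, Γ y i * V i y := by
    intro y
    by_cases hy : y ∈ K
    · have hne := hWne y (hKW hy)
      have hpos : 0 < ‖y - x₀‖ := norm_pos_iff.2 (sub_ne_zero.2 hne)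
      have hw0 : w y ≠ 0 := smul_ne_zero (by positivity) (sub_ne_zero.2 hne)
      have h1 := energy_pointwise (g y) (w y) (p := p) (by linarith) hw0 (hT0 y) (hT1 y)
      have h2 : ‖w y‖ ^ (p - 2) • w y = (κ * ‖y - x₀‖ ^ γ) • (y - x₀) := by
        rw [hκ, hγ]; exact barrier_field hne (by positivity)
      rw [h2] at h1
      refine h1.trans (le_of_eq ?_)
      have h3 : T y • (g y - w y) = Γ y := rfl
      rw [h3, inner_smul_left, PiLp.inner_apply]
      simp only [hV, conj_trivial, Fin.sum_univ_two, RCLike.inner_apply]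
      ring
    · simp [hΓK y hy]
  have hI1 := integrableOn_norm_rpow (by linarith : 0 < p) hg.2.1
  have hI2 := integrableOn_norm_rpow (by linarith : 0 < p) hcomp.2.1
  have hE2 : ∫ y in Ω, ‖g y + -Γ y‖ ^ p
      ≤ ∫ y in Ω, (‖g y‖ ^ p - p * κ * ∑ i, Γ y i * V i y) :=
    integral_mono hI2 (hI1.sub (hS.const_mul _).integrableOn) hpt
  rw [integral_sub hI1 (hS.const_mul _).integrableOn, integral_const_mul,
    setIntegral_eq_integral_of_forall_compl_eq_zero (s := Ω)
      (f := fun y => ∑ i, Γ y i * V i y) (fun y hy => by simp [hΓK y fun h => hy (hKΩ h)]),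
    hflux] at hE2
  have : 0 < p * κ * ∫ y, H y * (-(γ + 2) * ‖y - x₀‖ ^ γ) :=
    mul_pos (mul_pos (by linarith) hκ0) hposN
  linarith

end Pool.Agent.Lib.MP_2231f7_an
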