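import Mathlib

set_option autoImplicit false
set_option linter.unusedSectionVars false

/-!
A finite difference comparison argument for local increments.

`A x y` plays the role of the increment `u y - u x` of a multivalued function that enjoys
comparison with cones from above, and `B x y` the role of `v x - v y` for a multivalued function
that enjoys comparison with cones from below. The single valued function `w` is `u - v`.
-/

namespace Pool.Agent.Lib.MP_2231f7_an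

open Metric Set

variable {E : Type*} [NormedAddCommGroup E] [InnerProductSpace ℝ E]

/-- Local additive increments at scale `ρ` on the closure of `Ω` with the cone property. -/
structure ConeIncrement (Ω : Set E) (ρ : ℝ) (A : E → E → ℝ) : Prop where
  cont : ContinuousOn (fun q : E × E => A q.1 q.2)
    {q | q.1 ∈ closure Ω ∧ q.2 ∈ closure Ω ∧ dist q.2 q.1 ≤ ρ}
  add : ∀ x ∈ closure Ω, ∀ y ∈ closure Ω, ∀ z ∈ closure Ω, dist y x ≤ ρ → dist z y ≤ ρ →
    dist z x ≤ ρ → A x z = A x y + A y z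
  small : ∀ η > 0, ∃ δ > 0, ∀ x ∈ closure Ω, ∀ y ∈ closure Ω, dist y x ≤ δ → |A x y| < η
  cone : ∀ x R M, 0 < R → R ≤ ρ → closedBall x R ⊆ Ω → (∀ y ∈ closedBall x R, A x y ≤ M) →
    ∀ y ∈ closedBall x R, A x y ≤ M * dist y x / R

lemma ConeIncrement.self {Ω : Set E} {ρ : ℝ} {A : E → E → ℝ} (h : ConeIncrement Ω ρ A)
    (hρ : 0 ≤ ρ) {x : E} (hx : x ∈ closure Ω) : A x x = 0 := by
  have := h.add x hx x hx x hx (by simpa) (by simpa) (by simpa)
  linarith

lemma ConeIncrement.exists_max [ProperSpace E] {Ω : Set E} {ρ : ℝ} {A : E → E → ℝ}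
    (h : ConeIncrement Ω ρ A) {x : E} {R : ℝ} (hR : 0 ≤ R) (hRρ : R ≤ ρ)
    (hb : closedBall x R ⊆ closure Ω) :
    ∃ Y ∈ closedBall x R, ∀ y ∈ closedBall x R, A x y ≤ A x Y := by
  have hc : ContinuousOn (fun y => A x y) (closedBall x R) := by
    have h1 : ContinuousOn (fun y : E => ((x, y) : E × E)) (closedBall x R) := by fun_prop
    refine h.cont.comp h1 fun y hy => ⟨hb (mem_closedBall_self hR), hb hy, ?_⟩
    exact (mem_closedBall.1 hy).trans hRρ
  obtain ⟨Y, hY, hmax⟩ := (isCompact_closedBall x R).exists_isMaxOn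
    ⟨x, mem_closedBall_self hR⟩ hc
  exact ⟨Y, hY, fun y hy => hmax hy⟩

lemma closedBall_subset_or_exists_frontier {Ω : Set E} (hΩ : IsOpen Ω) {x : E} {r : ℝ}
    (hr : 0 ≤ r) (hx : x ∈ closure Ω) :
    closedBall x r ⊆ Ω ∨ ∃ q ∈ closedBall x r, q ∈ frontier Ω := by
  by_cases h : ∃ q ∈ closedBall x r, q ∈ frontier Ω
  · exact Or.inr h
  · left
    push Not at h
    have hsub : closedBall x r ⊆ Ω ∪ (closure Ω)ᶜ := by
      intro q hq
      by_cases hqc : q ∈ closure Ω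
      · left
        have := h q hq
        rw [hΩ.frontier_eq] at this
        by_contra hq'
        exact this ⟨hqc, hq'⟩
      · exact Or.inr hqc
    have hxΩ : x ∈ Ω := by
      rcases hsub (mem_closedBall_self hr) with h1 | h1
      · exact h1
      · exact absurd hx h1
    exact (convex_closedBall x r).isPreconnected.subset_left_of_subset_union hΩ
      isClosed_closure.isOpen_compl
      (Set.disjoint_left.2 fun q hq hq' => hq' (subset_closure hq)) hsub
      ⟨x, mem_closedBall_self hr, hxΩ⟩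

/-- The set of admissible triples at scale `ε`. -/
def Triples (Ω : Set E) (ε : ℝ) : Set (E × E × E) :=
  {t | closedBall t.1 ε ⊆ closure Ω ∧ t.2.1 ∈ closedBall t.1 ε ∧ t.2.2 ∈ closedBall t.1 ε}

lemma isCompact_triples [ProperSpace E] {Ω : Set E} (hb : Bornology.IsBounded Ω) {ε : ℝ}
    (hε : 0 ≤ ε) : IsCompact (Triples Ω ε) := by
  have hK : IsCompact (closure Ω) := hb.isCompact_closure
  refine (hK.prod (hK.prod hK)).of_isClosed_subset ?_ ?_
  · have h1 : IsClosed {x : E | closedBall x ε ⊆ closure Ω} := by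
      have : {x : E | closedBall x ε ⊆ closure Ω}
          = ⋂ ξ ∈ closedBall (0 : E) ε, (fun x => x + ξ) ⁻¹' closure Ω := by
        ext x
        simp only [mem_ofPred_eq, mem_iInter, mem_preimage]
        constructor
        · intro h ξ hξ
          apply h
          simpa [mem_closedBall, dist_eq_norm] using hξ
        · intro h y hy
          have := h (y - x) (by simpa [mem_closedBall, dist_eq_norm] using hy)
          simpa using this
      rw [this]
      exact isClosed_biInter fun ξ _ => isClosed_closure.preimage (by fun_prop)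
    refine (h1.preimage continuous_fst).inter (IsClosed.inter ?_ ?_)
    · exact isClosed_le (f := fun t : E × E × E => dist t.2.1 t.1) (by fun_prop) continuous_const
    · exact isClosed_le (f := fun t : E × E × E => dist t.2.2 t.1) (by fun_prop) continuous_const
  · rintro t ⟨h1, h2, h3⟩
    exact ⟨h1 (mem_closedBall_self hε), h1 h2, h1 h3⟩

section Key

variable [ProperSpace E] {Ω : Set E} {ρ ε m : ℝ} {A B : E → E → ℝ} {w : E → ℝ}

/-- One half of the key step at a maximizing triple. -/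
lemma half_step (hA : ConeIncrement Ω ρ A) (hB : ConeIncrement Ω ρ B)
    (hw : ∀ x ∈ closure Ω, ∀ y ∈ closure Ω, dist y x ≤ ρ → w y - w x = A x y + B x y)
    (hε : 0 < ε) (hερ : 2 * ε ≤ ρ) {x : E} (hx : closedBall x (2 * ε) ⊆ Ω) :
    ∃ a : ℝ, ∃ x' Y : E, x' ∈ closedBall x ε ∧ Y ∈ closedBall x' ε ∧
      closedBall x' ε ⊆ closure Ω ∧
      (∀ y ∈ closedBall x (2 * ε), A x y ≤ a * dist y x / (2 * ε)) ∧ 0 ≤ a ∧
      A x x' + A x' Y = a ∧ w x' + A x' Y + B x' x = w x + a := by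
  have hρ : 0 ≤ ρ := by linarith
  have hxc : closedBall x (2 * ε) ⊆ closure Ω := hx.trans subset_closure
  obtain ⟨Y, hY, hmax⟩ := hA.exists_max (x := x) (R := 2 * ε) (by linarith) hερ hxc
  have hxx : x ∈ closedBall x (2 * ε) := mem_closedBall_self (by linarith)
  have hY' : dist Y x ≤ 2 * ε := mem_closedBall.1 hY
  have h1 : dist (midpoint ℝ x Y) x ≤ ε := by
    rw [dist_midpoint_left, dist_comm]; norm_num; linarith
  have h2 : dist Y (midpoint ℝ x Y) ≤ ε := by
    rw [dist_right_midpoint, dist_comm]; norm_num; linarith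
  have hsub : closedBall (midpoint ℝ x Y) ε ⊆ closedBall x (2 * ε) :=
    closedBall_subset_closedBall' (by linarith)
  have hm : midpoint ℝ x Y ∈ closure Ω := hxc (hsub (mem_closedBall_self hε.le))
  have hadd := hA.add x (hxc hxx) _ hm Y (hxc hY) (by linarith) (by linarith) (by linarith)
  refine ⟨A x Y, midpoint ℝ x Y, Y, h1, h2, hsub.trans hxc,
    hA.cone x (2 * ε) _ (by linarith) hερ hx hmax, ?_, hadd.symm, ?_⟩
  · have := hmax x hxx
    rwa [hA.self hρ (hxc hxx)] at this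
  · have h3 := hw x (hxc hxx) _ hm (by linarith)
    have h4 := hB.add x (hxc hxx) _ hm x (hxc hxx) (by linarith)
      (by rw [dist_comm]; linarith) (by simpa)
    rw [hB.self hρ (hxc hxx)] at h4
    linarith

/-- The key step at a maximizing triple. -/
lemma key_step (hA : ConeIncrement Ω ρ A) (hB : ConeIncrement Ω ρ B)
    (hw : ∀ x ∈ closure Ω, ∀ y ∈ closure Ω, dist y x ≤ ρ → w y - w x = A x y + B x y)
    (hε : 0 < ε) (hερ : 2 * ε ≤ ρ)
    (hm : ∀ t ∈ Triples Ω ε, w t.1 + A t.1 t.2.1 + B t.1 t.2.2 ≤ m)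
    {x y z : E} (ht : (x, y, z) ∈ Triples Ω ε) (hxm : w x + A x y + B x z = m)
    (hx : closedBall x (2 * ε) ⊆ Ω) :
    A x y = B x z ∧ 0 ≤ A x y ∧
      (∀ y' ∈ closedBall x (2 * ε), A x y' ≤ A x y * dist y' x / ε) ∧
      (∃ x' Y : E, x' ∈ closedBall x ε ∧ (x', Y, x) ∈ Triples Ω ε ∧
        w x' + A x' Y + B x' x = m ∧ A x x' + A x' Y = 2 * A x y ∧ A x y ≤ A x' Y) ∧
      (∃ x' Z : E, x' ∈ closedBall x ε ∧ (x', x, Z) ∈ Triples Ω ε ∧
        w x' + A x' x + B x' Z = m ∧ A x y ≤ B x' Z) := by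
  obtain ⟨a, x₁, Y, hx₁, hY, hx₁c, hca, ha0, ha1, ha2⟩ := half_step hA hB hw hε hερ hx
  obtain ⟨b, x₂, Z, hx₂, hZ, hx₂c, hcb, hb0, hb1, hb2⟩ := half_step hB hA
    (fun x hx y hy h => by rw [hw x hx y hy h, add_comm]) hε hερ hx
  have hsub : closedBall x ε ⊆ closedBall x (2 * ε) := closedBall_subset_closedBall (by linarith)
  have half : ∀ c d : ℝ, 0 ≤ c → d ≤ ε → c * d / (2 * ε) ≤ c / 2 := by
    intro c d hc hd
    rw [div_le_div_iff₀ (by linarith) (by norm_num)]
    nlinarith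
  have ht1 : (x₁, Y, x) ∈ Triples Ω ε := ⟨hx₁c, hY, mem_closedBall_comm.1 hx₁⟩
  have ht2 : (x₂, x, Z) ∈ Triples Ω ε := ⟨hx₂c, mem_closedBall_comm.1 hx₂, hZ⟩
  have h1 := hm _ ht1
  have h2 := hm _ ht2
  simp only at h1 h2
  have hs : A x y ≤ a / 2 := (hca y (hsub ht.2.1)).trans (half a _ ha0 ht.2.1)
  have htt : B x z ≤ b / 2 := (hcb z (hsub ht.2.2)).trans (half b _ hb0 ht.2.2)
  have hs1 : A x x₁ ≤ a / 2 := (hca x₁ (hsub hx₁)).trans (half a _ ha0 hx₁)
  have ht1' : B x x₂ ≤ b / 2 := (hcb x₂ (hsub hx₂)).trans (half b _ hb0 hx₂)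
  have hst : A x y = B x z := by linarith
  have ha : a = 2 * A x y := by linarith
  have hb : b = 2 * A x y := by linarith
  refine ⟨hst, by linarith, fun y' hy' => ?_, ⟨x₁, Y, hx₁, ht1, by linarith, by linarith,
    by linarith⟩, ⟨x₂, Z, hx₂, ht2, by linarith, by linarith⟩⟩
  have := hca y' hy'
  rw [ha] at this
  convert this using 1
  field_simp

lemma norm_sq_contra {x a b : E} {ε : ℝ} (hε : 0 < ε) (ha : ‖a - x‖ ≤ ε) (hb : ‖b - x‖ ≤ ε)
    (hab : 2 * ε ≤ ‖a - b‖) (h1 : ‖a‖ ≤ ‖x‖) (h2 : ‖b‖ ≤ ‖x‖) : False := by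
  have p1 := parallelogram_law_with_norm ℝ (a - x) (b - x)
  have p2 := parallelogram_law_with_norm ℝ a b
  have e1 : a - x - (b - x) = a - b := by abel
  rw [e1] at p1
  have n1 := norm_nonneg (a - x)
  have n2 := norm_nonneg (b - x)
  have h0 : ‖a - x + (b - x)‖ ^ 2 ≤ 0 := by nlinarith
  have h0' : a - x + (b - x) = 0 := by
    rw [← norm_eq_zero]
    nlinarith [norm_nonneg (a - x + (b - x))]
  have e2 : a + b = (2 : ℝ) • x := by
    rw [two_smul]
    have : a + b = a - x + (b - x) + (x + x) := by abel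
    rw [this, h0', zero_add]
  rw [e2, norm_smul] at p2
  simp only [Real.norm_ofNat] at p2
  have n3 := norm_nonneg a
  have n4 := norm_nonneg b
  have n5 := norm_nonneg x
  nlinarith

/-- The comparison principle for local increments. -/
theorem nonpos_of_coneIncrement [Nontrivial E] (hΩ : IsOpen Ω) (hbd : Bornology.IsBounded Ω)
    (hρ : 0 < ρ) (hA : ConeIncrement Ω ρ A) (hB : ConeIncrement Ω ρ B)
    (hw : ∀ x ∈ closure Ω, ∀ y ∈ closure Ω, dist y x ≤ ρ → w y - w x = A x y + B x y)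
    (hwc : ContinuousOn w (closure Ω)) (hw0 : ∀ x ∈ frontier Ω, w x = 0) :
    ∀ x ∈ closure Ω, w x ≤ 0 := by
  intro x₀ hx₀
  by_contra hpos
  rw [not_le] at hpos
  have hx₀Ω : x₀ ∈ Ω := by
    by_contra h
    have := hw0 x₀ (by rw [hΩ.frontier_eq]; exact ⟨hx₀, h⟩)
    linarith
  obtain ⟨δ₁, hδ₁, hA1⟩ := hA.small (w x₀ / 4) (by linarith)
  obtain ⟨δ₂, hδ₂, hB1⟩ := hB.small (w x₀ / 4) (by linarith)
  obtain ⟨δ₃, hδ₃, hball⟩ := Metric.isOpen_iff.1 hΩ x₀ hx₀Ω
  obtain ⟨ε, hε, hε1, hε2, hε3, hερ⟩ : ∃ ε > 0, 2 * ε ≤ δ₁ ∧ 2 * ε ≤ δ₂ ∧ 2 * ε ≤ δ₃ ∧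
      2 * ε ≤ ρ := by
    refine ⟨min (min δ₁ δ₂) (min δ₃ ρ) / 2, by positivity, ?_, ?_, ?_, ?_⟩
    · linarith [min_le_left (min δ₁ δ₂) (min δ₃ ρ), min_le_left δ₁ δ₂]
    · linarith [min_le_left (min δ₁ δ₂) (min δ₃ ρ), min_le_right δ₁ δ₂]
    · linarith [min_le_right (min δ₁ δ₂) (min δ₃ ρ), min_le_left δ₃ ρ]
    · linarith [min_le_right (min δ₁ δ₂) (min δ₃ ρ), min_le_right δ₃ ρ]
  have hT := isCompact_triples hbd hε.le
  have hmem : ∀ t ∈ Triples Ω ε, t.1 ∈ closure Ω := fun t ht => ht.1 (mem_closedBall_self hε.le)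
  have hcA : ContinuousOn (fun t : E × E × E => A t.1 t.2.1) (Triples Ω ε) := by
    have h1 : ContinuousOn (fun t : E × E × E => ((t.1, t.2.1) : E × E)) (Triples Ω ε) := by
      fun_prop
    exact hA.cont.comp h1 fun t ht =>
      ⟨hmem t ht, ht.1 ht.2.1, (mem_closedBall.1 ht.2.1).trans (by linarith)⟩
  have hcB : ContinuousOn (fun t : E × E × E => B t.1 t.2.2) (Triples Ω ε) := by
    have h1 : ContinuousOn (fun t : E × E × E => ((t.1, t.2.2) : E × E)) (Triples Ω ε) := by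
      fun_prop
    exact hB.cont.comp h1 fun t ht =>
      ⟨hmem t ht, ht.1 ht.2.2, (mem_closedBall.1 ht.2.2).trans (by linarith)⟩
  have hcΦ : ContinuousOn (fun t : E × E × E => w t.1 + A t.1 t.2.1 + B t.1 t.2.2)
      (Triples Ω ε) :=
    ((hwc.comp continuousOn_fst hmem).add hcA).add hcB
  have ht₀ : (x₀, x₀, x₀) ∈ Triples Ω ε :=
    ⟨((closedBall_subset_ball (by linarith)).trans hball).trans subset_closure,
      mem_closedBall_self hε.le, mem_closedBall_self hε.le⟩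
  obtain ⟨t₁, ht₁, hmax₁⟩ := hT.exists_isMaxOn ⟨_, ht₀⟩ hcΦ
  obtain ⟨m, hmdef⟩ : ∃ m, m = w t₁.1 + A t₁.1 t₁.2.1 + B t₁.1 t₁.2.2 := ⟨_, rfl⟩
  have hm : ∀ t ∈ Triples Ω ε, w t.1 + A t.1 t.2.1 + B t.1 t.2.2 ≤ m := fun t ht => by
    rw [hmdef]; exact hmax₁ ht
  have hm0 : w x₀ ≤ m := by
    have := hm _ ht₀
    simpa [hA.self hρ.le hx₀, hB.self hρ.le hx₀] using this
  -- maximizing triples stay away from the boundary
  have hint : ∀ t ∈ Triples Ω ε, w t.1 + A t.1 t.2.1 + B t.1 t.2.2 = m →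
      closedBall t.1 (2 * ε) ⊆ Ω := by
    intro t ht htm
    rcases closedBall_subset_or_exists_frontier hΩ (r := 2 * ε) (by linarith) (hmem t ht) with
      h | ⟨q, hq, hqf⟩
    · exact h
    · exfalso
      have hqc : q ∈ closure Ω := frontier_subset_closure hqf
      have hq' : dist q t.1 ≤ 2 * ε := hq
      have e1 := hw t.1 (hmem t ht) q hqc (by linarith)
      rw [hw0 q hqf] at e1
      have e2 := abs_lt.1 (hA1 t.1 (hmem t ht) q hqc (by linarith))
      have e3 := abs_lt.1 (hB1 t.1 (hmem t ht) q hqc (by linarith))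
      have e4 := abs_lt.1 (hA1 t.1 (hmem t ht) t.2.1 (ht.1 ht.2.1)
        ((mem_closedBall.1 ht.2.1).trans (by linarith)))
      have e5 := abs_lt.1 (hB1 t.1 (hmem t ht) t.2.2 (ht.1 ht.2.2)
        ((mem_closedBall.1 ht.2.2).trans (by linarith)))
      linarith [e2.1, e3.1, e4.2, e5.2]
  -- first refinement
  have hT₁ : IsCompact (Triples Ω ε ∩
      (fun t : E × E × E => w t.1 + A t.1 t.2.1 + B t.1 t.2.2) ⁻¹' {m}) :=
    hT.of_isClosed_subset (hcΦ.preimage_isClosed_of_isClosed hT.isClosed isClosed_singleton)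
      inter_subset_left
  obtain ⟨t₂, ht₂, hmax₂⟩ := hT₁.exists_isMaxOn ⟨t₁, ht₁, hmdef.symm⟩
    (hcA.mono inter_subset_left)
  obtain ⟨s, hsdef⟩ : ∃ s, s = A t₂.1 t₂.2.1 := ⟨_, rfl⟩
  have hs : ∀ t ∈ Triples Ω ε, w t.1 + A t.1 t.2.1 + B t.1 t.2.2 = m → A t.1 t.2.1 ≤ s :=
    fun t ht htm => by rw [hsdef]; exact hmax₂ ⟨ht, htm⟩
  -- second refinement
  have hT₂ : IsCompact ((Triples Ω ε ∩
      (fun t : E × E × E => w t.1 + A t.1 t.2.1 + B t.1 t.2.2) ⁻¹' {m}) ∩
      (fun t : E × E × E => A t.1 t.2.1) ⁻¹' {s}) :=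
    hT₁.of_isClosed_subset ((hcA.mono inter_subset_left).preimage_isClosed_of_isClosed
      hT₁.isClosed isClosed_singleton) inter_subset_left
  obtain ⟨⟨x, y, z⟩, ⟨⟨ht, htm⟩, hts⟩, hmax₃⟩ := hT₂.exists_isMaxOn ⟨t₂, ht₂, hsdef.symm⟩
    (f := fun t : E × E × E => ‖t.1‖) (by fun_prop)
  have hn : ∀ t ∈ Triples Ω ε, w t.1 + A t.1 t.2.1 + B t.1 t.2.2 = m → A t.1 t.2.1 = s →
      ‖t.1‖ ≤ ‖x‖ := fun t ht htm hts => hmax₃ ⟨⟨ht, htm⟩, hts⟩
  have htm' : w x + A x y + B x z = m := htm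
  have hts' : A x y = s := hts
  have hx : closedBall x (2 * ε) ⊆ Ω := hint _ ht htm
  have hxc : x ∈ closure Ω := hmem _ ht
  obtain ⟨hAB, hA0, -, ⟨x₁, Y, hx₁, ht1, hm1, hs1, hs1'⟩, ⟨x₂, Z, hx₂, ht2, hm2, hs2⟩⟩ :=
    key_step hA hB hw hε hερ hm ht htm' hx
  rcases eq_or_lt_of_le (hts' ▸ hA0 : 0 ≤ s) with hs0 | hs0
  · -- flat case
    obtain ⟨e, he⟩ := exists_norm_eq E hε.le
    have hflat : ∀ x' ∈ closedBall x ε, ‖x'‖ ≤ ‖x‖ := by
      intro x' hx'
      have hsub : closedBall x' ε ⊆ closedBall x (2 * ε) :=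
        closedBall_subset_closedBall' (by linarith [mem_closedBall.1 hx'])
      have ht' : (x', x, x) ∈ Triples Ω ε :=
        ⟨(hsub.trans hx).trans subset_closure, mem_closedBall_comm.1 hx',
          mem_closedBall_comm.1 hx'⟩
      have hd : dist x x' ≤ ρ := by
        rw [dist_comm]; linarith [mem_closedBall.1 hx']
      have e1 := hw x' (hmem _ ht') x hxc hd
      have hm' : w x' + A x' x + B x' x = m := by linarith
      have e2 := hs _ ht' hm'
      have e3 := (key_step hA hB hw hε hερ hm ht' hm' (hint _ ht' hm')).2.1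
      exact hn _ ht' hm' (by simp only at e2 ⊢; linarith)
    refine norm_sq_contra (x := x) (a := x + e) (b := x - e) hε (by simp [he]) (by simp [he]) ?_
      (hflat _ (by simp [he])) (hflat _ (by simp [he]))
    have : x + e - (x - e) = (2 : ℝ) • e := by rw [two_smul]; abel
    rw [this, norm_smul, he]; simp
  · -- sloped case
    have e1 : A x₁ Y = s := le_antisymm (hs _ ht1 hm1) (hts' ▸ hs1')
    obtain ⟨hAB2, -, hcone2, -, -⟩ := key_step hA hB hw hε hερ hm ht2 hm2 (hint _ ht2 hm2)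
    have e2 : A x₂ x = s := le_antisymm (hs _ ht2 hm2) (by linarith)
    have d1 : dist x₁ x ≤ ε := hx₁
    have d2 : dist x x₂ ≤ ε := mem_closedBall_comm.1 hx₂
    have d3 : dist x₁ x₂ ≤ 2 * ε := by linarith [dist_triangle x₁ x x₂]
    have e3 := hA.add x₂ (hmem _ ht2) x hxc x₁ (hmem _ ht1) (by linarith) (by linarith)
      (by linarith)
    have e4 := hcone2 x₁ d3
    rw [e2, le_div_iff₀ hε] at e4
    have e5 : A x₂ x₁ = 2 * s := by linarith
    rw [e5] at e4
    have d4 : 2 * ε ≤ dist x₁ x₂ := by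
      by_contra hlt
      rw [not_le] at hlt
      nlinarith
    refine norm_sq_contra (x := x) (a := x₁) (b := x₂) hε (by rwa [← dist_eq_norm])
      (by rw [← dist_eq_norm]; exact hx₂) (by rwa [← dist_eq_norm]) (hn _ ht1 hm1 e1)
      (hn _ ht2 hm2 e2)

end Key

end Pool.Agent.Lib.MP_2231f7_an
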