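import Mathlib

set_option autoImplicit false

namespace Pool.Agent.Lib.MP_2231f7_an

open MeasureTheory Filter
open scoped ContDiff

/-- `g` is the weak (distributional) gradient of the real function `f` on the set `U` of the plane:
both are locally integrable on `U`, and integration by parts holds against every smooth
test function with compact support inside `U`. -/
def HasWeakGradientOn (f : EuclideanSpace ℝ (Fin 2) → ℝ)
    (g : EuclideanSpace ℝ (Fin 2) → EuclideanSpace ℝ (Fin 2))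
    (U : Set (EuclideanSpace ℝ (Fin 2))) : Prop :=
  LocallyIntegrableOn f U ∧ LocallyIntegrableOn g U ∧
    ∀ φ : EuclideanSpace ℝ (Fin 2) → ℝ, ContDiff ℝ ∞ φ → HasCompactSupport φ → tsupport φ ⊆ U →
      ∀ i : Fin 2,
        ∫ x, f x * fderiv ℝ φ x (EuclideanSpace.single i 1) = -∫ x, g x i * φ x

/-- `g` is the weak differential `du` of the circle-valued map `u` on `Ω`, computed through local
lifts: on every open `U ⊆ Ω`, every continuous real lift `f` of `u` has weak gradient `g`. -/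
def IsWeakDifferential (Ω : Set (EuclideanSpace ℝ (Fin 2)))
    (u : C(closure Ω, AddCircle (1 : ℝ)))
    (g : EuclideanSpace ℝ (Fin 2) → EuclideanSpace ℝ (Fin 2)) : Prop :=
  ∀ U : Set (EuclideanSpace ℝ (Fin 2)), IsOpen U → U ⊆ Ω →
    ∀ f : EuclideanSpace ℝ (Fin 2) → ℝ, ContinuousOn f U →
      (∀ x : closure Ω, x.1 ∈ U → ((f x.1 : ℝ) : AddCircle (1 : ℝ)) = u x) →
        HasWeakGradientOn f g U

/-- `u` belongs to the class `C_p(u₀)`, with weak differential `g`: `u` is a continuous map on the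
closure of `Ω`, lies in `W^{1,p}(Ω; S¹)` with `du = g`, and is homotopic to `u₀` relative to the
boundary of `Ω` (in particular `u = u₀` on the boundary). -/
def IsCompetitor (Ω : Set (EuclideanSpace ℝ (Fin 2))) (p : ℝ)
    (u₀ u : C(closure Ω, AddCircle (1 : ℝ)))
    (g : EuclideanSpace ℝ (Fin 2) → EuclideanSpace ℝ (Fin 2)) : Prop :=
  IsWeakDifferential Ω u g ∧ MemLp g (ENNReal.ofReal p) (volume.restrict Ω) ∧
    u.HomotopicRel u₀ {x : closure Ω | x.1 ∈ frontier Ω}

/-- `u` minimizes the energy `E_p(u) = ∫_Ω |du|^p` over the class `C_p(u₀)`. -/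
def IsMinimizer (Ω : Set (EuclideanSpace ℝ (Fin 2))) (p : ℝ)
    (u₀ u : C(closure Ω, AddCircle (1 : ℝ))) : Prop :=
  ∃ g, IsCompetitor Ω p u₀ u g ∧
    ∀ v h, IsCompetitor Ω p u₀ v h → ∫ x in Ω, ‖g x‖ ^ p ≤ ∫ x in Ω, ‖h x‖ ^ p

/-- `u` is infinity-harmonic with data `u₀`: it is the uniform limit of minimizers `u_{p_j}` of
`E_{p_j}` over `C_{p_j}(u₀)` for some sequence `p_j > 2` tending to infinity. -/
def IsInfinityHarmonic (Ω : Set (EuclideanSpace ℝ (Fin 2)))
    (u₀ : C(closure Ω, AddCircle (1 : ℝ))) (u : closure Ω → AddCircle (1 : ℝ)) : Prop :=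
  ∃ (p : ℕ → ℝ) (w : ℕ → C(closure Ω, AddCircle (1 : ℝ))),
    (∀ j, 2 < p j) ∧ Tendsto p atTop atTop ∧ (∀ j, IsMinimizer Ω (p j) u₀ (w j)) ∧
      TendstoUniformly (fun j x => w j x) u atTop

end Pool.Agent.Lib.MP_2231f7_an
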