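import Pool.Agent.Lib.MP_2231f7_an.LipData

set_option autoImplicit false

/-! Existence of minimizers of the `p`-energy and of infinity-harmonic maps. -/

namespace Pool.Agent.Lib.MP_2231f7_an

open MeasureTheory Filter Set Metric Topology
open scoped ContDiff NNReal

lemma Lp_norm_rpow {μ : Measure Pl} {p : ℝ} (hp : 0 < p) (F : Lp Pl (ENNReal.ofReal p) μ) :
    ‖F‖ ^ p = ∫ x, ‖F x‖ ^ p ∂μ := by
  rw [Lp.norm_def, (Lp.memLp F).eLpNorm_eq_integral_rpow_norm (by simpa using hp)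
    ENNReal.ofReal_ne_top, ENNReal.toReal_ofReal (by positivity), ENNReal.toReal_ofReal hp.le,
    Real.rpow_inv_rpow (integral_nonneg fun x => by positivity) hp.ne']

lemma exists_Lp_limit {μ : Measure Pl} {p : ℝ} (hp : 1 ≤ p) {h : ℕ → Pl → Pl}
    (hh : ∀ k, MemLp (h k) (ENNReal.ofReal p) μ)
    (hc : ∀ ε > 0, ∃ N, ∀ k ≥ N, ∀ l ≥ N, ∫ x, ‖h k x - h l x‖ ^ p ∂μ < ε) :
    ∃ g, MemLp g (ENNReal.ofReal p) μ ∧
      Tendsto (fun k => ∫ x, ‖h k x - g x‖ ^ p ∂μ) atTop (𝓝 0) ∧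
      Tendsto (fun k => ∫ x, ‖h k x‖ ^ p ∂μ) atTop (𝓝 (∫ x, ‖g x‖ ^ p ∂μ)) := by
  have hp0 : 0 < p := by linarith
  have : Fact (1 ≤ ENNReal.ofReal p) := ⟨by simpa using hp⟩
  have hsub : ∀ (F G : Lp Pl (ENNReal.ofReal p) μ) (f g : Pl → Pl), F =ᵐ[μ] f → G =ᵐ[μ] g →
      ‖F - G‖ ^ p = ∫ x, ‖f x - g x‖ ^ p ∂μ := by
    intro F G f g hf hg
    rw [Lp_norm_rpow hp0]
    refine integral_congr_ae ?_
    filter_upwards [Lp.coeFn_sub F G, hf, hg] with x h1 h2 h3
    rw [h1, Pi.sub_apply, h2, h3]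
  have hcau : CauchySeq fun k => (hh k).toLp (h k) := by
    refine Metric.cauchySeq_iff.2 fun ε hε => ?_
    obtain ⟨N, hN⟩ := hc (ε ^ p) (Real.rpow_pos_of_pos hε p)
    refine ⟨N, fun k hk l hl => ?_⟩
    have := hN k hk l hl
    rw [← hsub _ _ _ _ (hh k).coeFn_toLp (hh l).coeFn_toLp] at this
    rw [dist_eq_norm]
    exact (Real.rpow_lt_rpow_iff (norm_nonneg _) hε.le hp0).1 this
  obtain ⟨G, hG⟩ := cauchySeq_tendsto_of_complete hcau
  refine ⟨G, Lp.memLp G, ?_, ?_⟩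
  · have h1 := (tendsto_iff_norm_sub_tendsto_zero.1 hG).rpow_const (p := p) (Or.inr hp0.le)
    rw [Real.zero_rpow hp0.ne'] at h1
    refine h1.congr fun k => ?_
    exact hsub _ _ _ _ (hh k).coeFn_toLp EventuallyEq.rfl
  · have h1 := hG.norm.rpow_const (p := p) (Or.inr hp0.le)
    rw [Lp_norm_rpow hp0] at h1
    refine h1.congr fun k => ?_
    rw [Lp_norm_rpow hp0]
    refine integral_congr_ae ?_
    filter_upwards [(hh k).coeFn_toLp] with x hx
    rw [hx]

lemma pow_le_add_rpow {a ν p : ℝ} {n : ℕ} (ha : 0 ≤ a) (hν : 0 < ν) (hn : (n : ℝ) ≤ p) :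
    a ^ n ≤ ν ^ n + a ^ p * (ν ^ n / ν ^ p) := by
  have hνp : 0 < ν ^ p := Real.rpow_pos_of_pos hν p
  rcases le_total a ν with h | h
  · have h1 : a ^ n ≤ ν ^ n := pow_le_pow_left₀ ha h n
    have h2 : 0 ≤ a ^ p * (ν ^ n / ν ^ p) := by positivity
    linarith
  · have h1 : 1 ≤ a / ν := by rwa [le_div_iff₀ hν, one_mul]
    have h2 : (a / ν) ^ (n : ℝ) ≤ (a / ν) ^ p := Real.rpow_le_rpow_of_exponent_le h1 hn
    rw [Real.rpow_natCast, div_pow, Real.div_rpow ha hν.le, div_le_iff₀ (by positivity)] at h2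
    have h3 : a ^ p * (ν ^ n / ν ^ p) = a ^ p / ν ^ p * ν ^ n := by ring
    have h4 : 0 ≤ ν ^ n := by positivity
    linarith

section

variable {Ω : Set Pl}

lemma finite_restrict (hbd : Bornology.IsBounded Ω) : IsFiniteMeasure (volume.restrict Ω) :=
  ⟨by rw [Measure.restrict_apply_univ]; exact hbd.measure_lt_top⟩

lemma integrableOn_norm_pow (hbd : Bornology.IsBounded Ω) {p : ℝ} {n : ℕ} (hn : (n : ℝ) ≤ p)
    {f : Pl → Pl} (hf : MemLp f (ENNReal.ofReal p) (volume.restrict Ω)) :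
    IntegrableOn (fun x => ‖f x‖ ^ n) Ω := by
  have := finite_restrict hbd
  have h1 : MemLp f n (volume.restrict Ω) := hf.mono_exponent (by
    rw [← ENNReal.ofReal_natCast]; exact ENNReal.ofReal_le_ofReal hn)
  exact h1.integrable_norm_pow'

lemma integral_norm_pow_le (hbd : Bornology.IsBounded Ω) {p ν : ℝ} {n : ℕ} (hp : 0 < p)
    (hn : (n : ℝ) ≤ p) (hν : 0 < ν) {f : Pl → Pl}
    (hf : MemLp f (ENNReal.ofReal p) (volume.restrict Ω)) :
    ∫ x in Ω, ‖f x‖ ^ n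
      ≤ ν ^ n * volume.real Ω + (∫ x in Ω, ‖f x‖ ^ p) * (ν ^ n / ν ^ p) := by
  have := finite_restrict hbd
  have h1 := integrableOn_norm_rpow hp hf
  have h2 : ∫ x in Ω, ‖f x‖ ^ n ≤ ∫ x in Ω, (ν ^ n + ‖f x‖ ^ p * (ν ^ n / ν ^ p)) :=
    integral_mono (integrableOn_norm_pow hbd hn hf) ((integrable_const _).add (h1.mul_const _))
      fun x => pow_le_add_rpow (norm_nonneg _) hν hn
  rw [integral_add (integrable_const _) (h1.mul_const _), integral_mul_const, setIntegral_const,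
    smul_eq_mul, mul_comm] at h2
  exact h2

lemma integral_norm_pow_small (hbd : Bornology.IsBounded Ω) {p : ℝ} {n : ℕ} (hn0 : n ≠ 0)
    (hn : (n : ℝ) ≤ p) {ε : ℝ} (hε : 0 < ε) : ∃ δ > 0, ∀ f : Pl → Pl,
      MemLp f (ENNReal.ofReal p) (volume.restrict Ω) → ∫ x in Ω, ‖f x‖ ^ p ≤ δ →
        ∫ x in Ω, ‖f x‖ ^ n ≤ ε := by
  have hp : 0 < p := lt_of_lt_of_le (by exact_mod_cast Nat.pos_of_ne_zero hn0) hn
  have hV : 0 ≤ volume.real Ω := measureReal_nonneg
  obtain ⟨ν, hν, hν1, hν2⟩ : ∃ ν > 0, ν ≤ 1 ∧ ν * volume.real Ω ≤ ε / 2 := by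
    refine ⟨min 1 (ε / 2 / (volume.real Ω + 1)), by positivity, min_le_left _ _, ?_⟩
    have h1 : min 1 (ε / 2 / (volume.real Ω + 1)) ≤ ε / 2 / (volume.real Ω + 1) := min_le_right _ _
    rw [le_div_iff₀ (by positivity)] at h1
    have h2 : 0 ≤ min 1 (ε / 2 / (volume.real Ω + 1)) := by positivity
    nlinarith
  have hνp : 0 < ν ^ p := Real.rpow_pos_of_pos hν p
  refine ⟨ε / 2 * ν ^ p, by positivity, fun f hf hδ => ?_⟩
  have h1 := integral_norm_pow_le hbd hp hn hν hf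
  have h2 : ν ^ n ≤ ν := pow_le_of_le_one hν.le hν1 hn0
  have h3 : (∫ x in Ω, ‖f x‖ ^ p) * (ν ^ n / ν ^ p) ≤ ε / 2 * ν ^ p * (1 / ν ^ p) :=
    mul_le_mul hδ (by gcongr; linarith) (by positivity) (by positivity)
  have h4 : ε / 2 * ν ^ p * (1 / ν ^ p) = ε / 2 := by field_simp
  nlinarith

lemma exists_frontier_near (hbd : Bornology.IsBounded Ω) :
    ∃ D > 0, ∀ x ∈ closure Ω, ∃ q ∈ frontier Ω, dist q x ≤ D := by
  refine ⟨diam (closure Ω) + 1, by positivity, fun x hx => ?_⟩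
  obtain ⟨q, hq⟩ : (frontier Ω).Nonempty := nonempty_frontier_iff.2
    ⟨closure_nonempty_iff.1 ⟨x, hx⟩, fun h => NormedSpace.unbounded_univ ℝ Pl (h ▸ hbd)⟩
  exact ⟨q, hq, by linarith [dist_le_diam_of_mem hbd.closure (frontier_subset_closure hq) hx]⟩

lemma sup_small (hΩ : IsOpen Ω) (hbd : Bornology.IsBounded Ω) {p : ℝ} (hp : 4 ≤ p) {ε : ℝ}
    (hε : 0 < ε) : ∃ δ > 0, ∀ (w : Pl → ℝ) (Γ : Pl → Pl), ContinuousOn w (closure Ω) →
      (∀ x ∈ frontier Ω, w x = 0) → HasWeakGradientOn w Γ Ω →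
      MemLp Γ (ENNReal.ofReal p) (volume.restrict Ω) → ∫ x in Ω, ‖Γ x‖ ^ p ≤ δ →
      ∀ x ∈ closure Ω, |w x| ≤ ε := by
  obtain ⟨D, hD, hq⟩ := exists_frontier_near hbd
  have hu := unitArea_pos
  have h4 : ((4 : ℕ) : ℝ) ≤ p := by exact_mod_cast hp
  obtain ⟨δ, hδ, h⟩ := integral_norm_pow_small hbd (n := 4) (by norm_num) h4
    (ε := ε / 2 * (unitArea * D * (ε / (16 * D)) ^ 3) / 128) (by positivity)
  refine ⟨δ, hδ, fun w Γ hw hw0 hΓ hΓp hI x hx => ?_⟩
  obtain ⟨q, hqf, hqx⟩ := hq x hx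
  have h1 := morrey hΩ hbd hw hw0 hΓ (integrableOn_norm_pow hbd h4 hΓp) hx
    (frontier_subset_closure hqf) hD (μ := ε / (16 * D)) (by positivity) hqx
  rw [hw0 q hqf, sub_zero] at h1
  have h2 : 128 * (∫ z in Ω, ‖Γ z‖ ^ 4) / (unitArea * D * (ε / (16 * D)) ^ 3) ≤ ε / 2 := by
    rw [div_le_iff₀ (by positivity)]
    linarith [h Γ hΓp hI]
  have h3 : 8 * D * (ε / (16 * D)) = ε / 2 := by field_simp; ring
  linarith

lemma HasWeakGradientOn.sub {f₁ f₂ : Pl → ℝ} {g₁ g₂ : Pl → Pl} {U : Set Pl}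
    (h₁ : HasWeakGradientOn f₁ g₁ U) (h₂ : HasWeakGradientOn f₂ g₂ U) :
    HasWeakGradientOn (fun x => f₁ x - f₂ x) (fun x => g₁ x - g₂ x) U :=
  HasWeakGradientOn.of_wd (h₁.2.1.sub h₂.2.1) fun i => by simpa using (h₁.wd i).sub (h₂.wd i)

lemma HasWeakGradientOn.const_smul {f : Pl → ℝ} {g : Pl → Pl} {U : Set Pl}
    (h : HasWeakGradientOn f g U) (c : ℝ) :
    HasWeakGradientOn (fun x => c * f x) (fun x => c • g x) U :=
  HasWeakGradientOn.of_wd (h.2.1.smul c) fun i => by simpa using (h.wd i).const_mul c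

lemma HasWeakGradientOn.of_limit (hΩ : IsOpen Ω) {w : ℕ → Pl → ℝ} {Γ : ℕ → Pl → Pl}
    {w' : Pl → ℝ} {Γ' : Pl → Pl} (h : ∀ k, HasWeakGradientOn (w k) (Γ k) Ω)
    (hw : TendstoUniformlyOn w w' atTop Ω) (hw' : ContinuousOn w' Ω)
    (hΓi : ∀ k, IntegrableOn (Γ k) Ω) (hΓi' : IntegrableOn Γ' Ω)
    (hΓ : Tendsto (fun k => ∫ x in Ω, ‖Γ k x - Γ' x‖) atTop (𝓝 0)) :
    HasWeakGradientOn w' Γ' Ω := by
  have hloc := hw'.locallyIntegrableOn (μ := volume) hΩ.measurableSet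
  refine ⟨hloc, hΓi'.locallyIntegrableOn, fun φ hφ hs hsub i => ?_⟩
  have hzero : ∀ x ∉ Ω, fderiv ℝ φ x = 0 := fun x hx => by
    by_contra hne
    exact hx (hsub (support_fderiv_subset ℝ hne))
  have hdφ : Continuous fun x => fderiv ℝ φ x (EuclideanSpace.single i 1) :=
    (hφ.continuous_fderiv (by simp)).clm_apply continuous_const
  have T1 : Tendsto (fun k => ∫ x, w k x * fderiv ℝ φ x (EuclideanSpace.single i 1)) atTop
      (𝓝 (∫ x, w' x * fderiv ℝ φ x (EuclideanSpace.single i 1))) := by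
    refine tendsto_integral_filter_of_dominated_convergence
      (fun x => (|w' x| + 1) * |fderiv ℝ φ x (EuclideanSpace.single i 1)|)
      (Eventually.of_forall fun k =>
        (integrable_mul_fderiv (h k).1 hφ hs hsub _).aestronglyMeasurable) ?_ ?_
      (Eventually.of_forall fun x => ?_)
    · filter_upwards [Metric.tendstoUniformlyOn_iff.1 hw 1 one_pos] with k hk
      refine Eventually.of_forall fun x => ?_
      by_cases hx : x ∈ Ω
      · rw [norm_mul, Real.norm_eq_abs, Real.norm_eq_abs]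
        refine mul_le_mul_of_nonneg_right ?_ (abs_nonneg _)
        have h1 := hk x hx
        rw [Real.dist_eq] at h1
        have h2 := abs_sub (w' x) (w' x - w k x)
        rw [sub_sub_cancel] at h2
        linarith
      · simp [hzero x hx]
    · refine integrable_mul_of_tsupport (U := Ω)
        ((hw'.abs.add continuousOn_const).locallyIntegrableOn hΩ.measurableSet) hdφ.abs
        ((hs.fderiv_apply ℝ _).comp_left (g := fun t : ℝ => |t|) abs_zero) ?_
      refine (closure_mono ?_).trans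
        ((tsupport_fderiv_apply_subset ℝ (EuclideanSpace.single i 1)).trans hsub)
      intro x hx
      simpa using hx
    · by_cases hx : x ∈ Ω
      · exact (hw.tendsto_at hx).mul_const _
      · simp [hzero x hx]
  have T2 : Tendsto (fun k => ∫ x, Γ k x i * φ x) atTop (𝓝 (∫ x, Γ' x i * φ x)) := by
    obtain ⟨C, hC⟩ := hφ.continuous.bounded_above_of_compact_support hs
    have hi : ∀ {G : Pl → Pl}, IntegrableOn G Ω → Integrable fun x => G x i * φ x :=
      fun hG => integrable_mul_of_tsupport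
        ((EuclideanSpace.proj (𝕜 := ℝ) i).locallyIntegrableOn_comp hG.locallyIntegrableOn)
        hφ.continuous hs hsub
    rw [tendsto_iff_norm_sub_tendsto_zero]
    refine squeeze_zero (fun k => norm_nonneg _) (fun k => ?_) (by simpa using hΓ.mul_const C)
    rw [← integral_sub (hi (hΓi k)) (hi hΓi'),
      ← setIntegral_eq_integral_of_forall_compl_eq_zero (s := Ω) (fun x hx => by
        simp [image_eq_zero_of_notMem_tsupport (fun h => hx (hsub h))]), ← integral_mul_const]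
    refine norm_integral_le_of_norm_le (((hΓi k).sub hΓi').norm.mul_const C)
      (Eventually.of_forall fun x => ?_)
    rw [← sub_mul, norm_mul]
    refine mul_le_mul ?_ (hC x) (norm_nonneg _) (norm_nonneg _)
    exact PiLp.norm_apply_le (Γ k x - Γ' x) i
  exact tendsto_nhds_unique T1 (T2.neg.congr fun k => ((h k).2.2 φ hφ hs hsub i).symm)

lemma clarkson (a b : Pl) {p : ℝ} (hp : 2 ≤ p) :
    ‖a + (1 / 2 : ℝ) • (b - a)‖ ^ p + ‖(1 / 2 : ℝ) • (b - a)‖ ^ p ≤ (‖a‖ ^ p + ‖b‖ ^ p) / 2 := by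
  have hsq : ∀ v : Pl, ‖v‖ ^ p = (‖v‖ ^ 2) ^ (p / 2) := fun v => by
    rw [← Real.rpow_natCast, ← Real.rpow_mul (norm_nonneg _)]
    congr 1; push_cast; ring
  have hpar : ‖a + (1 / 2 : ℝ) • (b - a)‖ ^ 2 + ‖(1 / 2 : ℝ) • (b - a)‖ ^ 2
      = (1 / 2) * ‖a‖ ^ 2 + (1 / 2) * ‖b‖ ^ 2 := by
    have e1 : a + (1 / 2 : ℝ) • (b - a) = (1 / 2 : ℝ) • (b + a) := by module
    have := parallelogram_law_with_norm ℝ b a
    rw [e1, norm_smul, norm_smul, Real.norm_of_nonneg (by norm_num)]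
    nlinarith
  have h1 := Real.add_rpow_le_rpow_add (p := p / 2) (sq_nonneg ‖a + (1 / 2 : ℝ) • (b - a)‖)
    (sq_nonneg ‖(1 / 2 : ℝ) • (b - a)‖) (by linarith)
  have h2 := (convexOn_rpow (p := p / 2) (by linarith)).2 (mem_Ici.2 (sq_nonneg ‖a‖))
    (mem_Ici.2 (sq_nonneg ‖b‖)) (show (0 : ℝ) ≤ 1 / 2 by norm_num)
    (show (0 : ℝ) ≤ 1 / 2 by norm_num) (by norm_num)
  simp only [smul_eq_mul] at h2
  rw [hpar] at h1
  simp only [hsq]
  linarith

/-- Existence of minimizers by the direct method. -/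
theorem exists_isMinimizer (hΩ : IsOpen Ω) (hbd : Bornology.IsBounded Ω) {p : ℝ} (hp : 4 ≤ p)
    {u₀ u₁ : C(closure Ω, AddCircle (1 : ℝ))} {g₁ : Pl → Pl} (h₁ : IsCompetitor Ω p u₀ u₁ g₁) :
    ∃ u, IsMinimizer Ω p u₀ u := by
  have := finite_restrict hbd
  have hp0 : 0 < p := by linarith
  set S : Set ℝ := {E | ∃ v h, IsCompetitor Ω p u₀ v h ∧ E = ∫ x in Ω, ‖h x‖ ^ p} with hS
  have hSb : BddBelow S := ⟨0, by
    rintro E ⟨v, h, -, rfl⟩
    exact integral_nonneg fun x => by positivity⟩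
  obtain ⟨E, -, hE, hES⟩ := exists_seq_tendsto_sInf (S := S) ⟨_, u₁, g₁, h₁, rfl⟩ hSb
  choose v h hc hEeq using hES
  have hcau : ∀ ε > 0, ∃ N, ∀ k ≥ N, ∀ l ≥ N, ∫ x in Ω, ‖h k x - h l x‖ ^ p < ε := by
    intro ε hε
    have h2p : (0 : ℝ) < (1 / 2) ^ p := by positivity
    obtain ⟨N, hN⟩ := eventually_atTop.1
      (hE.eventually (gt_mem_nhds (show sInf S < sInf S + ε * (1 / 2) ^ p by
        have : 0 < ε * (1 / 2 : ℝ) ^ p := by positivity
        linarith)))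
    refine ⟨N, fun k hk l hl => ?_⟩
    obtain ⟨w, hwc, hw0, hwg, -⟩ := (hc l).exists_shift hΩ (hc k)
    have hmem : MemLp (fun x => (1 / 2 : ℝ) • (h k x - h l x)) (ENNReal.ofReal p)
        (volume.restrict Ω) := ((hc k).2.1.sub (hc l).2.1).const_smul (1 / 2 : ℝ)
    have hmid := (hc l).shift (H := fun x => (1 / 2 : ℝ) * w x) (continuousOn_const.mul hwc)
      (fun x hx => by simp [hw0 x hx]) (hwg.const_smul (1 / 2)) hmem
    have e1 : sInf S ≤ ∫ x in Ω, ‖h l x + (1 / 2 : ℝ) • (h k x - h l x)‖ ^ p :=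
      csInf_le hSb ⟨_, _, hmid, rfl⟩
    have i1 := integrableOn_norm_rpow hp0 hmid.2.1
    have i2 := integrableOn_norm_rpow hp0 hmem
    have i3 := integrableOn_norm_rpow hp0 (hc k).2.1
    have i4 := integrableOn_norm_rpow hp0 (hc l).2.1
    have e2 : ∫ x in Ω, (‖h l x + (1 / 2 : ℝ) • (h k x - h l x)‖ ^ p
        + ‖(1 / 2 : ℝ) • (h k x - h l x)‖ ^ p) ≤ ∫ x in Ω, (‖h l x‖ ^ p + ‖h k x‖ ^ p) / 2 :=
      integral_mono (i1.add i2) ((i4.add i3).div_const 2)
        fun x => clarkson (h l x) (h k x) (by linarith)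
    rw [integral_add i1 i2, integral_div, integral_add i4 i3, ← hEeq k, ← hEeq l] at e2
    have e3 : ∫ x in Ω, ‖(1 / 2 : ℝ) • (h k x - h l x)‖ ^ p
        = (∫ x in Ω, ‖h k x - h l x‖ ^ p) * (1 / 2) ^ p := by
      rw [← integral_mul_const]
      congr 1
      funext x
      rw [norm_smul, Real.norm_of_nonneg (by norm_num),
        Real.mul_rpow (by norm_num) (norm_nonneg _), mul_comm]
    rw [e3] at e2
    have e4 : (∫ x in Ω, ‖h k x - h l x‖ ^ p) * (1 / 2) ^ p < ε * (1 / 2) ^ p := by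
      linarith [hN k hk, hN l hl]
    exact lt_of_mul_lt_mul_right e4 h2p.le
  obtain ⟨g, hg, hg1, hg2⟩ := exists_Lp_limit (by linarith) (fun k => (hc k).2.1) hcau
  choose w hwc hw0 hwg _ using fun k => (hc 0).exists_shift hΩ (hc k)
  have hucau : UniformCauchySeqOn w atTop (closure Ω) := by
    refine Metric.uniformCauchySeqOn_iff.2 fun ε hε => ?_
    obtain ⟨δ, hδ, hsup⟩ := sup_small hΩ hbd hp (ε := ε / 2) (by positivity)
    obtain ⟨N, hN⟩ := hcau δ hδ
    refine ⟨N, fun k hk l hl x hx => ?_⟩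
    have := hsup (fun x => w k x - w l x) (fun x => h k x - h l x) ((hwc k).sub (hwc l))
      (fun x hx => by simp [hw0 k x hx, hw0 l x hx]) (by simpa using (hwg k).sub (hwg l))
      ((hc k).2.1.sub (hc l).2.1) (hN k hk l hl).le x hx
    rw [Real.dist_eq]
    linarith
  have hlim : TendstoUniformlyOn w (fun x => limUnder atTop fun k => w k x) atTop (closure Ω) :=
    hucau.tendstoUniformlyOn_of_tendsto fun x hx => (hucau.cauchySeq hx).tendsto_limUnder
  have hWc : ContinuousOn (fun x => limUnder atTop fun k => w k x) (closure Ω) :=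
    hlim.continuousOn (Eventually.of_forall hwc).frequently
  have hW0 : ∀ x ∈ frontier Ω, (limUnder atTop fun k => w k x) = 0 := fun x hx => by
    have := hlim.tendsto_at (frontier_subset_closure hx)
    simp only [fun k => hw0 k x hx] at this ⊢
    exact tendsto_nhds_unique this tendsto_const_nhds
  have h1p : (1 : ENNReal) ≤ ENNReal.ofReal p := by simpa using (by linarith : 1 ≤ p)
  have hWg : HasWeakGradientOn (fun x => limUnder atTop fun k => w k x)
      (fun x => g x - h 0 x) Ω := by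
    refine HasWeakGradientOn.of_limit hΩ hwg (hlim.mono subset_closure) (hWc.mono subset_closure)
      (fun k => ((hc k).2.1.sub (hc 0).2.1).integrable h1p) ((hg.sub (hc 0).2.1).integrable h1p) ?_
    simp only [sub_sub_sub_cancel_right]
    refine Metric.tendsto_atTop.2 fun ε hε => ?_
    obtain ⟨δ, hδ, hsm⟩ := integral_norm_pow_small hbd (n := 1) (p := p) one_ne_zero
      (by push_cast; linarith) (ε := ε / 2) (by positivity)
    obtain ⟨N, hN⟩ := eventually_atTop.1 (hg1.eventually (gt_mem_nhds hδ))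
    refine ⟨N, fun k hk => ?_⟩
    have := hsm (fun x => h k x - g x) ((hc k).2.1.sub hg) (hN k hk).le
    simp only [pow_one] at this
    rw [Real.dist_eq, sub_zero, abs_of_nonneg (integral_nonneg fun x => norm_nonneg _)]
    linarith
  have hcomp := (hc 0).shift hWc hW0 hWg (hg.sub (hc 0).2.1)
  refine ⟨_, _, hcomp, fun v' h' hv' => ?_⟩
  have e1 : ∫ x in Ω, ‖g x‖ ^ p = sInf S :=
    tendsto_nhds_unique hg2 (hE.congr fun k => hEeq k)
  simp only [add_sub_cancel]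
  rw [e1]
  exact csInf_le hSb ⟨_, _, hv', rfl⟩

lemma norm_sub_pow_four_le (a b : Pl) : ‖a - b‖ ^ 4 ≤ 8 * (‖a‖ ^ 4 + ‖b‖ ^ 4) := by
  have h1 : ‖a - b‖ ^ 4 ≤ (‖a‖ + ‖b‖) ^ 4 := pow_le_pow_left₀ (norm_nonneg _) (norm_sub_le a b) 4
  have h2 := add_pow_le (norm_nonneg a) (norm_nonneg b) 4
  norm_num at h2
  linarith

/-- Existence of an infinity-harmonic map with Lipschitz data. -/
theorem exists_isInfinityHarmonic (hΩ : IsOpen Ω) (hbd : Bornology.IsBounded Ω)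
    {u₀ : C(closure Ω, AddCircle (1 : ℝ))} {L : ℝ≥0} (hL : LipschitzWith L u₀) :
    ∃ u, IsInfinityHarmonic Ω u₀ u := by
  have := finite_restrict hbd
  have hp4 : ∀ j : ℕ, (4 : ℝ) ≤ j + 4 := fun j => by linarith [(Nat.cast_nonneg j : (0 : ℝ) ≤ j)]
  have h0 := fun j : ℕ => isCompetitor_lipGrad hΩ hbd hL ((j : ℝ) + 4)
  choose v hv using fun j : ℕ => exists_isMinimizer hΩ hbd (hp4 j) (h0 j)
  have hL0 : (0 : ℝ) ≤ L := L.2
  have hV : 0 ≤ volume.real Ω := measureReal_nonneg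
  have hu := unitArea_pos
  obtain ⟨N, hN0, hN⟩ : ∃ N : ℝ, 0 ≤ N ∧ ∀ j (x y : closure Ω) (r μ : ℝ), 0 < r → 0 < μ →
      dist y x ≤ r → dist (v j x) (v j y) ≤ L * r + (N / (r * μ ^ 3) + 8 * r * μ) := by
    refine ⟨128 * (8 * (3 * ((L + 1) ^ 4 * volume.real Ω))) / unitArea, by positivity,
      fun j x y r μ hr hμ hxy => ?_⟩
    obtain ⟨h, hh, hmin⟩ := hv j
    obtain ⟨w, hwc, hw0, hwg, hvw⟩ := (h0 j).exists_shift hΩ hh
    have h4 : ((4 : ℕ) : ℝ) ≤ j + 4 := by exact_mod_cast hp4 j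
    have hbound : ∀ q : ℝ, 0 ≤ q → ∀ z ∈ Ω, ‖lipGrad u₀ z‖ ^ q ≤ ((L : ℝ) + 1) ^ q :=
      fun q hq z hz => Real.rpow_le_rpow (norm_nonneg _)
        ((norm_lipGrad_le hΩ hL hz).trans (by linarith)) hq
    have e1 : ∫ z in Ω, ‖lipGrad u₀ z‖ ^ ((j : ℝ) + 4)
        ≤ volume.real Ω * ((L : ℝ) + 1) ^ ((j : ℝ) + 4) := by
      rw [← smul_eq_mul, ← setIntegral_const]
      exact setIntegral_mono_on (integrableOn_norm_rpow (by linarith [hp4 j]) (h0 j).2.1)
        (integrable_const _) hΩ.measurableSet (hbound _ (by linarith [hp4 j]))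
    have e2 := integral_norm_pow_le hbd (n := 4) (by linarith [hp4 j]) h4
      (show (0 : ℝ) < L + 1 by linarith) hh.2.1
    have hpos : 0 < ((L : ℝ) + 1) ^ ((j : ℝ) + 4) := Real.rpow_pos_of_pos (by linarith) _
    have e3 : (∫ z in Ω, ‖h z‖ ^ ((j : ℝ) + 4)) * ((L + 1) ^ 4 / (L + 1) ^ ((j : ℝ) + 4))
        ≤ (L + 1) ^ 4 * volume.real Ω := by
      refine (mul_le_mul_of_nonneg_right ((hmin _ _ (h0 j)).trans e1) (by positivity)).trans
        (le_of_eq ?_)
      field_simp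
    have i1 := integrableOn_norm_pow hbd h4 hh.2.1
    have i2 := integrableOn_norm_pow hbd h4 (h0 j).2.1
    have i3 := integrableOn_norm_pow hbd h4 (hh.2.1.sub (h0 j).2.1)
    have e4 : ∫ z in Ω, ‖lipGrad u₀ z‖ ^ 4 ≤ volume.real Ω * ((L : ℝ) + 1) ^ 4 := by
      rw [← smul_eq_mul, ← setIntegral_const]
      exact setIntegral_mono_on i2 (integrable_const _) hΩ.measurableSet fun z hz =>
        pow_le_pow_left₀ (norm_nonneg _) ((norm_lipGrad_le hΩ hL hz).trans (by linarith)) 4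
    have e5 : ∫ z in Ω, ‖h z - lipGrad u₀ z‖ ^ 4
        ≤ ∫ z in Ω, 8 * (‖h z‖ ^ 4 + ‖lipGrad u₀ z‖ ^ 4) :=
      integral_mono i3 ((i1.add i2).const_mul 8) fun z => norm_sub_pow_four_le _ _
    rw [integral_const_mul, integral_add i1 i2] at e5
    have e6 : ∫ z in Ω, ‖h z - lipGrad u₀ z‖ ^ 4 ≤ 8 * (3 * ((L + 1) ^ 4 * volume.real Ω)) := by
      linarith
    have e7 := morrey hΩ hbd hwc hw0 hwg i3 x.2 y.2 hr hμ hxy
    have e8 : 128 * (∫ z in Ω, ‖h z - lipGrad u₀ z‖ ^ 4) / (unitArea * r * μ ^ 3)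
        ≤ 128 * (8 * (3 * ((L + 1) ^ 4 * volume.real Ω))) / unitArea / (r * μ ^ 3) := by
      rw [div_div, ← mul_assoc unitArea]
      gcongr
    have e9 : dist (u₀ x) (u₀ y) ≤ L * r :=
      (hL.dist_le_mul x y).trans (mul_le_mul_of_nonneg_left (by rwa [dist_comm]) hL0)
    have e10 : dist ((w x.1 : ℝ) : AddCircle (1 : ℝ)) ((w y.1 : ℝ) : AddCircle (1 : ℝ))
        ≤ |w x.1 - w y.1| := by
      rw [dist_eq_norm, ← AddCircle.coe_sub]
      exact QuotientAddGroup.norm_mk_le_norm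
    rw [hvw x, hvw y]
    linarith [dist_add_add_le (u₀ x) ((w x.1 : ℝ) : AddCircle (1 : ℝ)) (u₀ y)
      ((w y.1 : ℝ) : AddCircle (1 : ℝ))]
  have hequi : UniformEquicontinuous fun j (x : closure Ω) => v j x := by
    refine Metric.uniformEquicontinuous_iff.2 fun ε hε => ?_
    obtain ⟨s, hs, hs1, hs2⟩ : ∃ s > 0, s ≤ 1 ∧ s * (L + N + 8) < ε := by
      refine ⟨min 1 (ε / (L + N + 9)), by positivity, min_le_left _ _, ?_⟩
      have h1 : min 1 (ε / (L + N + 9)) ≤ ε / (L + N + 9) := min_le_right _ _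
      rw [le_div_iff₀ (by positivity)] at h1
      have h2 : 0 < min 1 (ε / (L + N + 9)) := by positivity
      nlinarith
    refine ⟨s ^ 2, by positivity, fun x y hxy j => ?_⟩
    have h1 := hN j x y (s ^ 2) (1 / s) (by positivity) (by positivity)
      (by rw [dist_comm]; exact hxy.le)
    have h2 : N / (s ^ 2 * (1 / s) ^ 3) + 8 * s ^ 2 * (1 / s) = s * (N + 8) := by
      field_simp
    rw [h2] at h1
    have h3 : (L : ℝ) * s ^ 2 ≤ s * L := by nlinarith [mul_nonneg hL0 hs.le]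
    nlinarith
  have : CompactSpace (closure Ω) := isCompact_iff_compactSpace.1 hbd.isCompact_closure
  set F : ℕ → BoundedContinuousFunction (closure Ω) (AddCircle (1 : ℝ)) :=
    fun j => BoundedContinuousFunction.mkOfCompact (v j) with hF
  have hcpt : IsCompact (closure (range F)) := by
    refine BoundedContinuousFunction.arzela_ascoli univ isCompact_univ _
      (fun _ _ _ => mem_univ _) ?_
    have h1 := hequi.equicontinuous.comp (fun a : range F => a.2.choose)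
    have h2 : ((fun j (x : closure Ω) => v j x) ∘ fun a : range F => a.2.choose)
        = fun (a : range F) (x : closure Ω) => a.1 x := by
      funext a x
      conv_rhs => rw [← a.2.choose_spec]
      rfl
    rw [h2] at h1
    exact h1
  obtain ⟨U, -, φ, hφ, hlim⟩ := hcpt.tendsto_subseq (x := F) fun j => subset_closure ⟨j, rfl⟩
  refine ⟨U, fun j => (φ j : ℝ) + 4, fun j => v (φ j), fun j => by linarith [hp4 (φ j)],
    tendsto_atTop_add_const_right _ _ (tendsto_natCast_atTop_atTop.comp hφ.tendsto_atTop),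
    fun j => hv (φ j), ?_⟩
  exact BoundedContinuousFunction.tendsto_iff_tendstoUniformly.1 hlim

end

end Pool.Agent.Lib.MP_2231f7_an
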