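import Pool.Agent.Lib.MP_2231f7_an.Barrier

set_option autoImplicit false

/-! A Morrey type estimate for continuous functions with weak gradient in `L^4` of a bounded
planar open set, vanishing on the boundary. -/

namespace Pool.Agent.Lib.MP_2231f7_an

open MeasureTheory Filter Set Metric Topology
open scoped ContDiff Convolution

lemma integral_comp_homothety {A : Pl → ℝ} (x : Pl) {t : ℝ} (ht : 0 < t) :
    ∫ z, A (x + t • (z - x)) = (t ^ 2)⁻¹ * ∫ z, A z := by
  have h1 := integral_sub_right_eq_self (μ := volume) (fun z : Pl => A (x + t • z)) x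
  have h2 := Measure.integral_comp_smul_of_nonneg (μ := volume) (fun z : Pl => A (x + z)) t
    (hR := ht.le)
  have h3 := integral_add_left_eq_self (μ := volume) A x
  rw [h1, h2, h3]
  simp

lemma integrable_comp_homothety {A : Pl → ℝ} (hA : Integrable A) (x : Pl) {t : ℝ} (ht : 0 < t) :
    Integrable fun z => A (x + t • (z - x)) :=
  (((hA.comp_add_left x).comp_smul ht.ne').comp_sub_right x :)

/-- The area of the unit disc. -/
noncomputable def unitArea : ℝ := (volume : Measure Pl).real (closedBall 0 1)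

lemma unitArea_pos : 0 < unitArea :=
  ENNReal.toReal_pos (measure_closedBall_pos volume _ one_pos).ne' measure_closedBall_lt_top.ne

lemma area_closedBall (x : Pl) {r : ℝ} (hr : 0 ≤ r) :
    (volume : Measure Pl).real (closedBall x r) = r ^ 2 * unitArea := by
  rw [Measure.addHaar_real_closedBall' volume x hr]
  simp [unitArea]

lemma morrey_average {ψ A : Pl → ℝ} (hψ : ContDiff ℝ 1 ψ) (hAc : Continuous A)
    (hA0 : ∀ z, 0 ≤ A z) (hAi : Integrable A)
    (hD : ∀ μ > 0, ∀ z, ‖fderiv ℝ ψ z‖ ≤ A z / μ ^ 3 + μ) {x x₀ : Pl} {r R μ : ℝ} (hr : 0 ≤ r)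
    (hR : 0 ≤ R) (hμ : 0 < μ) (hS : ∀ z ∈ closedBall x₀ r, ‖z - x‖ ≤ R) :
    ∫ z in closedBall x₀ r, |ψ z - ψ x|
      ≤ 2 * R * ((∫ z, A z) / μ ^ 3 + μ * (r ^ 2 * unitArea)) := by
  set F : ℝ → Pl → ℝ := fun s z => 2 * R * (s ^ 4 * A (x + s ^ 2 • (z - x)) / μ ^ 3 + μ) with hF
  have hFc : Continuous (Function.uncurry F) := by
    have : Continuous fun q : ℝ × Pl => A (x + q.1 ^ 2 • (q.2 - x)) := hAc.comp (by fun_prop)
    simp only [hF]
    fun_prop
  have hpt : ∀ z ∈ closedBall x₀ r, |ψ z - ψ x| ≤ ∫ s in (0 : ℝ)..1, F s z := by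
    intro z hz
    have hder : ∀ s : ℝ, HasDerivAt (fun s : ℝ => ψ (x + s ^ 2 • (z - x)))
        (fderiv ℝ ψ (x + s ^ 2 • (z - x)) ((2 * s) • (z - x))) s := by
      intro s
      have h1 : HasDerivAt (fun s : ℝ => x + s ^ 2 • (z - x)) ((2 * s) • (z - x)) s := by
        have := ((hasDerivAt_pow 2 s).smul_const (z - x)).const_add x
        simpa using this
      exact ((hψ.differentiable one_ne_zero _).hasFDerivAt).comp_hasDerivAt s h1
    have hcont : Continuous fun s : ℝ =>
        fderiv ℝ ψ (x + s ^ 2 • (z - x)) ((2 * s) • (z - x)) :=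
      ((hψ.continuous_fderiv one_ne_zero).comp (by fun_prop)).clm_apply (by fun_prop)
    have hftc := intervalIntegral.integral_eq_sub_of_hasDerivAt (a := 0) (b := 1)
      (fun s _ => hder s) (hcont.intervalIntegrable _ _)
    simp only [one_pow, one_smul, add_sub_cancel, ne_eq, OfNat.ofNat_ne_zero, not_false_eq_true,
      zero_pow, zero_smul, add_zero] at hftc
    rw [← hftc, ← Real.norm_eq_abs]
    refine intervalIntegral.norm_integral_le_of_norm_le zero_le_one
      (Eventually.of_forall fun s hs => ?_)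
      ((hFc.comp (Continuous.prodMk_left z)).intervalIntegrable _ _)
    have hs0 : 0 < s := hs.1
    have h1 := hD (μ / s) (by positivity) (x + s ^ 2 • (z - x))
    have h2 : ‖(2 * s) • (z - x)‖ ≤ 2 * s * R := by
      rw [norm_smul, Real.norm_of_nonneg (by positivity)]
      exact mul_le_mul_of_nonneg_left (hS z hz) (by positivity)
    calc _ ≤ ‖fderiv ℝ ψ (x + s ^ 2 • (z - x))‖ * ‖(2 * s) • (z - x)‖ :=
          ContinuousLinearMap.le_opNorm _ _
      _ ≤ (A (x + s ^ 2 • (z - x)) / (μ / s) ^ 3 + μ / s) * (2 * s * R) :=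
          mul_le_mul h1 h2 (norm_nonneg _) ((norm_nonneg _).trans h1)
      _ = F s z := by
          simp only [hF]
          field_simp
  have hint : Integrable (Function.uncurry F)
      ((volume.restrict (uIoc (0 : ℝ) 1)).prod (volume.restrict (closedBall x₀ r))) := by
    rw [Measure.prod_restrict]
    have : IntegrableOn (Function.uncurry F) (Icc (0 : ℝ) 1 ×ˢ closedBall x₀ r)
        (volume.prod volume) :=
      hFc.continuousOn.integrableOn_compact (isCompact_Icc.prod (isCompact_closedBall x₀ r))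
    refine this.mono_set (prod_mono ?_ Subset.rfl)
    rw [uIoc_of_le zero_le_one]
    exact Ioc_subset_Icc_self
  have hswap := intervalIntegral_integral_swap hint
  have hi2 : IntegrableOn (fun z => ∫ s in (0 : ℝ)..1, F s z) (closedBall x₀ r) := by
    have := hint.integral_prod_right
    simp only [intervalIntegral.integral_of_le zero_le_one]
    rw [uIoc_of_le zero_le_one] at this
    exact this
  have h1 : ∫ z in closedBall x₀ r, |ψ z - ψ x|
      ≤ ∫ z in closedBall x₀ r, ∫ s in (0 : ℝ)..1, F s z :=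
    setIntegral_mono_on ((hψ.continuous.sub continuous_const).abs.continuousOn.integrableOn_compact
      (isCompact_closedBall x₀ r)) hi2 measurableSet_closedBall hpt
  rw [← hswap] at h1
  refine h1.trans ((le_abs_self _).trans ?_)
  have hb := intervalIntegral.norm_integral_le_of_norm_le_const (a := 0) (b := 1)
    (C := 2 * R * ((∫ z, A z) / μ ^ 3 + μ * (r ^ 2 * unitArea)))
    (f := fun s => ∫ z in closedBall x₀ r, F s z) fun s hs => by
      rw [uIoc_of_le zero_le_one] at hs
      have hs0 : 0 < s := hs.1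
      have hAs := integrable_comp_homothety hAi x (t := s ^ 2) (by positivity)
      have hAle : ∫ z in closedBall x₀ r, A (x + s ^ 2 • (z - x)) ≤ ((s ^ 2) ^ 2)⁻¹ * ∫ z, A z := by
        rw [← integral_comp_homothety x (by positivity)]
        exact setIntegral_le_integral hAs (Eventually.of_forall fun z => hA0 _)
      rw [Real.norm_of_nonneg (integral_nonneg fun z => by
        have := hA0 (x + s ^ 2 • (z - x))
        simp only [hF]
        positivity)]
      simp only [hF]
      rw [integral_const_mul, integral_add ((hAs.integrableOn.const_mul _).div_const _)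
        (integrableOn_const measure_closedBall_lt_top.ne), integral_div, integral_const_mul,
        setIntegral_const, area_closedBall x₀ hr, smul_eq_mul]
      have h3 : s ^ 4 * ∫ z in closedBall x₀ r, A (x + s ^ 2 • (z - x)) ≤ ∫ z, A z := by
        calc _ ≤ s ^ 4 * (((s ^ 2) ^ 2)⁻¹ * ∫ z, A z) :=
              mul_le_mul_of_nonneg_left hAle (by positivity)
          _ = ∫ z, A z := by field_simp
      rw [mul_comm (r ^ 2 * unitArea) μ]
      gcongr
  simpa using hb

lemma morrey_smooth {ψ A : Pl → ℝ} (hψ : ContDiff ℝ 1 ψ) (hAc : Continuous A)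
    (hA0 : ∀ z, 0 ≤ A z) (hAi : Integrable A)
    (hD : ∀ μ > 0, ∀ z, ‖fderiv ℝ ψ z‖ ≤ A z / μ ^ 3 + μ) {x y : Pl} {r μ : ℝ} (hr : 0 < r)
    (hμ : 0 < μ) (hxy : dist y x ≤ r) :
    |ψ x - ψ y| ≤ 8 * (∫ z, A z) / (unitArea * r * μ ^ 3) + 8 * r * μ := by
  have hu := unitArea_pos
  have h1 := morrey_average hψ hAc hA0 hAi hD (x := x) (x₀ := x) (R := 2 * r) hr.le
    (by positivity) hμ fun z hz => by
      rw [← dist_eq_norm]; linarith [mem_closedBall.1 hz]
  have h2 := morrey_average hψ hAc hA0 hAi hD (x := y) (x₀ := x) (R := 2 * r) hr.le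
    (by positivity) hμ fun z hz => by
      rw [← dist_eq_norm]; linarith [mem_closedBall.1 hz, dist_triangle z x y, dist_comm x y]
  have hi : ∀ a : Pl, IntegrableOn (fun z => |ψ z - ψ a|) (closedBall x r) := fun a =>
    (hψ.continuous.sub continuous_const).abs.continuousOn.integrableOn_compact
      (isCompact_closedBall x r)
  have h3 : ∫ _ in closedBall x r, |ψ x - ψ y|
      ≤ ∫ z in closedBall x r, (|ψ z - ψ x| + |ψ z - ψ y|) :=
    setIntegral_mono_on (integrableOn_const measure_closedBall_lt_top.ne) ((hi x).add (hi y))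
      measurableSet_closedBall fun z _ => by
        rw [abs_sub_comm (ψ z) (ψ x)]
        exact abs_sub_le _ _ _
  rw [integral_add (hi x) (hi y), setIntegral_const, area_closedBall x hr.le, smul_eq_mul] at h3
  have h4 : r ^ 2 * unitArea * |ψ x - ψ y|
      ≤ r ^ 2 * unitArea * (8 * (∫ z, A z) / (unitArea * r * μ ^ 3) + 8 * r * μ) := by
    have e : r ^ 2 * unitArea * (8 * (∫ z, A z) / (unitArea * r * μ ^ 3) + 8 * r * μ)
        = 2 * (2 * (2 * r) * ((∫ z, A z) / μ ^ 3 + μ * (r ^ 2 * unitArea))) := by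
      field_simp
      ring
    rw [e]
    linarith
  exact le_of_mul_le_mul_left h4 (by positivity)

lemma WD.fderiv_moll_univ {f k : Pl → ℝ} {e : Pl} (h : WD f k e univ)
    (ρ : ContDiffBump (0 : Pl)) (x : Pl) : fderiv ℝ (moll ρ f) x e = moll ρ k x := by
  have hK := isCompact_closedBall x (ρ.rOut + 1)
  have hloc : ∀ (g : Pl → ℝ), ∀ y ∈ ball x 1,
      moll ρ ((closedBall x (ρ.rOut + 1)).indicator g) y = moll ρ g y := by
    intro g y hy
    rw [moll_eq, moll_eq]
    congr 1
    funext t
    by_cases ht : t ∈ closedBall x (ρ.rOut + 1)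
    · rw [indicator_of_mem ht]
    · have : ρ.normed volume (y - t) = 0 := by
        by_contra hne
        have h1 : y - t ∈ Function.support (ρ.normed volume) := hne
        rw [ρ.support_normed_eq, mem_ball_zero_iff, ← dist_eq_norm] at h1
        apply ht
        rw [mem_closedBall]
        linarith [dist_triangle t y x, dist_comm t y, mem_ball.1 hy]
      simp [this]
  have h1 := h.fderiv_moll hK (subset_univ _) ρ (x := x)
    (closedBall_subset_closedBall (by linarith))
  have h2 : moll ρ ((closedBall x (ρ.rOut + 1)).indicator f) =ᶠ[𝓝 x] moll ρ f := by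
    filter_upwards [ball_mem_nhds x one_pos] with y hy using hloc f y hy
  rw [← h2.fderiv_eq, h1, hloc k x (mem_ball_self one_pos)]

lemma integrable_moll_integrand (ρ : ContDiffBump (0 : Pl)) {f : Pl → ℝ}
    (hf : LocallyIntegrable f) (x : Pl) : Integrable fun t => ρ.normed volume (x - t) * f t := by
  have := (ρ.hasCompactSupport_normed (μ := volume)).convolutionExists_left
    (ContinuousLinearMap.lsmul ℝ ℝ) ρ.continuous_normed hf x
  simpa using this.integrable_swap

lemma integral_normed_sub (ρ : ContDiffBump (0 : Pl)) (x : Pl) :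
    ∫ t, ρ.normed volume (x - t) = 1 := by
  rw [integral_sub_left_eq_self (ρ.normed volume) volume x, ρ.integral_normed]

lemma young_four {a μ : ℝ} (ha : 0 ≤ a) (hμ : 0 < μ) : a ≤ a ^ 4 / μ ^ 3 + μ := by
  rcases le_total a μ with h | h
  · have : 0 ≤ a ^ 4 / μ ^ 3 := by positivity
    linarith
  · have h1 : μ ^ 3 ≤ a ^ 3 := pow_le_pow_left₀ hμ.le h 3
    have h2 : a ≤ a ^ 4 / μ ^ 3 := by
      rw [le_div_iff₀ (by positivity)]
      nlinarith
    linarith

lemma opNorm_le_coords (L : Pl →L[ℝ] ℝ) :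
    ‖L‖ ≤ |L (EuclideanSpace.single 0 1)| + |L (EuclideanSpace.single 1 1)| := by
  refine L.opNorm_le_bound (by positivity) fun v => ?_
  have hv : v = v 0 • EuclideanSpace.single (0 : Fin 2) (1 : ℝ)
      + v 1 • EuclideanSpace.single (1 : Fin 2) (1 : ℝ) := by
    ext i
    fin_cases i <;> simp
  have h0 : |v 0| ≤ ‖v‖ := PiLp.norm_apply_le v 0
  have h1 : |v 1| ≤ ‖v‖ := PiLp.norm_apply_le v 1
  calc ‖L v‖ = |v 0 * L (EuclideanSpace.single 0 1) + v 1 * L (EuclideanSpace.single 1 1)| := by
        conv_lhs => rw [hv]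
        simp
    _ ≤ |v 0| * |L (EuclideanSpace.single 0 1)| + |v 1| * |L (EuclideanSpace.single 1 1)| := by
        rw [← abs_mul, ← abs_mul]; exact abs_add_le _ _
    _ ≤ _ := by
        nlinarith [abs_nonneg (L (EuclideanSpace.single 0 1)),
          abs_nonneg (L (EuclideanSpace.single 1 1))]

/-- Morrey estimate for globally defined continuous functions. -/
lemma morrey_global {H : Pl → ℝ} {Γ : Pl → Pl} (hH : Continuous H) (hΓ : Integrable Γ)
    (hΓ4 : Integrable fun z => ‖Γ z‖ ^ 4)
    (hWD : ∀ i : Fin 2, WD H (fun z => Γ z i) (EuclideanSpace.single i 1) univ)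
    {x y : Pl} {r μ : ℝ} (hr : 0 < r) (hμ : 0 < μ) (hxy : dist y x ≤ r) :
    |H x - H y| ≤ 128 * (∫ z, ‖Γ z‖ ^ 4) / (unitArea * r * μ ^ 3) + 8 * r * μ := by
  have hB : Integrable fun z => 16 * ‖Γ z‖ ^ 4 := hΓ4.const_mul 16
  have key : ∀ ρ : ContDiffBump (0 : Pl), |moll ρ H x - moll ρ H y|
      ≤ 128 * (∫ z, ‖Γ z‖ ^ 4) / (unitArea * r * μ ^ 3) + 8 * r * μ := by
    intro ρ
    have hAi : Integrable (moll ρ fun z => 16 * ‖Γ z‖ ^ 4) :=
      ρ.integrable_normed.integrable_convolution _ hB
    have hint : ∫ z, moll ρ (fun z => 16 * ‖Γ z‖ ^ 4) z = 16 * ∫ z, ‖Γ z‖ ^ 4 := by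
      have := integral_convolution (ContinuousLinearMap.lsmul ℝ ℝ) (ρ.integrable_normed (μ := volume)) hB
      rw [ρ.integral_normed, integral_const_mul] at this
      simpa [moll] using this
    have := morrey_smooth (ψ := moll ρ H) (A := moll ρ fun z => 16 * ‖Γ z‖ ^ 4)
      ((contDiff_moll ρ hH.locallyIntegrable).of_le (by simp))
      (contDiff_moll ρ hB.locallyIntegrable).continuous
      (fun z => by
        rw [moll_eq]
        exact integral_nonneg fun t => mul_nonneg (ρ.nonneg_normed _) (by positivity))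
      hAi (fun ν hν z => ?_) hr hμ hxy
    · rw [hint] at this
      refine this.trans (le_of_eq ?_)
      ring
    · refine (opNorm_le_coords _).trans ?_
      rw [(hWD 0).fderiv_moll_univ, (hWD 1).fderiv_moll_univ]
      have hc : ∀ i : Fin 2, |moll ρ (fun z => Γ z i) z|
          ≤ ∫ t, ρ.normed volume (z - t) * ‖Γ t‖ := by
        intro i
        rw [moll_eq, ← Real.norm_eq_abs]
        refine norm_integral_le_of_norm_le
          (integrable_moll_integrand ρ hΓ.norm.locallyIntegrable z)
          (Eventually.of_forall fun t => ?_)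
        rw [norm_mul, Real.norm_of_nonneg (ρ.nonneg_normed _)]
        exact mul_le_mul_of_nonneg_left (PiLp.norm_apply_le (Γ t) i) (ρ.nonneg_normed _)
      have hρi : Integrable fun t => ρ.normed volume (z - t) :=
        ρ.integrable_normed.comp_sub_left z
      have h2 : ∫ t, 2 * (ρ.normed volume (z - t) * ‖Γ t‖)
          ≤ ∫ t, (ρ.normed volume (z - t) * (16 * ‖Γ t‖ ^ 4) / ν ^ 3
            + ρ.normed volume (z - t) * ν) := by
        refine integral_mono ((integrable_moll_integrand ρ hΓ.norm.locallyIntegrable z).const_mul _)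
          (((integrable_moll_integrand ρ hB.locallyIntegrable z).div_const _).add
            (hρi.mul_const _)) fun t => ?_
        have h3 := mul_le_mul_of_nonneg_left (young_four (a := 2 * ‖Γ t‖) (by positivity) hν)
          (ρ.nonneg_normed (μ := volume) (z - t))
        simp only
        calc _ = ρ.normed volume (z - t) * (2 * ‖Γ t‖) := by ring
          _ ≤ _ := h3
          _ = _ := by ring
      rw [integral_const_mul, integral_add
        ((integrable_moll_integrand ρ hB.locallyIntegrable z).div_const _) (hρi.mul_const _),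
        integral_div, integral_mul_const, integral_normed_sub] at h2
      rw [moll_eq ρ (fun z => 16 * ‖Γ z‖ ^ 4)]
      linarith [hc 0, hc 1]
  have hlim : ∀ a, Tendsto (fun n => moll (bumpSeq one_pos n) H a) atTop (𝓝 (H a)) := fun a =>
    ContDiffBump.convolution_tendsto_right_of_continuous (μ := volume)
      (tendsto_bumpSeq_rOut one_pos) hH a
  exact le_of_tendsto' ((hlim x).sub (hlim y)).abs fun n => key _

lemma exists_soft_truncation {η : ℝ} (hη : 0 < η) : ∃ G θ : ℝ → ℝ,
    (∀ t, HasDerivAt G (θ t) t) ∧ Continuous θ ∧ (∀ t, 0 ≤ θ t) ∧ (∀ t, θ t ≤ 1) ∧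
    (∀ t, |t| ≤ η → θ t = 0) ∧ (∀ t, |t| ≤ η → G t = 0) ∧ (∀ t, |G t - t| ≤ 2 * η) := by
  set θ : ℝ → ℝ := fun s => min (max ((|s| - η) / η) 0) 1 with hθdef
  have hθ : Continuous θ := by simp only [hθdef]; fun_prop
  have h0 : ∀ t, 0 ≤ θ t := fun t => le_min (le_max_right _ _) zero_le_one
  have h1 : ∀ t, θ t ≤ 1 := fun t => min_le_right _ _
  have hθ0 : ∀ t, |t| ≤ η → θ t = 0 := fun t ht => by
    have : (|t| - η) / η ≤ 0 := div_nonpos_of_nonpos_of_nonneg (by linarith) hη.le
    simp only [hθdef]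
    rw [max_eq_right this, min_eq_left zero_le_one]
  have hθ1 : ∀ t, 2 * η ≤ |t| → θ t = 1 := fun t ht => by
    have : 1 ≤ (|t| - η) / η := by rw [le_div_iff₀ hη]; linarith
    simp only [hθdef]
    exact min_eq_right (le_max_of_le_left this)
  have hi : ∀ a b, IntervalIntegrable (fun s => θ s - 1) volume a b := fun a b =>
    (hθ.sub continuous_const).intervalIntegrable a b
  have hsmall : ∀ c, |c| ≤ 2 * η → |∫ s in (0 : ℝ)..c, (θ s - 1)| ≤ 2 * η := fun c hc => by
    have := intervalIntegral.norm_integral_le_of_norm_le_const (a := 0) (b := c) (C := 1)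
      (f := fun s => θ s - 1) fun s _ => by
        rw [Real.norm_eq_abs, abs_le]
        constructor <;> linarith [h0 s, h1 s]
    simp only [Real.norm_eq_abs, sub_zero, one_mul] at this
    linarith
  have hzero : ∀ c t, (∀ s ∈ uIcc c t, 2 * η ≤ |s|) → ∫ s in c..t, (θ s - 1) = 0 :=
    fun c t h => by
      rw [intervalIntegral.integral_congr (g := fun _ => (0 : ℝ)) fun s hs => by
        simp [hθ1 s (h s hs)]]
      simp
  refine ⟨fun t => ∫ s in (0 : ℝ)..t, θ s, θ, fun t => ?_, hθ, h0, h1, hθ0, fun t ht => ?_,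
    fun t => ?_⟩
  · exact intervalIntegral.integral_hasDerivAt_right (hθ.intervalIntegrable _ _)
      (hθ.stronglyMeasurableAtFilter _ _) hθ.continuousAt
  · simp only
    rw [intervalIntegral.integral_congr (g := fun _ => (0 : ℝ)) fun s hs =>
      hθ0 s ((abs_le_max_abs_abs hs.1 hs.2).trans ?_)]
    · simp
    · rcases le_total 0 t with h | h
      · simp [h, ht]
      · simp [h, ht]
  · have e : (∫ s in (0 : ℝ)..t, θ s) - t = ∫ s in (0 : ℝ)..t, (θ s - 1) := by
      rw [intervalIntegral.integral_sub (hθ.intervalIntegrable _ _) (by simp)]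
      simp
    simp only
    rw [e]
    rcases le_total (|t|) (2 * η) with h | h
    · exact hsmall t h
    · rcases le_total 0 t with ht | ht
      · rw [abs_of_nonneg ht] at h
        rw [← intervalIntegral.integral_add_adjacent_intervals (hi 0 (2 * η)) (hi (2 * η) t),
          hzero (2 * η) t fun s hs => by
            rw [uIcc_of_le h] at hs
            exact hs.1.trans (le_abs_self s), add_zero]
        exact hsmall _ (by rw [abs_of_nonneg (by linarith)])
      · rw [abs_of_nonpos ht] at h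
        rw [← intervalIntegral.integral_add_adjacent_intervals (hi 0 (-(2 * η))) (hi (-(2 * η)) t),
          hzero (-(2 * η)) t fun s hs => by
            rw [uIcc_of_ge (by linarith)] at hs
            exact (le_neg_of_le_neg hs.2).trans (neg_le_abs s), add_zero]
        exact hsmall _ (by rw [abs_neg, abs_of_nonneg (by linarith)])

/-- Morrey estimate for functions vanishing on the boundary of a bounded open set. -/
theorem morrey {Ω : Set Pl} (hΩ : IsOpen Ω) (hbd : Bornology.IsBounded Ω) {w : Pl → ℝ}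
    {Γ : Pl → Pl} (hw : ContinuousOn w (closure Ω)) (hw0 : ∀ x ∈ frontier Ω, w x = 0)
    (hΓ : HasWeakGradientOn w Γ Ω) (hΓ4 : IntegrableOn (fun z => ‖Γ z‖ ^ 4) Ω)
    {x y : Pl} (hx : x ∈ closure Ω) (hy : y ∈ closure Ω) {r μ : ℝ} (hr : 0 < r) (hμ : 0 < μ)
    (hxy : dist y x ≤ r) :
    |w x - w y| ≤ 128 * (∫ z in Ω, ‖Γ z‖ ^ 4) / (unitArea * r * μ ^ 3) + 8 * r * μ := by
  refine le_of_forall_pos_le_add fun ε hε => ?_
  obtain ⟨G, θ, hG, hθ, hθ0, hθ1, hθη, hGη, hGt⟩ := exists_soft_truncation (η := ε / 4)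
    (by positivity)
  have hGc : Continuous G := continuous_iff_continuousAt.2 fun t => (hG t).continuousAt
  set K : Set Pl := closure Ω ∩ (fun y => |w y|) ⁻¹' Ici (ε / 4) with hKdef
  have hKcl : IsClosed K := hw.abs.preimage_isClosed_of_isClosed isClosed_closure isClosed_Ici
  have hK : IsCompact K := hbd.isCompact_closure.of_isClosed_subset hKcl inter_subset_left
  have hKΩ : K ⊆ Ω := by
    rintro z ⟨hz1, hz2⟩
    by_contra hz
    have h1 := hw0 z (by rw [hΩ.frontier_eq]; exact ⟨hz1, hz⟩)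
    have h2 : ε / 4 ≤ |w z| := hz2
    rw [h1, abs_zero] at h2
    linarith
  have hoff : ∀ z ∉ K, z ∈ Ω → |w z| ≤ ε / 4 := fun z hz hzΩ => by
    by_contra h
    exact hz ⟨subset_closure hzΩ, (not_le.1 h).le⟩
  have hwΩ : ContinuousOn w Ω := hw.mono subset_closure
  set H : Pl → ℝ := Ω.indicator fun z => G (w z) with hH
  set Γ' : Pl → Pl := Ω.indicator fun z => θ (w z) • Γ z with hΓ'
  have hHK : ∀ z ∉ K, H z = 0 := fun z hz => by
    by_cases hzΩ : z ∈ Ω
    · rw [hH, indicator_of_mem hzΩ, hGη _ (hoff z hz hzΩ)]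
    · rw [hH, indicator_of_notMem hzΩ]
  have hΓK : ∀ z ∉ K, Γ' z = 0 := fun z hz => by
    by_cases hzΩ : z ∈ Ω
    · rw [hΓ', indicator_of_mem hzΩ, hθη _ (hoff z hz hzΩ), zero_smul]
    · rw [hΓ', indicator_of_notMem hzΩ]
  have hHc : Continuous H := continuous_of_vanish
    ((hGc.comp_continuousOn hwΩ).congr fun z hz => indicator_of_mem hz _) hΩ hKcl hKΩ hHK
  have hloc : LocallyIntegrableOn Γ' Ω :=
    (hΓ.2.1.continuousOn_smul hΩ.isLocallyClosed (hθ.comp_continuousOn hwΩ)).congr
      ((ae_restrict_iff' hΩ.measurableSet).2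
        (Eventually.of_forall fun z hz => (indicator_of_mem hz _).symm))
  have hΓi : Integrable Γ' := integrable_of_vanish' hloc hK hKΩ hΓK
  have hle : ∀ z, ‖Γ' z‖ ^ 4 ≤ Ω.indicator (fun z => ‖Γ z‖ ^ 4) z := fun z => by
    by_cases hzΩ : z ∈ Ω
    · rw [hΓ', indicator_of_mem hzΩ, indicator_of_mem hzΩ, norm_smul,
        Real.norm_of_nonneg (hθ0 _)]
      exact pow_le_pow_left₀ (mul_nonneg (hθ0 _) (norm_nonneg _))
        (mul_le_of_le_one_left (norm_nonneg _) (hθ1 _)) 4
    · rw [hΓ', indicator_of_notMem hzΩ, indicator_of_notMem hzΩ]; simp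
  have hind : Integrable (Ω.indicator fun z => ‖Γ z‖ ^ 4) :=
    (integrable_indicator_iff hΩ.measurableSet).2 hΓ4
  have hΓ4' : Integrable fun z => ‖Γ' z‖ ^ 4 :=
    hind.mono' (hΓi.aestronglyMeasurable.norm.pow 4) (Eventually.of_forall fun z => by
      rw [Real.norm_of_nonneg (by positivity)]; exact hle z)
  have hN : ∫ z, ‖Γ' z‖ ^ 4 ≤ ∫ z in Ω, ‖Γ z‖ ^ 4 := by
    rw [← integral_indicator hΩ.measurableSet]
    exact integral_mono hΓ4' hind hle
  have hWD : ∀ i : Fin 2, WD H (fun z => Γ' z i) (EuclideanSpace.single i 1) univ := fun i => by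
    refine WD.globalize (W := Ω) ?_ hΩ hK hKΩ hHK fun z hz => by simp [hΓK z hz]
    refine ((hΓ.wd i).comp hΩ hwΩ hG hθ).congr hΩ.measurableSet
      (fun z hz => indicator_of_mem hz _) fun z hz => ?_
    rw [hΓ', indicator_of_mem hz]
    simp
  have hmain := morrey_global hHc hΓi hΓ4' hWD hr hμ hxy
  have hclose : ∀ z ∈ closure Ω, |H z - w z| ≤ 2 * (ε / 4) := fun z hz => by
    by_cases hzΩ : z ∈ Ω
    · rw [hH, indicator_of_mem hzΩ]; exact hGt _
    · rw [hH, indicator_of_notMem hzΩ, hw0 z (by rw [hΩ.frontier_eq]; exact ⟨hz, hzΩ⟩)]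
      simp only [sub_self, abs_zero]
      positivity
  have hu := unitArea_pos
  have h1 : 128 * (∫ z, ‖Γ' z‖ ^ 4) / (unitArea * r * μ ^ 3)
      ≤ 128 * (∫ z in Ω, ‖Γ z‖ ^ 4) / (unitArea * r * μ ^ 3) := by gcongr
  have h2 := abs_le.1 (hclose x hx)
  have h3 := abs_le.1 (hclose y hy)
  have h4 := abs_le.1 hmain
  rw [abs_le]
  constructor <;> linarith [h2.1, h2.2, h3.1, h3.2, h4.1, h4.2]

end Pool.Agent.Lib.MP_2231f7_an
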