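import Pool.Agent.Lib.MP_2231f7_an.Unique
import Pool.Agent.Lib.MP_2231f7_an.Morrey

set_option autoImplicit false

/-! Locality of weak derivatives, the weak differential of a Lipschitz map, and the description
of competitors as real perturbations of the data. -/

namespace Pool.Agent.Lib.MP_2231f7_an

open MeasureTheory Filter Set Metric Topology
open scoped ContDiff NNReal

lemma WD.union {f k : Pl → ℝ} {e : Pl} {V₁ V₂ : Set Pl} (h₁ : WD f k e V₁) (h₂ : WD f k e V₂)
    (hV₁ : IsOpen V₁) (hV₂ : IsOpen V₂) : WD f k e (V₁ ∪ V₂) := by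
  have hloc : ∀ {g : Pl → ℝ}, LocallyIntegrableOn g V₁ → LocallyIntegrableOn g V₂ →
      LocallyIntegrableOn g (V₁ ∪ V₂) := by
    intro g g1 g2 x hx
    rcases hx with hx | hx
    · have := g1 x hx
      rw [hV₁.nhdsWithin_eq hx] at this
      exact this.filter_mono nhdsWithin_le_nhds
    · have := g2 x hx
      rw [hV₂.nhdsWithin_eq hx] at this
      exact this.filter_mono nhdsWithin_le_nhds
  refine ⟨hloc h₁.1 h₂.1, hloc h₁.2.1 h₂.2.1, fun φ hφ hs hsub => ?_⟩
  have hK : IsCompact (tsupport φ \ V₂) := IsCompact.diff hs hV₂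
  obtain ⟨χ, hχ, hχc, hχV, hχ1⟩ := exists_cutoff hK hV₁ fun x hx =>
    (hsub hx.1).resolve_right hx.2
  have hφ₁ : ContDiff ℝ ∞ fun x => χ x * φ x := hχ.mul hφ
  have hφ₂ : ContDiff ℝ ∞ fun x => (1 - χ x) * φ x := (contDiff_const.sub hχ).mul hφ
  have hs₁ : HasCompactSupport fun x => χ x * φ x := hs.mul_left
  have hs₂ : HasCompactSupport fun x => (1 - χ x) * φ x :=
    hs.mul_left (f := fun x => 1 - χ x)
  have ht₁ : tsupport (fun x => χ x * φ x) ⊆ V₁ := tsupport_mul_subset_left.trans hχV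
  have ht₂ : tsupport (fun x => (1 - χ x) * φ x) ⊆ V₂ := by
    intro x hx
    by_contra hxV
    have hxφ : x ∈ tsupport φ := tsupport_mul_subset_right hx
    refine (notMem_tsupport_iff_eventuallyEq.2 ?_) hx
    filter_upwards [hχ1 x ⟨hxφ, hxV⟩] with y hy
    simp [hy]
  have e1 : (fun x => f x * fderiv ℝ φ x e) = fun x => f x * fderiv ℝ (fun x => χ x * φ x) x e
      + f x * fderiv ℝ (fun x => (1 - χ x) * φ x) x e := by
    funext x
    have : φ = (fun x => χ x * φ x) + fun x => (1 - χ x) * φ x := by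
      funext y; simp only [Pi.add_apply]; ring
    conv_lhs => rw [this]
    rw [fderiv_add (hφ₁.differentiable (by simp) x) (hφ₂.differentiable (by simp) x)]
    simp only [add_apply]
    ring
  have e2 : (fun x => k x * φ x) = fun x => k x * (χ x * φ x) + k x * ((1 - χ x) * φ x) := by
    funext x; ring
  rw [e1, e2, integral_add (integrable_mul_fderiv h₁.1 hφ₁ hs₁ ht₁ e)
    (integrable_mul_fderiv h₂.1 hφ₂ hs₂ ht₂ e),
    integral_add (integrable_mul_of_tsupport h₁.2.1 hφ₁.continuous hs₁ ht₁)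
      (integrable_mul_of_tsupport h₂.2.1 hφ₂.continuous hs₂ ht₂),
    h₁.2.2 _ hφ₁ hs₁ ht₁, h₂.2.2 _ hφ₂ hs₂ ht₂]
  ring

lemma locallyIntegrableOn_of_local {F : Type*} [NormedAddCommGroup F] {g : Pl → F} {U : Set Pl}
    (h : ∀ x ∈ U, ∃ V, IsOpen V ∧ x ∈ V ∧ LocallyIntegrableOn g V) : LocallyIntegrableOn g U := by
  intro x hx
  obtain ⟨V, hV, hxV, hg⟩ := h x hx
  have := hg x hxV
  rw [hV.nhdsWithin_eq hxV] at this
  exact this.filter_mono nhdsWithin_le_nhds

lemma WD.of_local {f k : Pl → ℝ} {e : Pl} {U : Set Pl}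
    (h : ∀ x ∈ U, ∃ V, IsOpen V ∧ x ∈ V ∧ WD f k e V) : WD f k e U := by
  refine ⟨locallyIntegrableOn_of_local fun x hx => ?_, locallyIntegrableOn_of_local fun x hx => ?_,
    fun φ hφ hs hsub => ?_⟩
  · obtain ⟨V, h1, h2, h3⟩ := h x hx
    exact ⟨V, h1, h2, h3.1⟩
  · obtain ⟨V, h1, h2, h3⟩ := h x hx
    exact ⟨V, h1, h2, h3.2.1⟩
  · have : ∃ V, IsOpen V ∧ tsupport φ ⊆ V ∧ WD f k e V := by
      refine IsCompact.induction_on (p := fun s => ∃ V, IsOpen V ∧ s ⊆ V ∧ WD f k e V) hs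
        ⟨∅, isOpen_empty, Subset.rfl, fun x hx => absurd hx (notMem_empty x),
          fun x hx => absurd hx (notMem_empty x), fun ψ _ _ hψ => ?_⟩ ?_ ?_ ?_
      · have : ψ = 0 := tsupport_eq_empty_iff.1 (subset_empty_iff.1 hψ)
        simp [this]
      · rintro s t hst ⟨V, h1, h2, h3⟩
        exact ⟨V, h1, hst.trans h2, h3⟩
      · rintro s t ⟨V, h1, h2, h3⟩ ⟨V', h1', h2', h3'⟩
        exact ⟨V ∪ V', h1.union h1', union_subset_union h2 h2', h3.union h3' h1 h1'⟩
      · intro x hx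
        obtain ⟨V, h1, h2, h3⟩ := h x (hsub hx)
        exact ⟨V, mem_nhdsWithin_of_mem_nhds (h1.mem_nhds h2), V, h1, Subset.rfl, h3⟩
    obtain ⟨V, -, h2, h3⟩ := this
    exact h3.2.2 φ hφ hs h2

lemma WD.of_lipschitzWith {F : Pl → ℝ} {C : ℝ≥0} (hF : LipschitzWith C F) (e : Pl) :
    WD F (fun x => fderiv ℝ F x e) e univ := by
  have hb : ∀ x, ‖fderiv ℝ F x e‖ ≤ C * ‖e‖ := fun x =>
    ContinuousLinearMap.le_of_opNorm_le _ (norm_fderiv_le_of_lipschitz ℝ hF) e
  refine ⟨hF.continuous.locallyIntegrable.locallyIntegrableOn _,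
    ((locallyIntegrable_const (C * ‖e‖ : ℝ)).mono
      (measurable_fderiv_apply_const ℝ F e).aestronglyMeasurable
      (Eventually.of_forall fun x => (hb x).trans (le_abs_self _))).locallyIntegrableOn _,
    fun φ hφ hs _ => ?_⟩
  obtain ⟨D, hD⟩ := ContDiff.lipschitzWith_of_hasCompactSupport hs hφ (by simp)
  have h1 := hF.integral_lineDeriv_mul_eq (μ := volume) hD hs e
  have h2 : ∫ x, lineDeriv ℝ F x e * φ x = ∫ x, fderiv ℝ F x e * φ x := by
    refine integral_congr_ae ?_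
    filter_upwards [hF.ae_differentiableAt (μ := volume)] with x hx
    rw [hx.lineDeriv_eq_fderiv]
  have h3 : ∫ x, lineDeriv ℝ φ x (-e) * F x = -∫ x, F x * fderiv ℝ φ x e := by
    rw [← integral_neg]
    congr 1
    funext x
    rw [(hφ.differentiable (by simp) x).lineDeriv_eq_fderiv, map_neg]
    ring
  rw [h2, h3] at h1
  rw [h1, neg_neg]

lemma WD.of_lipschitzOnWith {f : Pl → ℝ} {C : ℝ≥0} {V : Set Pl} (hV : IsOpen V)
    (hf : LipschitzOnWith C f V) (e : Pl) : WD f (fun x => fderiv ℝ f x e) e V := by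
  obtain ⟨F, hF, hfF⟩ := hf.extend_real
  refine ((WD.of_lipschitzWith hF e).mono (subset_univ V)).congr hV.measurableSet hfF
    fun x hx => ?_
  have : f =ᶠ[𝓝 x] F := by
    filter_upwards [hV.mem_nhds hx] with y hy using hfF hy
  rw [this.fderiv_eq]

lemma gradient_coord (f : Pl → ℝ) (x : Pl) (i : Fin 2) :
    gradient f x i = fderiv ℝ f x (EuclideanSpace.single i 1) := by
  rw [← inner_single_one, inner_gradient_left]

lemma norm_gradient (f : Pl → ℝ) (x : Pl) : ‖gradient f x‖ = ‖fderiv ℝ f x‖ :=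
  (InnerProductSpace.toDual ℝ Pl).symm.norm_map _

lemma measurable_gradient (f : Pl → ℝ) : Measurable (gradient f) :=
  (InnerProductSpace.toDual ℝ Pl).symm.continuous.measurable.comp (measurable_fderiv ℝ f)

/-- Near every point, a continuous lift is given by the local increments. -/
lemma lift_local {Ω : Set Pl} {u : closure Ω → AddCircle (1 : ℝ)} {U : Set Pl} (hU : IsOpen U)
    (hUΩ : U ⊆ Ω) {f : Pl → ℝ} (hf : ContinuousOn f U)
    (hlift : ∀ x : closure Ω, x.1 ∈ U → ((f x.1 : ℝ) : AddCircle (1 : ℝ)) = u x) {x : Pl}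
    (hx : x ∈ U) : ∃ δ > 0, ball x δ ⊆ U ∧
      ∀ y ∈ ball x δ, ∀ z ∈ ball x δ, f z - f y = incr u y z := by
  have h1 : ∀ᶠ y in 𝓝 x, y ∈ U ∧ dist (f y) (f x) < 1 / 8 :=
    (hU.eventually_mem hx).and
      (Metric.tendsto_nhds.1 (hf.continuousAt (hU.mem_nhds hx)) _ (by norm_num))
  obtain ⟨δ, hδ, h2⟩ := Metric.eventually_nhds_iff_ball.1 h1
  refine ⟨δ, hδ, fun y hy => (h2 y hy).1, fun y hy z hz => ?_⟩
  have hy' := h2 y hy
  have hz' := h2 z hz
  have hcoe : ((f z - f y : ℝ) : AddCircle (1 : ℝ)) = extd u z - extd u y := by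
    rw [AddCircle.coe_sub, extd_of_mem u (subset_closure (hUΩ hy'.1)),
      extd_of_mem u (subset_closure (hUΩ hz'.1)), ← hlift _ hz'.1, ← hlift _ hy'.1]
  have hsmall : |f z - f y| < 1 / 4 := by
    have e1 := abs_lt.1 (Real.dist_eq _ _ ▸ hy'.2)
    have e2 := abs_lt.1 (Real.dist_eq _ _ ▸ hz'.2)
    rw [abs_lt]
    constructor <;> linarith [e1.1, e1.2, e2.1, e2.2]
  have hn : |incr u y z| = |f z - f y| := by
    rw [incr, abs_rep, ← hcoe]
    exact (AddCircle.norm_coe_eq_abs_iff (1 : ℝ) one_ne_zero).2 (by rw [abs_one]; linarith)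
  refine eq_of_coe_eq (by rw [hcoe, incr, coe_rep]) ?_
  have := abs_sub (f z - f y) (incr u y z)
  linarith

/-- Continuous lifts exist locally. -/
lemma exists_local_lift {Ω : Set Pl} (hΩ : IsOpen Ω) {u : closure Ω → AddCircle (1 : ℝ)}
    (hu : Continuous u) {x : Pl} (hx : x ∈ Ω) :
    ∃ V, IsOpen V ∧ x ∈ V ∧ V ⊆ Ω ∧ ∃ f : Pl → ℝ, ContinuousOn f V ∧
      ∀ y : closure Ω, y.1 ∈ V → ((f y.1 : ℝ) : AddCircle (1 : ℝ)) = u y := by
  have huc : ContinuousOn (extd u) Ω := (continuousOn_extd hu).mono subset_closure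
  have h1 : ∀ᶠ y in 𝓝 x, y ∈ Ω ∧ dist (extd u y) (extd u x) < 1 / 2 :=
    (hΩ.eventually_mem hx).and
      (Metric.tendsto_nhds.1 (huc.continuousAt (hΩ.mem_nhds hx)) _ (by norm_num))
  obtain ⟨δ, hδ, h2⟩ := Metric.eventually_nhds_iff_ball.1 h1
  refine ⟨ball x δ, isOpen_ball, mem_ball_self hδ, fun y hy => (h2 y hy).1,
    fun y => rep (extd u x) + incr u x y, continuousOn_const.add fun y hy => ?_, fun y _ => ?_⟩
  · refine ContinuousAt.comp_continuousWithinAt (f := fun y => extd u y - extd u x)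
      (continuousAt_rep ?_) (((huc.mono fun y hy => (h2 y hy).1).sub continuousOn_const) y hy)
    rw [← dist_eq_norm]
    exact (h2 y hy).2
  · simp only [incr, AddCircle.coe_add, coe_rep, extd_apply]
    abel

/-- The differential of a Lipschitz circle-valued map. -/
noncomputable def lipGrad {Ω : Set Pl} (u : closure Ω → AddCircle (1 : ℝ)) (x : Pl) : Pl :=
  gradient (incr u x) x

lemma abs_incr_le {Ω : Set Pl} {u : closure Ω → AddCircle (1 : ℝ)} {L : ℝ≥0}
    (hL : LipschitzWith L u) {y z : Pl} (hy : y ∈ closure Ω) (hz : z ∈ closure Ω) :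
    |incr u y z| ≤ L * dist z y := by
  rw [incr, abs_rep, extd_of_mem u hy, extd_of_mem u hz, ← dist_eq_norm]
  exact hL.dist_le_mul ⟨z, hz⟩ ⟨y, hy⟩

lemma norm_lipGrad_le {Ω : Set Pl} (hΩ : IsOpen Ω) {u : closure Ω → AddCircle (1 : ℝ)} {L : ℝ≥0}
    (hL : LipschitzWith L u) {x : Pl} (hx : x ∈ Ω) : ‖lipGrad u x‖ ≤ L := by
  rw [lipGrad, norm_gradient]
  refine norm_fderiv_le_of_lip' ℝ L.2 ?_
  filter_upwards [hΩ.mem_nhds hx] with y hy
  have h0 : incr u x x = 0 := by
    have := abs_incr_le hL (subset_closure hx) (subset_closure hx)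
    simpa using this
  rw [h0, sub_zero, Real.norm_eq_abs, ← dist_eq_norm]
  exact abs_incr_le hL (subset_closure hx) (subset_closure hy)

lemma isWeakDifferential_lipGrad {Ω : Set Pl} (hΩ : IsOpen Ω)
    {u : C(closure Ω, AddCircle (1 : ℝ))} {L : ℝ≥0} (hL : LipschitzWith L u) :
    IsWeakDifferential Ω u (lipGrad u) := by
  intro U hU hUΩ f hf hlift
  have hloc : ∀ x ∈ U, ∃ V, IsOpen V ∧ x ∈ V ∧ V ⊆ U ∧ Bornology.IsBounded V ∧
      LipschitzOnWith L f V ∧ ∀ y ∈ V, lipGrad u y = gradient f y := by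
    intro x hx
    obtain ⟨δ, hδ, hb, h⟩ := lift_local hU hUΩ hf hlift hx
    refine ⟨ball x δ, isOpen_ball, mem_ball_self hδ, hb, isBounded_ball,
      LipschitzOnWith.of_dist_le_mul fun z hz y hy => ?_, fun y hy => ?_⟩
    · rw [Real.dist_eq, h y hy z hz]
      exact abs_incr_le hL (subset_closure (hUΩ (hb hy))) (subset_closure (hUΩ (hb hz)))
    · have : incr u y =ᶠ[𝓝 y] fun z => f z - f y := by
        filter_upwards [isOpen_ball.mem_nhds hy] with z hz using (h y hy z hz).symm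
      rw [lipGrad, gradient, gradient, this.fderiv_eq, fderiv_sub_const]
  refine HasWeakGradientOn.of_wd (locallyIntegrableOn_of_local fun x hx => ?_) fun i =>
    WD.of_local fun x hx => ?_
  · obtain ⟨V, h1, h2, h3, h4, -, h6⟩ := hloc x hx
    refine ⟨V, h1, h2, IntegrableOn.locallyIntegrableOn ?_⟩
    refine Measure.integrableOn_of_bounded (M := L) h4.measure_lt_top.ne ?_ ?_ |>.congr_fun
      (fun y hy => (h6 y hy).symm) h1.measurableSet
    · exact (measurable_gradient f).aestronglyMeasurable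
    · refine (ae_restrict_iff' h1.measurableSet).2 (Eventually.of_forall fun y hy => ?_)
      rw [← h6 y hy]
      exact norm_lipGrad_le hΩ hL (hUΩ (h3 hy))
  · obtain ⟨V, h1, h2, -, -, h5, h6⟩ := hloc x hx
    refine ⟨V, h1, h2, (WD.of_lipschitzOnWith h1 h5 _).congr h1.measurableSet (fun _ _ => rfl)
      fun y hy => ?_⟩
    rw [h6 y hy, gradient_coord]

lemma IsWeakDifferential.locallyIntegrableOn {Ω : Set Pl} (hΩ : IsOpen Ω)
    {u : C(closure Ω, AddCircle (1 : ℝ))} {g : Pl → Pl} (h : IsWeakDifferential Ω u g) :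
    LocallyIntegrableOn g Ω := locallyIntegrableOn_of_local fun x hx => by
  obtain ⟨V, h1, h2, h3, f, hf, hl⟩ := exists_local_lift hΩ u.continuous hx
  exact ⟨V, h1, h2, (h V h1 h3 f hf hl).2.1⟩

lemma isCompetitor_lipGrad {Ω : Set Pl} (hΩ : IsOpen Ω) (hbd : Bornology.IsBounded Ω)
    {u : C(closure Ω, AddCircle (1 : ℝ))} {L : ℝ≥0} (hL : LipschitzWith L u) (p : ℝ) :
    IsCompetitor Ω p u u (lipGrad u) := by
  have : IsFiniteMeasure (volume.restrict Ω) :=
    ⟨by rw [Measure.restrict_apply_univ]; exact hbd.measure_lt_top⟩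
  refine ⟨isWeakDifferential_lipGrad hΩ hL, MemLp.of_bound
    ((isWeakDifferential_lipGrad hΩ hL).locallyIntegrableOn hΩ).aestronglyMeasurable L
    ((ae_restrict_iff' hΩ.measurableSet).2 (Eventually.of_forall fun y hy =>
      norm_lipGrad_le hΩ hL hy)), ContinuousMap.HomotopicRel.refl u⟩

/-- Two competitors differ by a real function with zero boundary values. -/
lemma IsCompetitor.exists_shift {Ω : Set Pl} (hΩ : IsOpen Ω) {p : ℝ}
    {u₀ u v : C(closure Ω, AddCircle (1 : ℝ))} {g h : Pl → Pl} (hu : IsCompetitor Ω p u₀ u g)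
    (hv : IsCompetitor Ω p u₀ v h) :
    ∃ w : Pl → ℝ, ContinuousOn w (closure Ω) ∧ (∀ x ∈ frontier Ω, w x = 0) ∧
      HasWeakGradientOn w (fun x => h x - g x) Ω ∧
      ∀ x : closure Ω, v x = u x + ((w x.1 : ℝ) : AddCircle (1 : ℝ)) := by
  obtain ⟨w, hwc, hwl, hw0⟩ := exists_lift_sub (hu.2.2.trans hv.2.2.symm)
  have hwc' := continuousOn_extd hwc
  have hvx : ∀ x : closure Ω, v x = u x + ((extd w x.1 : ℝ) : AddCircle (1 : ℝ)) := fun x => by
    rw [extd_apply, hwl]; abel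
  refine ⟨extd w, hwc', fun x hx => ?_, ?_, hvx⟩
  · rw [extd_of_mem w (frontier_subset_closure hx)]
    exact hw0 _ hx
  · refine HasWeakGradientOn.of_wd
      ((hv.1.locallyIntegrableOn hΩ).sub (hu.1.locallyIntegrableOn hΩ)) fun i =>
      WD.of_local fun x hx => ?_
    obtain ⟨V, h1, h2, h3, f, hf, hl⟩ := exists_local_lift hΩ u.continuous hx
    have e1 := (hu.1 V h1 h3 f hf hl).wd i
    have e2 := (hv.1 V h1 h3 (fun y => f y + extd w y)
      (hf.add (hwc'.mono (h3.trans subset_closure))) fun y hy => by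
        rw [AddCircle.coe_add, hl y hy, hvx]).wd i
    exact ⟨V, h1, h2, by simpa using e2.sub e1⟩

end Pool.Agent.Lib.MP_2231f7_an
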