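import Pool.Agent.Lib.MP_2231f7_an.Barrier
import Pool.Agent.Lib.MP_2231f7_an.Comparison

set_option autoImplicit false

/-! Uniqueness of infinity-harmonic circle-valued maps. -/

namespace Pool.Agent.Lib.MP_2231f7_an

open MeasureTheory Filter Set Metric Topology

/-- The representative in `[-1/2, 1/2)` of a point of the circle. -/
noncomputable def rep (z : AddCircle (1 : ℝ)) : ℝ := AddCircle.equivIco 1 (-1 / 2) z

lemma coe_rep (z : AddCircle (1 : ℝ)) : ((rep z : ℝ) : AddCircle (1 : ℝ)) = z :=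
  AddCircle.coe_equivIco

lemma abs_rep (z : AddCircle (1 : ℝ)) : |rep z| = ‖z‖ := by
  have h := (AddCircle.equivIco 1 (-1 / 2) z).2
  have h1 : |rep z| ≤ |(1 : ℝ)| / 2 := by
    rw [abs_one, abs_le, rep]
    exact ⟨by linarith [h.1], by linarith [h.2]⟩
  rw [← (AddCircle.norm_coe_eq_abs_iff (1 : ℝ) one_ne_zero).2 h1, coe_rep]

lemma eq_of_coe_eq {s t : ℝ} (h : (s : AddCircle (1 : ℝ)) = t) (hst : |s - t| < 1) : s = t := by
  have h1 : ((s - t : ℝ) : AddCircle (1 : ℝ)) = 0 := by rw [AddCircle.coe_sub, h, sub_self]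
  obtain ⟨n, hn⟩ := (AddCircle.coe_eq_zero_iff (1 : ℝ)).1 h1
  rw [zsmul_eq_mul, mul_one] at hn
  rw [← hn] at hst
  have h2 : |n| < 1 := by exact_mod_cast hst
  have h3 : n = 0 := Int.abs_lt_one_iff.1 h2
  rw [h3] at hn
  simp only [Int.cast_zero] at hn
  linarith

lemma continuousAt_rep {z : AddCircle (1 : ℝ)} (hz : ‖z‖ < 1 / 2) : ContinuousAt rep z := by
  refine continuous_subtype_val.continuousAt.comp (AddCircle.continuousAt_equivIco 1 (-1 / 2) ?_)
  rintro rfl
  rw [(AddCircle.norm_coe_eq_abs_iff (1 : ℝ) one_ne_zero).2 (by norm_num [abs_of_neg])] at hz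
  norm_num [abs_of_neg] at hz

/-- Extension by zero of a map defined on the closure of `Ω`. -/
noncomputable def extd {Ω : Set Pl} {Y : Type*} [Zero Y] (u : closure Ω → Y) : Pl → Y :=
  Function.extend Subtype.val u 0

@[simp] lemma extd_apply {Ω : Set Pl} {Y : Type*} [Zero Y] (u : closure Ω → Y) (x : closure Ω) :
    extd u x.1 = u x := Subtype.val_injective.extend_apply _ _ _

lemma extd_of_mem {Ω : Set Pl} {Y : Type*} [Zero Y] (u : closure Ω → Y) {x : Pl}
    (hx : x ∈ closure Ω) : extd u x = u ⟨x, hx⟩ := extd_apply u ⟨x, hx⟩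

lemma continuousOn_extd {Ω : Set Pl} {Y : Type*} [Zero Y] [TopologicalSpace Y]
    {u : closure Ω → Y} (hu : Continuous u) : ContinuousOn (extd u) (closure Ω) := by
  rw [continuousOn_iff_continuous_domRestrict]
  convert hu using 1
  funext x
  exact extd_apply u x

/-- Local real increments of a circle-valued map. -/
noncomputable def incr {Ω : Set Pl} (u : closure Ω → AddCircle (1 : ℝ)) (x y : Pl) : ℝ :=
  rep (extd u y - extd u x)

lemma IsCompetitor.neg {Ω : Set Pl} {p : ℝ} {u₀ u : C(closure Ω, AddCircle (1 : ℝ))}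
    {g : Pl → Pl} (hu : IsCompetitor Ω p u₀ u g) :
    IsCompetitor Ω p (-u₀) (-u) (fun x => -g x) := by
  refine ⟨fun U hU hUΩ f hf hlift => ?_, hu.2.1.neg, ?_⟩
  · have h1 := hu.1 U hU hUΩ (fun x => -f x) hf.neg fun x hx => by
      rw [AddCircle.coe_neg, hlift x hx]; simp
    refine HasWeakGradientOn.of_wd h1.2.1.neg fun i => ?_
    simpa using (h1.wd i).neg
  · exact hu.2.2.comp_continuousMap (-ContinuousMap.id _)

lemma IsMinimizer.neg {Ω : Set Pl} {p : ℝ} {u₀ u : C(closure Ω, AddCircle (1 : ℝ))}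
    (hu : IsMinimizer Ω p u₀ u) : IsMinimizer Ω p (-u₀) (-u) := by
  obtain ⟨g, hg, hmin⟩ := hu
  refine ⟨_, hg.neg, fun v h hv => ?_⟩
  have := hmin (-v) (fun x => -h x) (by simpa using hv.neg)
  simpa using this

lemma IsInfinityHarmonic.neg {Ω : Set Pl} {u₀ : C(closure Ω, AddCircle (1 : ℝ))}
    {u : closure Ω → AddCircle (1 : ℝ)} (hu : IsInfinityHarmonic Ω u₀ u) :
    IsInfinityHarmonic Ω (-u₀) (fun x => -u x) := by
  obtain ⟨p, w, hp, hp', hw, hlim⟩ := hu
  refine ⟨p, fun j => -w j, hp, hp', fun j => (hw j).neg, ?_⟩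
  rw [Metric.tendstoUniformly_iff] at hlim ⊢
  intro ε hε
  filter_upwards [hlim ε hε] with j hj x
  simpa using hj x

lemma IsInfinityHarmonic.continuous {Ω : Set Pl} {u₀ : C(closure Ω, AddCircle (1 : ℝ))}
    {u : closure Ω → AddCircle (1 : ℝ)} (hu : IsInfinityHarmonic Ω u₀ u) : Continuous u := by
  obtain ⟨p, w, -, -, -, hlim⟩ := hu
  exact hlim.continuous (Eventually.of_forall fun j => (w j).continuous).frequently

lemma exists_modulus {Ω : Set Pl} (hbd : Bornology.IsBounded Ω) {Y : Type*}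
    [SeminormedAddCommGroup Y] {F : Pl → Y} (hF : ContinuousOn F (closure Ω)) {η : ℝ}
    (hη : 0 < η) : ∃ δ > 0, ∀ x ∈ closure Ω, ∀ y ∈ closure Ω, dist y x ≤ δ → ‖F y - F x‖ < η := by
  have h := hbd.isCompact_closure.uniformContinuousOn_of_continuous hF
  obtain ⟨δ, hδ, h1⟩ := Metric.uniformContinuousOn_iff.1 h η hη
  refine ⟨δ / 2, by positivity, fun x hx y hy hxy => ?_⟩
  rw [← dist_eq_norm]
  exact h1 y hy x hx (by linarith)

lemma IsInfinityHarmonic.coneIncrement {Ω : Set Pl} (hΩ : IsOpen Ω)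
    (hbd : Bornology.IsBounded Ω) {u₀ : C(closure Ω, AddCircle (1 : ℝ))}
    {u : closure Ω → AddCircle (1 : ℝ)} (hu : IsInfinityHarmonic Ω u₀ u) {ρ : ℝ}
    (hρ : ∀ x ∈ closure Ω, ∀ y ∈ closure Ω, dist y x ≤ ρ → ‖extd u y - extd u x‖ < 1 / 4) :
    ConeIncrement Ω ρ (incr u) := by
  have huc := continuousOn_extd hu.continuous
  have hcont : ContinuousOn (fun q : Pl × Pl => incr u q.1 q.2)
      {q | q.1 ∈ closure Ω ∧ q.2 ∈ closure Ω ∧ dist q.2 q.1 ≤ ρ} := by
    intro q hq
    have h1 : ContinuousOn (fun q : Pl × Pl => extd u q.2 - extd u q.1)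
        {q | q.1 ∈ closure Ω ∧ q.2 ∈ closure Ω ∧ dist q.2 q.1 ≤ ρ} :=
      (huc.comp continuousOn_snd fun q hq => hq.2.1).sub
        (huc.comp continuousOn_fst fun q hq => hq.1)
    exact ContinuousAt.comp_continuousWithinAt (f := fun q : Pl × Pl => extd u q.2 - extd u q.1)
      (continuousAt_rep ((hρ _ hq.1 _ hq.2.1 hq.2.2).trans (by norm_num))) (h1 q hq)
  refine ⟨hcont, fun x hx y hy z hz hxy hyz hxz => ?_, fun η hη => ?_,
    fun x R M hR hRρ hball hM y hy => ?_⟩
  · refine eq_of_coe_eq ?_ ?_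
    · simp only [incr, AddCircle.coe_add, coe_rep]
      abel
    · have h1 := hρ x hx y hy hxy
      have h2 := hρ y hy z hz hyz
      have h3 := hρ x hx z hz hxz
      rw [← abs_rep, abs_lt] at h1 h2 h3
      simp only [incr]
      rw [abs_lt]
      constructor <;> linarith [h1.1, h1.2, h2.1, h2.2, h3.1, h3.2]
  · obtain ⟨δ, hδ, h⟩ := exists_modulus hbd huc hη
    exact ⟨δ, hδ, fun x hx y hy hxy => by rw [incr, abs_rep]; exact h x hx y hy hxy⟩
  · obtain ⟨p, w, hp, hp', hw, hlim⟩ := hu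
    have hbc : closedBall x R ⊆ closure Ω := hball.trans subset_closure
    have hxb : x ∈ closedBall x R := mem_closedBall_self hR.le
    have hxx : incr u x x = 0 := by
      have : |incr u x x| = 0 := by simp [incr, abs_rep]
      exact abs_eq_zero.1 this
    have hM0 : 0 ≤ M := hxx ▸ hM x hxb
    have hAc : ContinuousOn (fun z => incr u x z) (closedBall x R) := by
      have h1 : ContinuousOn (fun y : Pl => ((x, y) : Pl × Pl)) (closedBall x R) := by fun_prop
      exact hcont.comp h1 fun y hy => ⟨hbc hxb, hbc hy, (mem_closedBall.1 hy).trans hRρ⟩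
    have ht1 : ‖y - x‖ / R ≤ 1 := by
      rw [div_le_one hR, ← dist_eq_norm]; exact hy
    have ht0 : 0 ≤ ‖y - x‖ / R := by positivity
    have step : ∀ β ∈ Ioo (0 : ℝ) 1, incr u x y ≤ M * (‖y - x‖ / R) ^ β := by
      intro β hβ
      refine le_of_forall_pos_le_add fun η hη => ?_
      obtain ⟨j, hj1, hj2⟩ : ∃ j, (∀ z, dist (u z) (w j z) < min (η / 3) (1 / 4)) ∧
          1 / (1 - β) + 1 < p j :=
        ((Metric.tendstoUniformly_iff.1 hlim _ (by positivity)).and
          (hp'.eventually_gt_atTop _)).exists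
      have hsm : ∀ z ∈ closedBall x R, ‖extd (w j) z - extd u z‖ < min (η / 3) (1 / 4) := by
        intro z hz
        rw [extd_of_mem _ (hbc hz), extd_of_mem _ (hbc hz), ← dist_eq_norm, dist_comm]
        exact hj1 _
      have hsm' : ∀ z ∈ closedBall x R, |rep (extd (w j) z - extd u z)| < η / 3 := fun z hz => by
        rw [abs_rep]; exact (hsm z hz).trans_le (min_le_left _ _)
      have hfc : ContinuousOn (fun z => rep (extd u x) + incr u x z
          + rep (extd (w j) z - extd u z)) (closedBall x R) := by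
        refine (continuousOn_const.add hAc).add fun z hz => ?_
        exact ContinuousAt.comp_continuousWithinAt (f := fun z => extd (w j) z - extd u z)
          (continuousAt_rep ((hsm z hz).trans_le ((min_le_right _ _).trans (by norm_num))))
          ((((continuousOn_extd (w j).continuous).sub huc).mono hbc) z hz)
      have hRβ : 0 < R ^ β := Real.rpow_pos_of_pos hR β
      have hβ1 : 0 < 1 - β := by linarith [hβ.2]
      have key := (hw j).le_barrier hΩ hbd (hp j) hball hfc
        (fun z _ => by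
          simp only [incr, AddCircle.coe_add, coe_rep, extd_apply]
          abel)
        (a := rep (extd u x) + η / 3) (b := (M + η / 3) / R ^ β) (β := β) (by positivity) hβ.1
        (by
          have h1 : 1 / (1 - β) < p j - 1 := by linarith
          rw [div_lt_iff₀ hβ1] at h1
          linarith)
        (by linarith [(abs_lt.1 (hsm' x hxb)).2])
        (fun z hz => by
          rw [div_mul_cancel₀ _ hRβ.ne']
          have hz' := sphere_subset_closedBall hz
          linarith [(abs_lt.1 (hsm' z hz')).2, hM z hz']) y hy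
      have e1 : (M + η / 3) / R ^ β * ‖y - x‖ ^ β = (M + η / 3) * (‖y - x‖ / R) ^ β := by
        rw [Real.div_rpow (norm_nonneg _) hR.le]; ring
      rw [e1] at key
      have h1 : (‖y - x‖ / R) ^ β ≤ 1 := Real.rpow_le_one ht0 ht1 hβ.1.le
      nlinarith [(abs_lt.1 (hsm' y hy)).1]
    have hlimβ : Tendsto (fun β : ℝ => M * (‖y - x‖ / R) ^ β) (𝓝[<] 1)
        (𝓝 (M * (‖y - x‖ / R) ^ (1 : ℝ))) :=
      ((Real.continuousAt_const_rpow' one_ne_zero).tendsto.const_mul M).mono_left
        nhdsWithin_le_nhds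
    have := ge_of_tendsto hlimβ (by
      filter_upwards [Ioo_mem_nhdsLT (zero_lt_one' ℝ)] with β hβ using step β hβ)
    rwa [Real.rpow_one, ← mul_div_assoc, ← dist_eq_norm] at this

/-- Maps that are homotopic relative to a set differ by a real function vanishing on that set. -/
lemma exists_lift_sub {X : Type*} [TopologicalSpace X] {u v : C(X, AddCircle (1 : ℝ))}
    {S : Set X} (h : u.HomotopicRel v S) :
    ∃ w : X → ℝ, Continuous w ∧ (∀ x, ((w x : ℝ) : AddCircle (1 : ℝ)) = v x - u x) ∧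
      ∀ x ∈ S, w x = 0 := by
  obtain ⟨F⟩ := h
  have cov := AddCircle.isCoveringMap_coe (1 : ℝ)
  let H : C(unitInterval × X, AddCircle (1 : ℝ)) :=
    ⟨fun q => F q - u q.2, F.continuous.sub (u.continuous.comp continuous_snd)⟩
  have H0 : ∀ a, H (0, a) = (((0 : C(X, ℝ)) a : ℝ) : AddCircle (1 : ℝ)) := fun a => by
    simp [H]
  have hl := cov.liftHomotopy_lifts H 0 H0
  refine ⟨fun x => cov.liftHomotopy H 0 H0 (1, x), by fun_prop, fun x => ?_, fun x hx => ?_⟩
  · have := congr_fun hl (1, x)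
    simpa [H] using this
  · have h1 := cov.const_of_comp (g := fun t : unitInterval => cov.liftHomotopy H 0 H0 (t, x))
      (by fun_prop) (fun t t' => by
        have e1 := congr_fun hl (t, x)
        have e2 := congr_fun hl (t', x)
        simp only [Function.comp_apply] at e1 e2
        rw [e1, e2]
        simp only [H, ContinuousMap.coe_mk]
        rw [F.eq_fst t hx, F.eq_fst t' hx]) 1 0
    beta_reduce
    rw [h1, cov.liftHomotopy_zero]
    rfl

lemma IsInfinityHarmonic.exists_lift {Ω : Set Pl} {u₀ : C(closure Ω, AddCircle (1 : ℝ))}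
    {u : closure Ω → AddCircle (1 : ℝ)} (hu : IsInfinityHarmonic Ω u₀ u) :
    ∃ w : closure Ω → ℝ, Continuous w ∧ (∀ x, ((w x : ℝ) : AddCircle (1 : ℝ)) = u x - u₀ x) ∧
      ∀ x : closure Ω, x.1 ∈ frontier Ω → w x = 0 := by
  have huc := hu.continuous
  obtain ⟨p, v, -, -, hv, hlim⟩ := hu
  obtain ⟨j, hj⟩ := (Metric.tendstoUniformly_iff.1 hlim (1 / 4) (by norm_num)).exists
  have hhom : ∀ j, (v j).HomotopicRel u₀ {x : closure Ω | x.1 ∈ frontier Ω} := fun j =>
    (hv j).choose_spec.1.2.2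
  obtain ⟨w, hwc, hwl, hw0⟩ := exists_lift_sub (hhom j).symm
  refine ⟨fun x => w x + rep (u x - v j x), hwc.add ?_, fun x => ?_, fun x hx => ?_⟩
  · rw [continuous_iff_continuousAt]
    intro x
    refine ContinuousAt.comp (f := fun x => u x - v j x) (continuousAt_rep ?_)
      (huc.sub (v j).continuous).continuousAt
    rw [← dist_eq_norm]
    exact (hj x).trans (by norm_num)
  · rw [AddCircle.coe_add, hwl, coe_rep]; abel
  · have h1 : ∀ k, v k x = u₀ x := fun k => (hhom k).fst_eq_snd hx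
    have h2 : u x = u₀ x := by
      have := hlim.tendsto_at x
      simp only [h1] at this
      exact tendsto_nhds_unique this tendsto_const_nhds
    have h3 : |rep (u x - v j x)| = 0 := by rw [abs_rep, h1, h2, sub_self, norm_zero]
    beta_reduce
    rw [hw0 x hx, abs_eq_zero.1 h3, add_zero]

lemma lift_nonpos {Ω : Set Pl} (hΩ : IsOpen Ω) (hbd : Bornology.IsBounded Ω)
    {u₀ : C(closure Ω, AddCircle (1 : ℝ))} {u v : closure Ω → AddCircle (1 : ℝ)}
    (hu : IsInfinityHarmonic Ω u₀ u) (hv : IsInfinityHarmonic Ω u₀ v) {w : closure Ω → ℝ}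
    (hwc : Continuous w) (hwl : ∀ x, ((w x : ℝ) : AddCircle (1 : ℝ)) = u x - v x)
    (hw0 : ∀ x : closure Ω, x.1 ∈ frontier Ω → w x = 0) (x : closure Ω) : w x ≤ 0 := by
  obtain ⟨δ₁, hδ₁, h₁⟩ := exists_modulus hbd (continuousOn_extd hu.continuous)
    (show (0 : ℝ) < 1 / 4 by norm_num)
  obtain ⟨δ₂, hδ₂, h₂⟩ := exists_modulus hbd (continuousOn_extd hv.neg.continuous)
    (show (0 : ℝ) < 1 / 4 by norm_num)
  obtain ⟨δ₃, hδ₃, h₃⟩ := exists_modulus hbd (continuousOn_extd hwc)
    (show (0 : ℝ) < 1 / 4 by norm_num)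
  have m1 : min δ₁ (min δ₂ δ₃) ≤ δ₁ := min_le_left _ _
  have m2 : min δ₁ (min δ₂ δ₃) ≤ δ₂ := (min_le_right _ _).trans (min_le_left _ _)
  have m3 : min δ₁ (min δ₂ δ₃) ≤ δ₃ := (min_le_right _ _).trans (min_le_right _ _)
  have := nonpos_of_coneIncrement (ρ := min δ₁ (min δ₂ δ₃)) (w := extd w) hΩ hbd (by positivity)
    (hu.coneIncrement hΩ hbd fun x hx y hy h => h₁ x hx y hy (h.trans m1))
    (hv.neg.coneIncrement hΩ hbd fun x hx y hy h => h₂ x hx y hy (h.trans m2))
    (fun x hx y hy h => by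
      refine eq_of_coe_eq ?_ ?_
      · simp only [incr, AddCircle.coe_add, AddCircle.coe_sub, coe_rep, extd_of_mem _ hx,
          extd_of_mem _ hy, hwl]
        abel
      · have e1 := h₁ x hx y hy (h.trans m1)
        have e2 := h₂ x hx y hy (h.trans m2)
        have e3 := h₃ x hx y hy (h.trans m3)
        rw [← abs_rep, abs_lt] at e1 e2
        rw [Real.norm_eq_abs, abs_lt] at e3
        simp only [incr]
        rw [abs_lt]
        constructor <;> linarith [e1.1, e1.2, e2.1, e2.2, e3.1, e3.2])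
    (continuousOn_extd hwc)
    (fun x hx => by rw [extd_of_mem _ (frontier_subset_closure hx)]; exact hw0 _ hx) x.1 x.2
  rwa [extd_apply] at this

/-- Uniqueness of infinity-harmonic maps with given data on a bounded open planar set. -/
theorem IsInfinityHarmonic.unique {Ω : Set Pl} (hΩ : IsOpen Ω) (hbd : Bornology.IsBounded Ω)
    {u₀ : C(closure Ω, AddCircle (1 : ℝ))} {u v : closure Ω → AddCircle (1 : ℝ)}
    (hu : IsInfinityHarmonic Ω u₀ u) (hv : IsInfinityHarmonic Ω u₀ v) : u = v := by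
  obtain ⟨w₁, hc₁, hl₁, h0₁⟩ := hu.exists_lift
  obtain ⟨w₂, hc₂, hl₂, h0₂⟩ := hv.exists_lift
  funext x
  have h1 := lift_nonpos hΩ hbd hu hv (w := fun x => w₁ x - w₂ x) (hc₁.sub hc₂)
    (fun x => by rw [AddCircle.coe_sub, hl₁, hl₂]; abel)
    (fun x hx => by simp [h0₁ x hx, h0₂ x hx]) x
  have h2 := lift_nonpos hΩ hbd hv hu (w := fun x => w₂ x - w₁ x) (hc₂.sub hc₁)
    (fun x => by rw [AddCircle.coe_sub, hl₁, hl₂]; abel)
    (fun x hx => by simp [h0₁ x hx, h0₂ x hx]) x
  have h3 : w₁ x = w₂ x := by linarith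
  have h4 : u x - u₀ x = v x - u₀ x := by rw [← hl₁, ← hl₂, h3]
  exact sub_left_injective h4

end Pool.Agent.Lib.MP_2231f7_an
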