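import Pool.Agent.Lib.MP_2231f7_an.Defs

set_option autoImplicit false

/-! Calculus of weak directional derivatives in the plane. -/

namespace Pool.Agent.Lib.MP_2231f7_an

open MeasureTheory Filter Set Metric Topology ContinuousLinearMap
open scoped ContDiff Convolution

/-- The plane. -/
abbrev Pl := EuclideanSpace ℝ (Fin 2)

/-- `k` is the weak derivative of `f` in direction `e` on `U`. -/
def WD (f k : Pl → ℝ) (e : Pl) (U : Set Pl) : Prop :=
  LocallyIntegrableOn f U ∧ LocallyIntegrableOn k U ∧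
    ∀ φ : Pl → ℝ, ContDiff ℝ ∞ φ → HasCompactSupport φ → tsupport φ ⊆ U →
      ∫ x, f x * fderiv ℝ φ x e = -∫ x, k x * φ x

lemma integrable_mul_of_tsupport {f ψ : Pl → ℝ} {U : Set Pl} (hf : LocallyIntegrableOn f U)
    (hψ : Continuous ψ) (hc : HasCompactSupport ψ) (hU : tsupport ψ ⊆ U) :
    Integrable (fun x => f x * ψ x) := by
  have h1 : IntegrableOn (fun x => f x * ψ x) (tsupport ψ) :=
    (hf.integrableOn_compact_subset hU hc).mul_continuousOn hψ.continuousOn hc
  refine (integrableOn_iff_integrable_of_support_subset ?_).1 h1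
  intro x hx
  by_contra h
  exact hx (by simp [image_eq_zero_of_notMem_tsupport h])

lemma integrable_mul_fderiv {f φ : Pl → ℝ} {U : Set Pl} (hf : LocallyIntegrableOn f U)
    (hφ : ContDiff ℝ ∞ φ) (hc : HasCompactSupport φ) (hU : tsupport φ ⊆ U) (e : Pl) :
    Integrable (fun x => f x * fderiv ℝ φ x e) :=
  integrable_mul_of_tsupport hf
    ((hφ.continuous_fderiv (by simp)).clm_apply continuous_const)
    (hc.fderiv_apply ℝ e) ((tsupport_fderiv_apply_subset ℝ e).trans hU)

lemma WD.mono {f k : Pl → ℝ} {e : Pl} {U V : Set Pl} (h : WD f k e U) (hV : V ⊆ U) :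
    WD f k e V :=
  ⟨h.1.mono_set hV, h.2.1.mono_set hV, fun φ h1 h2 h3 => h.2.2 φ h1 h2 (h3.trans hV)⟩

lemma WD.add {f₁ k₁ f₂ k₂ : Pl → ℝ} {e : Pl} {U : Set Pl} (h₁ : WD f₁ k₁ e U)
    (h₂ : WD f₂ k₂ e U) : WD (fun x => f₁ x + f₂ x) (fun x => k₁ x + k₂ x) e U := by
  refine ⟨h₁.1.add h₂.1, h₁.2.1.add h₂.2.1, fun φ h1 h2 h3 => ?_⟩
  simp only [add_mul]
  rw [integral_add (integrable_mul_fderiv h₁.1 h1 h2 h3 e) (integrable_mul_fderiv h₂.1 h1 h2 h3 e),
    integral_add (integrable_mul_of_tsupport h₁.2.1 h1.continuous h2 h3)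
      (integrable_mul_of_tsupport h₂.2.1 h1.continuous h2 h3),
    h₁.2.2 φ h1 h2 h3, h₂.2.2 φ h1 h2 h3]
  ring

lemma WD.const_mul {f k : Pl → ℝ} {e : Pl} {U : Set Pl} (h : WD f k e U) (c : ℝ) :
    WD (fun x => c * f x) (fun x => c * k x) e U := by
  refine ⟨h.1.smul c, h.2.1.smul c, fun φ h1 h2 h3 => ?_⟩
  simp only [mul_assoc]
  rw [integral_const_mul, integral_const_mul, h.2.2 φ h1 h2 h3]
  ring

lemma WD.neg {f k : Pl → ℝ} {e : Pl} {U : Set Pl} (h : WD f k e U) :
    WD (fun x => -f x) (fun x => -k x) e U := by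
  simpa using h.const_mul (-1)

lemma WD.sub {f₁ k₁ f₂ k₂ : Pl → ℝ} {e : Pl} {U : Set Pl} (h₁ : WD f₁ k₁ e U)
    (h₂ : WD f₂ k₂ e U) : WD (fun x => f₁ x - f₂ x) (fun x => k₁ x - k₂ x) e U := by
  simpa [sub_eq_add_neg] using h₁.add h₂.neg

lemma WD.congr {f k f' k' : Pl → ℝ} {e : Pl} {U : Set Pl} (h : WD f k e U)
    (hU : MeasurableSet U) (hf : ∀ x ∈ U, f' x = f x) (hk : ∀ x ∈ U, k' x = k x) :
    WD f' k' e U := by
  refine ⟨h.1.congr ?_, h.2.1.congr ?_, fun φ h1 h2 h3 => ?_⟩
  · exact (ae_restrict_iff' hU).2 (Eventually.of_forall fun x hx => (hf x hx).symm)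
  · exact (ae_restrict_iff' hU).2 (Eventually.of_forall fun x hx => (hk x hx).symm)
  · have e1 : (fun x => f' x * fderiv ℝ φ x e) = fun x => f x * fderiv ℝ φ x e := by
      funext x
      by_cases hx : x ∈ U
      · rw [hf x hx]
      · have : fderiv ℝ φ x = 0 := by
          by_contra hne
          exact hx (h3 (support_fderiv_subset ℝ hne))
        simp [this]
    have e2 : (fun x => k' x * φ x) = fun x => k x * φ x := by
      funext x
      by_cases hx : x ∈ U
      · rw [hk x hx]
      · simp [image_eq_zero_of_notMem_tsupport (fun h => hx (h3 h))]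
    rw [e1, e2]
    exact h.2.2 φ h1 h2 h3

/-- A classically differentiable function with continuous derivative. -/
lemma WD.of_hasFDerivAt {c : Pl → ℝ} {c' : Pl → Pl →L[ℝ] ℝ} {U : Set Pl} (hU : IsOpen U)
    (e : Pl) (hc : ∀ x ∈ U, HasFDerivAt c (c' x) x) (hc' : ContinuousOn (fun x => c' x e) U) :
    WD c (fun x => c' x e) e U := by
  have hcc : ContinuousOn c U := fun x hx => (hc x hx).continuousAt.continuousWithinAt
  have h1 := hcc.locallyIntegrableOn (μ := volume) hU.measurableSet
  have h2 := hc'.locallyIntegrableOn (μ := volume) hU.measurableSet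
  refine ⟨h1, h2, fun φ hφ hs hsub => ?_⟩
  exact integral_bilinear_hasFDerivAt_right_eq_neg_left_of_integrable
    (B := ContinuousLinearMap.mul ℝ ℝ) (f := c) (f' := c') (g := φ) (g' := fderiv ℝ φ) (v := e)
    (integrable_mul_of_tsupport h2 hφ.continuous hs hsub)
    (integrable_mul_fderiv h1 hφ hs hsub e)
    (integrable_mul_of_tsupport h1 hφ.continuous hs hsub)
    (fun x hx => hc x (hsub hx))
    (fun x _ => (hφ.differentiable (by simp) x).hasFDerivAt)

lemma integral_mul_conv_swap {ρ k ψ : Pl → ℝ} {C : ℝ} (hρ : Integrable ρ)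
    (heven : ∀ x, ρ (-x) = ρ x) (hk : Integrable k) (hψ : Continuous ψ) (hC : ∀ x, ‖ψ x‖ ≤ C) :
    ∫ x, ψ x * ∫ t, ρ (x - t) * k t = ∫ t, k t * ∫ x, ρ (t - x) * ψ x := by
  have h1 : Integrable (fun p : Pl × Pl => k p.2 * ρ (p.1 - p.2)) (volume.prod volume) :=
    hk.convolution_integrand (ContinuousLinearMap.mul ℝ ℝ) hρ
  have h2 : Integrable (fun p : Pl × Pl => ψ p.1 * (k p.2 * ρ (p.1 - p.2))) (volume.prod volume) :=
    h1.bdd_mul (c := C) (hψ.comp continuous_fst).aestronglyMeasurable
      (Eventually.of_forall fun p => hC p.1)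
  have h3 := integral_integral_swap (f := fun x t => ψ x * (k t * ρ (x - t))) h2
  calc ∫ x, ψ x * ∫ t, ρ (x - t) * k t = ∫ x, ∫ t, ψ x * (k t * ρ (x - t)) := by
        congr 1; funext x
        rw [← integral_const_mul]
        congr 1; funext t; ring
    _ = ∫ t, ∫ x, ψ x * (k t * ρ (x - t)) := h3
    _ = _ := by
        congr 1; funext t
        rw [← integral_const_mul]
        congr 1; funext x
        rw [← heven (t - x), neg_sub]; ring

/-- Mollification by a normed bump function. -/
noncomputable def moll (ρ : ContDiffBump (0 : Pl)) (f : Pl → ℝ) : Pl → ℝ :=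
  ρ.normed volume ⋆[lsmul ℝ ℝ, volume] f

lemma moll_eq (ρ : ContDiffBump (0 : Pl)) (f : Pl → ℝ) (x : Pl) :
    moll ρ f x = ∫ t, ρ.normed volume (x - t) * f t := by
  simp [moll, convolution_eq_swap]

lemma contDiff_moll (ρ : ContDiffBump (0 : Pl)) {f : Pl → ℝ} (hf : LocallyIntegrable f) :
    ContDiff ℝ ∞ (moll ρ f) :=
  ρ.hasCompactSupport_normed.contDiff_convolution_left _ ρ.contDiff_normed hf

lemma fderiv_moll_apply (ρ : ContDiffBump (0 : Pl)) {f : Pl → ℝ} (hf : LocallyIntegrable f)
    (x e : Pl) :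
    fderiv ℝ (moll ρ f) x e = ∫ t, fderiv ℝ (ρ.normed volume) (x - t) e * f t := by
  have h0 : moll ρ f = f ⋆[(lsmul ℝ ℝ).flip, volume] ρ.normed volume := by
    rw [moll, convolution_flip]
  have h1 := (ρ.hasCompactSupport_normed (μ := volume)).hasFDerivAt_convolution_right
    (μ := volume) (lsmul ℝ ℝ).flip hf (ρ.contDiff_normed (n := 1)) x
  rw [h0, h1.fderiv, convolution_precompR_apply _ hf (ρ.hasCompactSupport_normed.fderiv ℝ)
    ((ρ.contDiff_normed (n := 1)).continuous_fderiv (by simp))]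
  simp [convolution_def]

lemma abs_moll_le (ρ : ContDiffBump (0 : Pl)) {f : Pl → ℝ} {C : ℝ}
    (hf : AEStronglyMeasurable f volume) (hC : ∀ x, |f x| ≤ C) (x : Pl) :
    |moll ρ f x| ≤ 3 * C := by
  have h := ρ.dist_normed_convolution_le (μ := volume) (x₀ := x) (ε := 2 * C) hf fun y _ => by
    rw [Real.dist_eq]
    linarith [abs_sub (f y) (f x), hC x, hC y]
  rw [Real.dist_eq] at h
  have h2 := abs_add_le (moll ρ f x - f x) (f x)
  rw [sub_add_cancel] at h2
  have h3 : |moll ρ f x - f x| ≤ 2 * C := h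
  linarith [hC x]

/-- The derivative of a mollification is the mollification of the weak derivative. -/
lemma WD.fderiv_moll {f k : Pl → ℝ} {e : Pl} {U K : Set Pl} (h : WD f k e U) (hK : IsCompact K)
    (hKU : K ⊆ U) (ρ : ContDiffBump (0 : Pl)) {x : Pl} (hx : closedBall x ρ.rOut ⊆ K) :
    fderiv ℝ (moll ρ (K.indicator f)) x e = moll ρ (K.indicator k) x := by
  have hfi : Integrable (K.indicator f) :=
    (integrable_indicator_iff hK.measurableSet).2 (h.1.integrableOn_compact_subset hKU hK)
  rw [fderiv_moll_apply ρ hfi.locallyIntegrable, moll_eq]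
  have hφ : ContDiff ℝ ∞ (fun t => ρ.normed volume (x - t)) :=
    ρ.contDiff_normed.comp (contDiff_const.sub contDiff_id)
  have hsupp : tsupport (fun t => ρ.normed volume (x - t)) ⊆ closedBall x ρ.rOut := by
    refine closure_minimal ?_ isClosed_closedBall
    intro t ht
    have : x - t ∈ Function.support (ρ.normed volume) := ht
    rw [ρ.support_normed_eq, mem_ball_zero_iff] at this
    rw [mem_closedBall, dist_comm, dist_eq_norm]
    exact this.le
  have hcs : HasCompactSupport (fun t => ρ.normed volume (x - t)) :=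
    (isCompact_closedBall x ρ.rOut).of_isClosed_subset (isClosed_tsupport _) hsupp
  have hmain := h.2.2 _ hφ hcs (hsupp.trans (hx.trans hKU))
  have hd : ∀ t, fderiv ℝ (fun t => ρ.normed volume (x - t)) t e
      = -fderiv ℝ (ρ.normed volume) (x - t) e := by
    intro t
    have h1 : HasFDerivAt (ρ.normed volume) (fderiv ℝ (ρ.normed volume) (x - t)) (x - t) :=
      ((ρ.contDiff_normed (n := 1)).differentiable (by simp) _).hasFDerivAt
    have h2 : HasFDerivAt (fun t : Pl => x - t) (-ContinuousLinearMap.id ℝ Pl) t :=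
      (hasFDerivAt_id t).const_sub x
    have h3 := (h1.comp t h2).fderiv
    have h4 : (fun t => ρ.normed volume (x - t)) = ρ.normed volume ∘ fun t => x - t := rfl
    rw [h4, h3]
    simp
  have e1 : (fun t => fderiv ℝ (ρ.normed volume) (x - t) e * K.indicator f t)
      = fun t => -(f t * fderiv ℝ (fun t => ρ.normed volume (x - t)) t e) := by
    funext t
    by_cases ht : t ∈ K
    · rw [indicator_of_mem ht, hd]; ring
    · have : fderiv ℝ (fun t => ρ.normed volume (x - t)) t = 0 := by
        by_contra hne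
        exact ht (hx (hsupp (support_fderiv_subset ℝ hne)))
      rw [indicator_of_notMem ht, this]; simp
  have e2 : (fun t => ρ.normed volume (x - t) * K.indicator k t)
      = fun t => k t * ρ.normed volume (x - t) := by
    funext t
    by_cases ht : t ∈ K
    · rw [indicator_of_mem ht]; ring
    · have : ρ.normed volume (x - t) = 0 :=
        image_eq_zero_of_notMem_tsupport (f := fun t => ρ.normed volume (x - t))
          fun h => ht (hx (hsupp h))
      rw [indicator_of_notMem ht, this]; simp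
  rw [e1, e2, integral_neg, hmain, neg_neg]

/-- A standard sequence of bump functions with outer radius `δ / (n + 1)`. -/
noncomputable def bumpSeq {δ : ℝ} (hδ : 0 < δ) (n : ℕ) : ContDiffBump (0 : Pl) where
  rIn := δ / (n + 1) / 2
  rOut := δ / (n + 1)
  rIn_pos := by positivity
  rIn_lt_rOut := half_lt_self (by positivity)

lemma bumpSeq_rOut_le {δ : ℝ} (hδ : 0 < δ) (n : ℕ) : (bumpSeq hδ n).rOut ≤ δ :=
  div_le_self hδ.le (by linarith [(Nat.cast_nonneg n : (0 : ℝ) ≤ n)])

lemma tendsto_bumpSeq_rOut {δ : ℝ} (hδ : 0 < δ) :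
    Tendsto (fun n => (bumpSeq hδ n).rOut) atTop (𝓝 0) := by
  have := tendsto_one_div_add_atTop_nhds_zero_nat (𝕜 := ℝ) |>.const_mul δ
  simpa [bumpSeq, div_eq_mul_inv] using this

lemma tendsto_moll_joint {δ : ℝ} (hδ : 0 < δ) {f : Pl → ℝ}
    (hf : AEStronglyMeasurable f volume) {y : Pl} (hy : ContinuousAt f y) :
    Tendsto (fun q : ℕ × Pl => moll (bumpSeq hδ q.1) f q.2) (atTop ×ˢ 𝓝 y) (𝓝 (f y)) :=
  ContDiffBump.convolution_tendsto_right (μ := volume) (φ := fun q : ℕ × Pl => bumpSeq hδ q.1)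
    (g := fun _ => f) (k := Prod.snd) (x₀ := y) ((tendsto_bumpSeq_rOut hδ).comp tendsto_fst)
    (Eventually.of_forall fun _ => hf) (hy.tendsto.comp tendsto_snd) tendsto_snd

/-- The chain rule for weak derivatives of continuous functions. -/
theorem WD.comp {f k : Pl → ℝ} {e : Pl} {U : Set Pl} (h : WD f k e U) (hU : IsOpen U)
    (hf : ContinuousOn f U) {G G' : ℝ → ℝ} (hG : ∀ t, HasDerivAt G (G' t) t)
    (hG' : Continuous G') :
    WD (fun x => G (f x)) (fun x => G' (f x) * k x) e U := by
  have hGc : Continuous G := continuous_iff_continuousAt.2 fun t => (hG t).continuousAt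
  refine ⟨(hGc.comp_continuousOn hf).locallyIntegrableOn hU.measurableSet,
    h.2.1.continuousOn_mul (hG'.comp_continuousOn hf) hU.isLocallyClosed, fun φ hφ hs hsub => ?_⟩
  obtain ⟨δ, hδ, hδU⟩ := IsCompact.exists_cthickening_subset_open hs hU hsub
  set K := cthickening δ (tsupport φ) with hKdef
  have hK : IsCompact K := IsCompact.cthickening hs
  have hfi : Integrable (K.indicator f) :=
    (integrable_indicator_iff hK.measurableSet).2 (h.1.integrableOn_compact_subset hδU hK)
  have hki : Integrable (K.indicator k) :=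
    (integrable_indicator_iff hK.measurableSet).2 (h.2.1.integrableOn_compact_subset hδU hK)
  obtain ⟨C, hC⟩ : ∃ C, ∀ x, |K.indicator f x| ≤ C := by
    obtain ⟨C, hC⟩ := hK.exists_bound_of_continuousOn (hf.mono hδU)
    refine ⟨max C 0, fun x => ?_⟩
    by_cases hx : x ∈ K
    · rw [indicator_of_mem hx]; exact (hC x hx).trans (le_max_left _ _)
    · rw [indicator_of_notMem hx]; simp
  obtain ⟨C₁, hC₁⟩ := (isCompact_closedBall (0 : ℝ) (3 * C)).exists_bound_of_continuousOn
    hGc.continuousOn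
  obtain ⟨C₂, hC₂⟩ := (isCompact_closedBall (0 : ℝ) (3 * C)).exists_bound_of_continuousOn
    hG'.continuousOn
  obtain ⟨C₃, hC₃⟩ := hφ.continuous.bounded_above_of_compact_support hs
  set fn : ℕ → Pl → ℝ := fun n => moll (bumpSeq hδ n) (K.indicator f) with hfn
  have hfn_smooth : ∀ n, ContDiff ℝ ∞ (fn n) := fun n => contDiff_moll _ hfi.locallyIntegrable
  have hfn_bd : ∀ n x, fn n x ∈ closedBall (0 : ℝ) (3 * C) := fun n x => by
    rw [mem_closedBall_zero_iff]
    exact abs_moll_le _ hfi.aestronglyMeasurable hC x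
  have hcontAt : ∀ y ∈ thickening δ (tsupport φ), ContinuousAt (K.indicator f) y := by
    intro y hy
    have h1 : K ∈ 𝓝 y :=
      mem_of_superset (isOpen_thickening.mem_nhds hy) (thickening_subset_cthickening _ _)
    have h2 : ContinuousAt f y := (hf.mono hδU).continuousAt h1
    refine h2.congr ?_
    filter_upwards [h1] with z hz using (indicator_of_mem hz f).symm
  have hjoint : ∀ y ∈ thickening δ (tsupport φ),
      Tendsto (fun q : ℕ × Pl => fn q.1 q.2) (atTop ×ˢ 𝓝 y) (𝓝 (f y)) := by
    intro y hy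
    have := tendsto_moll_joint hδ hfi.aestronglyMeasurable (hcontAt y hy)
    rwa [indicator_of_mem (thickening_subset_cthickening _ _ hy)] at this
  have hdφ : Continuous fun x => fderiv ℝ φ x e :=
    (hφ.continuous_fderiv (by simp)).clm_apply continuous_const
  set ψ : ℕ → Pl → ℝ := fun n x => G' (fn n x) * φ x with hψ
  have hψc : ∀ n, Continuous (ψ n) := fun n =>
    (hG'.comp (hfn_smooth n).continuous).mul hφ.continuous
  have hψb : ∀ n x, ‖ψ n x‖ ≤ C₂ * C₃ := fun n x => by
    rw [norm_mul]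
    exact mul_le_mul (hC₂ _ (hfn_bd n x)) (hC₃ x) (norm_nonneg _)
      ((norm_nonneg _).trans (hC₂ _ (hfn_bd n x)))
  -- the identity for the mollified functions
  have hid : ∀ n, ∫ x, G (fn n x) * fderiv ℝ φ x e
      = -∫ t, K.indicator k t * moll (bumpSeq hδ n) (ψ n) t := by
    intro n
    have hw := WD.of_hasFDerivAt (c := fun x => G (fn n x))
      (c' := fun x => G' (fn n x) • fderiv ℝ (fn n) x) isOpen_univ e
      (fun x _ => (hG (fn n x)).comp_hasFDerivAt x
        ((hfn_smooth n).differentiable (by simp) x).hasFDerivAt)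
      (Continuous.continuousOn (by
        simp only [smul_apply, smul_eq_mul]
        exact (hG'.comp (hfn_smooth n).continuous).mul
          (((hfn_smooth n).continuous_fderiv (by simp)).clm_apply continuous_const)))
    rw [hw.2.2 φ hφ hs (subset_univ _)]
    congr 1
    simp only [moll_eq]
    rw [← integral_mul_conv_swap (bumpSeq hδ n).integrable_normed (bumpSeq hδ n).normed_neg hki
      (hψc n) (hψb n)]
    congr 1
    funext x
    by_cases hx : x ∈ tsupport φ
    · have hb : closedBall x (bumpSeq hδ n).rOut ⊆ K :=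
        (closedBall_subset_closedBall (bumpSeq_rOut_le hδ n)).trans
          (closedBall_subset_cthickening hx δ)
      have := h.fderiv_moll hK hδU (bumpSeq hδ n) hb
      rw [moll_eq] at this
      simp only [smul_apply, smul_eq_mul, hψ, hfn, this]
      ring
    · simp [hψ, image_eq_zero_of_notMem_tsupport hx]
  -- limit of the left hand sides
  have hL : Tendsto (fun n => ∫ x, G (fn n x) * fderiv ℝ φ x e) atTop
      (𝓝 (∫ x, G (f x) * fderiv ℝ φ x e)) := by
    refine tendsto_integral_of_dominated_convergence (fun x => C₁ * ‖fderiv ℝ φ x e‖)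
      (fun n => ((hGc.comp (hfn_smooth n).continuous).mul hdφ).aestronglyMeasurable)
      ((hdφ.integrable_of_hasCompactSupport (hs.fderiv_apply ℝ e)).norm.const_mul _)
      (fun n => Eventually.of_forall fun x => ?_) (Eventually.of_forall fun x => ?_)
    · rw [norm_mul]
      exact mul_le_mul_of_nonneg_right (hC₁ _ (hfn_bd n x)) (norm_nonneg _)
    · by_cases hx : x ∈ tsupport φ
      · have h1 := (hjoint x (self_subset_thickening hδ _ hx)).comp
          (tendsto_id.prodMk tendsto_const_nhds)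
        exact ((hGc.tendsto _).comp h1).mul_const _
      · have : fderiv ℝ φ x = 0 := by
          by_contra hne
          exact hx (support_fderiv_subset ℝ hne)
        simp [this]
  -- limit of the right hand sides
  have hR : Tendsto (fun n => ∫ t, K.indicator k t * moll (bumpSeq hδ n) (ψ n) t) atTop
      (𝓝 (∫ t, K.indicator k t * (G' (f t) * φ t))) := by
    refine tendsto_integral_of_dominated_convergence
      (fun t => ‖K.indicator k t‖ * (3 * (C₂ * C₃)))
      (fun n => hki.aestronglyMeasurable.mul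
        (contDiff_moll _ (hψc n).locallyIntegrable).continuous.aestronglyMeasurable)
      (hki.norm.mul_const _)
      (fun n => Eventually.of_forall fun x => ?_) (Eventually.of_forall fun y => ?_)
    · rw [norm_mul]
      exact mul_le_mul_of_nonneg_left
        (abs_moll_le _ (hψc n).aestronglyMeasurable (hψb n) x) (norm_nonneg _)
    · refine Tendsto.const_mul _ ?_
      refine ContDiffBump.convolution_tendsto_right (μ := volume) (φ := fun n => bumpSeq hδ n)
        (g := ψ) (k := fun _ => y) (x₀ := y) (tendsto_bumpSeq_rOut hδ)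
        (Eventually.of_forall fun n => (hψc n).aestronglyMeasurable) ?_ tendsto_const_nhds
      by_cases hy : y ∈ tsupport φ
      · exact ((hG'.tendsto _).comp (hjoint y (self_subset_thickening hδ _ hy))).mul
          ((hφ.continuous.tendsto y).comp tendsto_snd)
      · rw [image_eq_zero_of_notMem_tsupport hy, mul_zero]
        have h1 : ∀ᶠ z in 𝓝 y, φ z = 0 := notMem_tsupport_iff_eventuallyEq.1 hy
        refine tendsto_const_nhds.congr' ?_
        filter_upwards [tendsto_snd.eventually h1] with q hq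
        simp [Function.uncurry, hψ, hq]
  have hfinal := tendsto_nhds_unique hL (by simpa only [hid] using hR.neg)
  rw [hfinal]
  congr 2
  funext t
  by_cases ht : t ∈ K
  · rw [indicator_of_mem ht]; ring
  · have : φ t = 0 := image_eq_zero_of_notMem_tsupport fun h => ht (self_subset_cthickening _ h)
    simp [this]

/-- Smooth cutoff functions. -/
lemma exists_cutoff {K W : Set Pl} (hK : IsCompact K) (hW : IsOpen W) (hKW : K ⊆ W) :
    ∃ χ : Pl → ℝ, ContDiff ℝ ∞ χ ∧ HasCompactSupport χ ∧ tsupport χ ⊆ W ∧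
      ∀ x ∈ K, ∀ᶠ y in 𝓝 x, χ y = 1 := by
  obtain ⟨L, hL, hKL, hLW⟩ := exists_compact_between hK hW hKW
  obtain ⟨χ, h1, h0, -⟩ := exists_contMDiffMap_one_nhds_of_subset_interior
    (modelWithCornersSelf ℝ Pl) (n := ⊤) hK.isClosed hKL
  have hsupp : tsupport χ ⊆ L := by
    refine closure_minimal (fun x hx => ?_) hL.isClosed
    by_contra h
    exact hx (h0 x h)
  refine ⟨χ, χ.contMDiff.contDiff, hL.of_isClosed_subset (isClosed_tsupport _) hsupp,
    hsupp.trans hLW, fun x hx => ?_⟩
  exact h1.filter_mono (nhds_le_nhdsSet hx)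

/-- If a function and its weak derivative vanish outside a compact subset of `W`, then
integration by parts holds against all functions that are smooth on `W`. -/
lemma WD.localize {H Γ : Pl → ℝ} {e : Pl} {W K : Set Pl} (h : WD H Γ e W) (hW : IsOpen W)
    (hK : IsCompact K) (hKW : K ⊆ W) (hH : ∀ x ∉ K, H x = 0) (hΓ : ∀ x ∉ K, Γ x = 0)
    {φ : Pl → ℝ} (hφ : ContDiffOn ℝ ∞ φ W) :
    ∫ x, H x * fderiv ℝ φ x e = -∫ x, Γ x * φ x := by
  obtain ⟨χ, hχ, hχc, hχW, hχ1⟩ := exists_cutoff hK hW hKW
  have hsm : ContDiff ℝ ∞ (fun x => χ x * φ x) := by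
    rw [contDiff_iff_contDiffAt]
    intro x
    by_cases hx : x ∈ tsupport χ
    · exact hχ.contDiffAt.mul (hφ.contDiffAt (hW.mem_nhds (hχW hx)))
    · have h1 : ∀ᶠ z in 𝓝 x, χ z = 0 := notMem_tsupport_iff_eventuallyEq.1 hx
      refine (contDiffAt_const (c := (0 : ℝ))).congr_of_eventuallyEq ?_
      filter_upwards [h1] with z hz
      simp [hz]
  have hmain := h.2.2 _ hsm (hχc.mul_right) ((tsupport_mul_subset_left).trans hχW)
  have e1 : (fun x => H x * fderiv ℝ φ x e)
      = fun x => H x * fderiv ℝ (fun x => χ x * φ x) x e := by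
    funext x
    by_cases hx : x ∈ K
    · have : (fun x => χ x * φ x) =ᶠ[𝓝 x] φ := by
        filter_upwards [hχ1 x hx] with z hz
        simp [hz]
      rw [this.fderiv_eq]
    · simp [hH x hx]
  have e2 : (fun x => Γ x * φ x) = fun x => Γ x * (χ x * φ x) := by
    funext x
    by_cases hx : x ∈ K
    · rw [(hχ1 x hx).self_of_nhds, one_mul]
    · simp [hΓ x hx]
  rw [e1, e2, hmain]

lemma integrable_of_vanish {H : Pl → ℝ} {W K : Set Pl} (h : LocallyIntegrableOn H W)
    (hK : IsCompact K) (hKW : K ⊆ W) (hH : ∀ x ∉ K, H x = 0) : Integrable H := by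
  refine (integrableOn_iff_integrable_of_support_subset ?_).1
    (h.integrableOn_compact_subset hKW hK)
  intro x hx
  by_contra hxK
  exact hx (hH x hxK)

lemma WD.globalize {H Γ : Pl → ℝ} {e : Pl} {W K : Set Pl} (h : WD H Γ e W) (hW : IsOpen W)
    (hK : IsCompact K) (hKW : K ⊆ W) (hH : ∀ x ∉ K, H x = 0) (hΓ : ∀ x ∉ K, Γ x = 0) :
    WD H Γ e univ :=
  ⟨(integrable_of_vanish h.1 hK hKW hH).locallyIntegrable.locallyIntegrableOn _,
    (integrable_of_vanish h.2.1 hK hKW hΓ).locallyIntegrable.locallyIntegrableOn _,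
    fun _ hφ _ _ => h.localize hW hK hKW hH hΓ hφ.contDiffOn⟩

lemma HasWeakGradientOn.wd {f : Pl → ℝ} {g : Pl → Pl} {U : Set Pl}
    (h : HasWeakGradientOn f g U) (i : Fin 2) :
    WD f (fun x => g x i) (EuclideanSpace.single i 1) U :=
  ⟨h.1, (EuclideanSpace.proj (𝕜 := ℝ) i).locallyIntegrableOn_comp h.2.1,
    fun φ h1 h2 h3 => h.2.2 φ h1 h2 h3 i⟩

lemma HasWeakGradientOn.of_wd {f : Pl → ℝ} {g : Pl → Pl} {U : Set Pl}
    (hg : LocallyIntegrableOn g U)
    (h : ∀ i, WD f (fun x => g x i) (EuclideanSpace.single i 1) U) :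
    HasWeakGradientOn f g U :=
  ⟨(h 0).1, hg, fun φ h1 h2 h3 i => (h i).2.2 φ h1 h2 h3⟩

end Pool.Agent.Lib.MP_2231f7_an
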